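import Mathlib

/-!
# Statements of the jobs of the project OR (orthogonal Picard-Lefschetz families)
-/

set_option autoImplicit false

namespace Pool.Agent.Y985.OR

open Matrix

/-- square complex matrices -/
abbrev Mat (n : ℕ) : Type := Matrix (Fin n) (Fin n) ℂ

/-- the bilinear form `(u, v) = uᵀ J v` -/
def bl {n : ℕ} (J : Mat n) (u v : Fin n → ℂ) : ℂ := u ⬝ᵥ (J *ᵥ v)

/-- the reflection `x ↦ x - 2 (v, x) / (v, v) v` -/
noncomputable def refl {n : ℕ} (J : Mat n) (v : Fin n → ℂ) : Mat n :=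
  1 - (2 / bl J v v) • vecMulVec v (J *ᵥ v)

/-- the value of a polynomial at the entries of a matrix -/
noncomputable def pm {n : ℕ} (p : MvPolynomial (Fin n × Fin n) ℂ) (A : Mat n) : ℂ :=
  MvPolynomial.eval (fun i => A i.1 i.2) p

/-- Zariski closed submonoids of the matrices -/
def ZCl {n : ℕ} (S : Submonoid (Mat n)) : Prop :=
  ∀ g, (∀ p : MvPolynomial (Fin n × Fin n) ℂ, (∀ h ∈ S, pm p h = 0) → pm p g = 0) → g ∈ S

/-- all reflections in vectors of `W` lie in `S` -/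
def Full {n : ℕ} (J : Mat n) (S : Submonoid (Mat n)) (W : Submodule ℂ (Fin n → ℂ)) : Prop :=
  ∀ x ∈ W, bl J x x ≠ 0 → refl J x ∈ S

/-- the orthogonal group -/
def IsO {n : ℕ} (J g : Mat n) : Prop := gᵀ * J * g = J

/-- the special orthogonal group -/
def IsSO {n : ℕ} (J g : Mat n) : Prop := gᵀ * J * g = J ∧ g.det = 1

/-- OR-CD: the orthogonal group is generated by reflections -/
def S_CD : Prop := ∀ (n : ℕ) (J : Mat n), Jᵀ = J → J.det ≠ 0 → ∀ g, IsO J g →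
  g ∈ Submonoid.closure {h | ∃ v, bl J v v ≠ 0 ∧ h = refl J v}

/-- OR-PLANE: two reflections whose product has infinite order -/
def S_PLANE : Prop := ∀ (n : ℕ) (J : Mat n), Jᵀ = J → J.det ≠ 0 → ∀ S : Submonoid (Mat n), ZCl S → ∀ u v,
  bl J u u ≠ 0 → bl J v v ≠ 0 → refl J u ∈ S → refl J v ∈ S →
  (∀ m : ℕ, 0 < m → (refl J u * refl J v) ^ m ≠ 1) →
  ∀ a b : ℂ, bl J (a • u + b • v) (a • u + b • v) ≠ 0 → refl J (a • u + b • v) ∈ S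

/-- OR-STEP: one more dimension -/
def S_STEP : Prop := ∀ (n : ℕ) (J : Mat n), Jᵀ = J → J.det ≠ 0 → ∀ S : Submonoid (Mat n), ZCl S →
  ∀ (W : Submodule ℂ (Fin n → ℂ)), Full J S W → ∀ v e, bl J v v ≠ 0 → refl J v ∈ S → e ∈ W → bl J e e ≠ 0 →
  (bl J e v) ^ 2 = 2 * bl J e e * bl J v v → Full J S (W ⊔ Submodule.span ℂ {v})

/-- OR-EX: existence of the vectors for the step -/
def S_EX : Prop := ∀ (n : ℕ) (J : Mat n), Jᵀ = J → J.det ≠ 0 → ∀ S : Submonoid (Mat n),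
  (∀ W : Submodule ℂ (Fin n → ℂ), (∀ v, bl J v v ≠ 0 → refl J v ∈ S → ∀ x ∈ W, refl J v *ᵥ x ∈ W) →
    W = ⊥ ∨ W = ⊤) →
  ∀ W : Submodule ℂ (Fin n → ℂ), W ≠ ⊤ → 2 ≤ Module.finrank ℂ W → (∃ c ∈ W, bl J c c ≠ 0) →
  ∃ v e, v ∉ W ∧ bl J v v ≠ 0 ∧ refl J v ∈ S ∧ e ∈ W ∧ bl J e e ≠ 0 ∧
    (bl J e v) ^ 2 = 2 * bl J e e * bl J v v

/-- OR-ALL: Zariski closed submonoids containing an irreducible set of reflections -/
def S_ALL : Prop := ∀ (n : ℕ) (J : Mat n), Jᵀ = J → J.det ≠ 0 → ∀ S : Submonoid (Mat n), ZCl S →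
  (∀ W : Submodule ℂ (Fin n → ℂ), (∀ v, bl J v v ≠ 0 → refl J v ∈ S → ∀ x ∈ W, refl J v *ᵥ x ∈ W) →
    W = ⊥ ∨ W = ⊤) →
  (∃ u v, bl J u u ≠ 0 ∧ bl J v v ≠ 0 ∧ refl J u ∈ S ∧ refl J v ∈ S ∧
    ∀ m : ℕ, 0 < m → (refl J u * refl J v) ^ m ≠ 1) →
  ∀ g, IsO J g → g ∈ S

/-- OR-IRR: the special orthogonal group is irreducible -/
def S_IRR : Prop := ∀ (n : ℕ) (J : Mat n), Jᵀ = J → J.det ≠ 0 → ∀ Φ Ψ : MvPolynomial (Fin n × Fin n) ℂ,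
  (∀ h, IsSO J h → pm Φ h * pm Ψ h = 0) → (∀ h, IsSO J h → pm Φ h = 0) ∨ (∀ h, IsSO J h → pm Ψ h = 0)

/-- OR-CONN: rational functions on the special orthogonal group with finitely many values are constant -/
def S_CONN : Prop := ∀ (n : ℕ) (J : Mat n), Jᵀ = J → J.det ≠ 0 → ∀ (Φ Ψ : MvPolynomial (Fin n × Fin n) ℂ)
  (R : Polynomial ℂ) (m : ℕ), R ≠ 0 → R.natDegree ≤ m →
  (∀ h, IsSO J h → ∑ i ∈ Finset.range (m + 1), R.coeff i * pm Φ h ^ i * pm Ψ h ^ (m - i) = 0) →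
  ∀ h, IsSO J h → pm Φ h * pm Ψ 1 = pm Φ 1 * pm Ψ h

/-- OR-DESC: elimination of square roots -/
def S_DESC : Prop := ∀ (X : Type) [Fintype X] (n : ℕ) (d : Fin n → MvPolynomial X ℂ) (V : Set (X → ℂ))
  (g : (X → ℂ) → ℂ) (p q : MvPolynomial (Fin n) (MvPolynomial X ℂ)),
  (∃ x ∈ V, ∃ y : Fin n → ℂ, (∀ i, y i ^ 2 * MvPolynomial.eval x (d i) = 1) ∧
    MvPolynomial.eval₂ (MvPolynomial.eval x) y q ≠ 0) →
  (∀ x ∈ V, ∃ y : Fin n → ℂ, ∀ i, y i ^ 2 * MvPolynomial.eval x (d i) = 1) →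
  (∀ x ∈ V, ∀ y : Fin n → ℂ, (∀ i, y i ^ 2 * MvPolynomial.eval x (d i) = 1) →
    MvPolynomial.eval₂ (MvPolynomial.eval x) y q * g x = MvPolynomial.eval₂ (MvPolynomial.eval x) y p) →
  ∃ p' q' : MvPolynomial X ℂ, q' ≠ 0 ∧ ∀ x ∈ V, MvPolynomial.eval x q' * g x = MvPolynomial.eval x p'

/-- OR-SQ: symmetric matrices are of the form `Mᵀ M` -/
def S_SQ : Prop := ∀ (n : ℕ) (J : Mat n), Jᵀ = J → J.det ≠ 0 → ∃ M : Mat n, Mᵀ * M = J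

end Pool.Agent.Y985.OR
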