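import Pool.Agent.Y985.OR.Stm

/-!
# Closed submonoids with an irreducible set of reflections (job OR-ALL)
-/

set_option autoImplicit false

namespace Pool.Agent.Y985.OR

open Matrix

namespace AllAux

lemma bl_smul {n : ℕ} (J : Mat n) (c : ℂ) (x : Fin n → ℂ) :
    bl J (c • x) (c • x) = c ^ 2 * bl J x x := by
  unfold bl
  rw [Matrix.mulVec_smul, smul_dotProduct, dotProduct_smul, smul_eq_mul, smul_eq_mul]
  ring

lemma refl_smul {n : ℕ} (J : Mat n) {c : ℂ} (hc : c ≠ 0) (x : Fin n → ℂ) :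
    refl J (c • x) = refl J x := by
  unfold refl
  rw [bl_smul, Matrix.mulVec_smul]
  have e : vecMulVec (c • x) (c • (J *ᵥ x)) = c ^ 2 • vecMulVec x (J *ᵥ x) := by
    ext i j
    simp only [vecMulVec_apply, Pi.smul_apply, smul_eq_mul, Matrix.smul_apply]
    ring
  rw [e, smul_smul]
  have e2 : 2 / (c ^ 2 * bl J x x) * c ^ 2 = 2 / bl J x x := by
    by_cases h : bl J x x = 0
    · rw [h, mul_zero, div_zero, zero_mul]
    · field_simp
  rw [e2]

lemma refl_sq {n : ℕ} (J : Mat n) {x : Fin n → ℂ} (hx : bl J x x ≠ 0) :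
    refl J x * refl J x = 1 := by
  have e : vecMulVec x (J *ᵥ x) * vecMulVec x (J *ᵥ x) = bl J x x • vecMulVec x (J *ᵥ x) := by
    rw [vecMulVec_mul_vecMulVec]
    have : (J *ᵥ x) ⬝ᵥ x = bl J x x := by
      unfold bl
      rw [dotProduct_comm]
    rw [this]
    ext i j
    simp only [vecMulVec_apply, Pi.smul_apply, smul_eq_mul, Matrix.smul_apply]
    ring
  unfold refl
  set M := vecMulVec x (J *ᵥ x) with hM
  set b := bl J x x with hb
  have h1 : (1 - (2 / b) • M) * (1 - (2 / b) • M) =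
      1 - (2 / b) • M - (2 / b) • M + ((2 / b) * (2 / b)) • (M * M) := by
    rw [sub_mul, mul_sub, mul_sub, one_mul, one_mul, mul_one, smul_mul_assoc, mul_smul_comm,
      smul_smul]
    abel
  rw [h1, e, smul_smul]
  have h2 : 2 / b * (2 / b) * b = 2 / b + 2 / b := by
    field_simp
    ring
  rw [h2, add_smul]
  abel

/-- the induction over the dimension -/
lemma climb (hSTEP : S_STEP) (hEX : S_EX) {n : ℕ} (J : Mat n) (hJ : Jᵀ = J) (hdet : J.det ≠ 0)
    (S : Submonoid (Mat n)) (hZ : ZCl S)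
    (hirr : ∀ W : Submodule ℂ (Fin n → ℂ), (∀ v, bl J v v ≠ 0 → refl J v ∈ S →
      ∀ x ∈ W, refl J v *ᵥ x ∈ W) → W = ⊥ ∨ W = ⊤) :
    ∀ (k : ℕ) (W : Submodule ℂ (Fin n → ℂ)), Full J S W → 2 ≤ Module.finrank ℂ W →
      (∃ c ∈ W, bl J c c ≠ 0) → n ≤ Module.finrank ℂ W + k → Full J S ⊤ := by
  intro k
  induction k with
  | zero =>
    intro W hF _ _ hn
    have h1 : W = ⊤ := by
      apply Submodule.eq_top_of_finrank_eq
      have h2 := Submodule.finrank_le W
      rw [Module.finrank_fin_fun] at h2 ⊢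
      omega
    rw [h1] at hF
    exact hF
  | succ k ih =>
    intro W hF h2 hc hn
    by_cases hW : W = ⊤
    · rw [hW] at hF
      exact hF
    · obtain ⟨v, e, hvW, hv, hvS, he, hee, heq⟩ := hEX n J hJ hdet S hirr W hW h2 hc
      have hF' := hSTEP n J hJ hdet S hZ W hF v e hv hvS he hee heq
      have hlt : W < W ⊔ Submodule.span ℂ {v} := by
        refine lt_of_le_of_ne le_sup_left ?_
        intro h
        apply hvW
        rw [h]
        exact Submodule.mem_sup_right (Submodule.mem_span_singleton_self v)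
      have hfr := Submodule.finrank_lt_finrank_of_lt hlt
      obtain ⟨c, hcW, hcc⟩ := hc
      exact ih _ hF' (by omega) ⟨c, hlt.le hcW, hcc⟩ (by omega)

lemma plane_rank {n : ℕ} (J : Mat n) {u v : Fin n → ℂ} (hu : bl J u u ≠ 0) (hv : bl J v v ≠ 0)
    (hne : refl J u * refl J v ≠ 1) : 2 ≤ Module.finrank ℂ (Submodule.span ℂ {u, v}) := by
  by_contra h
  have h1 : Module.finrank ℂ (Submodule.span ℂ {u, v}) ≤ 1 := by omega
  obtain ⟨w, hw⟩ := finrank_le_one_iff.1 h1
  obtain ⟨a, ha⟩ := hw ⟨u, Submodule.subset_span (by simp)⟩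
  obtain ⟨b, hb⟩ := hw ⟨v, Submodule.subset_span (by simp)⟩
  have ha' : a • (w : Fin n → ℂ) = u := congrArg Subtype.val ha
  have hb' : b • (w : Fin n → ℂ) = v := congrArg Subtype.val hb
  have hz : bl J (0 : Fin n → ℂ) 0 = 0 := by
    unfold bl
    rw [zero_dotProduct]
  have ha0 : a ≠ 0 := by
    rintro rfl
    rw [zero_smul] at ha'
    rw [← ha'] at hu
    exact hu hz
  have hb0 : b ≠ 0 := by
    rintro rfl
    rw [zero_smul] at hb'
    rw [← hb'] at hv
    exact hv hz
  apply hne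
  have e1 : refl J u = refl J (w : Fin n → ℂ) :=
    (congrArg (refl J) ha').symm.trans (refl_smul J ha0 _)
  have e2 : refl J v = refl J (w : Fin n → ℂ) :=
    (congrArg (refl J) hb').symm.trans (refl_smul J hb0 _)
  rw [e2, ← e1, refl_sq J hu]

end AllAux

theorem all : S_CD → S_PLANE → S_STEP → S_EX → S_ALL := by
  intro hCD hPL hSTEP hEX n J hJ hdet S hZ hirr ⟨u, v, hu, hv, hru, hrv, hinf⟩ g hg
  have hne : refl J u * refl J v ≠ 1 := by
    have h := hinf 1 one_pos
    rwa [pow_one] at h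
  have hfull : Full J S (Submodule.span ℂ {u, v}) := by
    intro x hx hxx
    obtain ⟨a, b, rfl⟩ := Submodule.mem_span_pair.1 hx
    exact hPL n J hJ hdet S hZ u v hu hv hru hrv hinf a b hxx
  have htop := AllAux.climb hSTEP hEX J hJ hdet S hZ hirr n (Submodule.span ℂ {u, v}) hfull
    (AllAux.plane_rank J hu hv hne) ⟨u, Submodule.subset_span (by simp), hu⟩ (by omega)
  have hle : Submonoid.closure {h | ∃ v, bl J v v ≠ 0 ∧ h = refl J v} ≤ S := by
    refine Submonoid.closure_le.2 ?_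
    rintro _ ⟨w, hw, rfl⟩
    exact htop w Submodule.mem_top hw
  exact hle (hCD n J hJ hdet g hg)

end Pool.Agent.Y985.OR
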