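import Pool.Agent.Y985.OR.Stm

/-!
# The orthogonal group is generated by reflections (helper64)
-/

set_option autoImplicit false

namespace Pool.Agent.Y985.OR

open Matrix

namespace CDaux

variable {n : ℕ} {J : Mat n}

theorem bl_comm (hJ : Jᵀ = J) (u v : Fin n → ℂ) : bl J u v = bl J v u := by
  unfold bl
  rw [dotProduct_mulVec, ← mulVec_transpose, hJ, dotProduct_comm]

theorem bl_add_left (u v w : Fin n → ℂ) : bl J (u + v) w = bl J u w + bl J v w := by
  unfold bl
  rw [add_dotProduct]

theorem bl_add_right (u v w : Fin n → ℂ) : bl J u (v + w) = bl J u v + bl J u w := by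
  unfold bl
  rw [mulVec_add, dotProduct_add]

theorem bl_sub_left (u v w : Fin n → ℂ) : bl J (u - v) w = bl J u w - bl J v w := by
  unfold bl
  rw [sub_dotProduct]

theorem bl_sub_right (u v w : Fin n → ℂ) : bl J u (v - w) = bl J u v - bl J u w := by
  unfold bl
  rw [mulVec_sub, dotProduct_sub]

theorem bl_smul_left (c : ℂ) (u v : Fin n → ℂ) : bl J (c • u) v = c * bl J u v := by
  unfold bl
  rw [smul_dotProduct, smul_eq_mul]

theorem bl_smul_right (c : ℂ) (u v : Fin n → ℂ) : bl J u (c • v) = c * bl J u v := by
  unfold bl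
  rw [mulVec_smul, dotProduct_smul, smul_eq_mul]

theorem refl_mulVec (hJ : Jᵀ = J) (v x : Fin n → ℂ) :
    refl J v *ᵥ x = x - (2 * bl J v x / bl J v v) • v := by
  unfold refl
  rw [sub_mulVec, one_mulVec, smul_mulVec, vecMulVec_mulVec]
  have h : (J *ᵥ v) ⬝ᵥ x = bl J v x := by
    rw [dotProduct_comm, bl_comm hJ]
    rfl
  rw [h]
  congr 1
  funext i
  simp only [Pi.smul_apply, MulOpposite.smul_eq_mul_unop, MulOpposite.unop_op, smul_eq_mul]
  ring

theorem refl_refl (hJ : Jᵀ = J) {v : Fin n → ℂ} (hv : bl J v v ≠ 0) :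
    refl J v * refl J v = 1 := by
  apply Matrix.toLin'.injective
  apply LinearMap.ext
  intro x
  rw [Matrix.toLin'_apply, Matrix.toLin'_apply, one_mulVec, ← mulVec_mulVec, refl_mulVec hJ,
    refl_mulVec hJ, bl_sub_right, bl_smul_right, sub_sub, ← add_smul]
  have h : 2 * bl J v x / bl J v v + 2 * (bl J v x - 2 * bl J v x / bl J v v * bl J v v) /
      bl J v v = 0 := by
    field_simp
    ring
  rw [h, zero_smul, sub_zero]

/-- preservation of the form -/
def Pr (J h : Mat n) : Prop := ∀ x y, bl J (h *ᵥ x) (h *ᵥ y) = bl J x y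

theorem pr_refl (hJ : Jᵀ = J) {v : Fin n → ℂ} (hv : bl J v v ≠ 0) : Pr J (refl J v) := by
  intro x y
  rw [refl_mulVec hJ, refl_mulVec hJ, bl_sub_left, bl_sub_right, bl_sub_right, bl_smul_left,
    bl_smul_right, bl_smul_left, bl_smul_right, bl_comm hJ x v]
  field_simp
  ring

theorem pr_mul {g h : Mat n} (hg : Pr J g) (hh : Pr J h) : Pr J (g * h) := by
  intro x y
  rw [← mulVec_mulVec, ← mulVec_mulVec, hg, hh]

theorem pr_of_isO {g : Mat n} (hg : IsO J g) : Pr J g := by
  intro x y
  unfold IsO at hg
  have h : x ⬝ᵥ ((gᵀ * J * g) *ᵥ y) = (g *ᵥ x) ⬝ᵥ (J *ᵥ (g *ᵥ y)) := by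
    rw [← mulVec_mulVec, ← mulVec_mulVec, dotProduct_mulVec, vecMul_transpose]
  rw [hg] at h
  exact h.symm

/-- the reflection which exchanges two vectors of the same length -/
theorem refl_diff (hJ : Jᵀ = J) {x e : Fin n → ℂ} (h : bl J x x = bl J e e)
    (hne : bl J (x - e) (x - e) ≠ 0) : refl J (x - e) *ᵥ x = e := by
  rw [refl_mulVec hJ]
  have h1 : bl J (x - e) (x - e) = 2 * bl J (x - e) x := by
    rw [bl_sub_left, bl_sub_right, bl_sub_right, bl_sub_left, bl_comm hJ e x, h]
    ring
  rw [← h1, div_self hne, one_smul, sub_sub_cancel]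

theorem refl_fix (hJ : Jᵀ = J) {v x : Fin n → ℂ} (h : bl J v x = 0) : refl J v *ᵥ x = x := by
  rw [refl_mulVec hJ, h, mul_zero, zero_div, zero_smul, sub_zero]

end CDaux

open CDaux

theorem cd : S_CD := by
  intro n J hJ hdet g hg
  have : Invertible (2 : ℂ) := invertibleOfNonzero two_ne_zero
  have hbil : ∀ u v, Matrix.toBilin' J u v = bl J u v := fun u v => Matrix.toBilin'_apply' J u v
  have hsymm : LinearMap.BilinForm.IsSymm (Matrix.toBilin' J) := by
    refine ⟨fun u v => ?_⟩
    rw [hbil, hbil, bl_comm hJ]
  have hnd : (Matrix.toBilin' J).Nondegenerate :=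
    LinearMap.BilinForm.nondegenerate_toBilin'_iff_det_ne_zero.2 hdet
  obtain ⟨e, he⟩ := LinearMap.BilinForm.exists_orthogonal_basis
    (LinearMap.BilinForm.isSymm_iff.1 hsymm)
  have hee : ∀ i, bl J (e i) (e i) ≠ 0 := by
    intro i h
    refine LinearMap.BilinForm.iIsOrtho.not_isOrtho_basis_self_of_nondegenerate he hnd i ?_
    rw [hbil, h]
  have hort : ∀ i j, i ≠ j → bl J (e i) (e j) = 0 := by
    intro i j hij
    rw [← hbil]
    exact he hij
  have key : ∀ k : ℕ, k ≤ Module.finrank ℂ (Fin n → ℂ) →
      ∃ s ∈ Submonoid.closure {h | ∃ v, bl J v v ≠ 0 ∧ h = refl J v}, ∃ h : Mat n,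
        g = s * h ∧ Pr J h ∧ ∀ i : Fin (Module.finrank ℂ (Fin n → ℂ)), (i : ℕ) < k →
          h *ᵥ e i = e i := by
    intro k
    induction k with
    | zero =>
      intro _
      exact ⟨1, one_mem _, g, (one_mul g).symm, pr_of_isO hg, fun i hi => absurd hi (by omega)⟩
    | succ k ih =>
      intro hk
      obtain ⟨s, hs, h, hgs, hP, hfix⟩ := ih (by omega)
      let K : Fin (Module.finrank ℂ (Fin n → ℂ)) := ⟨k, hk⟩
      let x := h *ᵥ e K
      have hxx : bl J x x = bl J (e K) (e K) := hP _ _
      have hxi : ∀ i : Fin (Module.finrank ℂ (Fin n → ℂ)), (i : ℕ) < k → bl J x (e i) = 0 := by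
        intro i hi
        have h1 := hP (e K) (e i)
        rw [hfix i hi] at h1
        rw [h1]
        exact hort _ _ (fun h2 => by
          have := congrArg Fin.val h2
          change k = (i : ℕ) at this
          omega)
      have hei : ∀ i : Fin (Module.finrank ℂ (Fin n → ℂ)), (i : ℕ) < k →
          bl J (e K) (e i) = 0 := by
        intro i hi
        exact hort _ _ (fun h2 => by
          have := congrArg Fin.val h2
          change k = (i : ℕ) at this
          omega)
      by_cases h0 : bl J (x - e K) (x - e K) = 0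
      · have h4 : bl J (x + e K) (x + e K) ≠ 0 := by
          intro h5
          have h6 : bl J (x - e K) (x - e K) + bl J (x + e K) (x + e K) =
              4 * bl J (e K) (e K) := by
            simp only [bl_sub_left, bl_sub_right, bl_add_left, bl_add_right, hxx]
            ring
          rw [h0, h5, add_zero] at h6
          exact mul_ne_zero (by norm_num) (hee K) h6.symm
        have hr1 : refl J (x + e K) *ᵥ x = -e K := by
          have h5 : x + e K = x - -e K := by rw [sub_neg_eq_add]
          have h7 : bl J x x = bl J (-e K) (-e K) := by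
            have h8 : (-e K : Fin n → ℂ) = (-1 : ℂ) • e K := by rw [neg_one_smul]
            rw [h8, bl_smul_left, bl_smul_right, hxx]
            ring
          rw [h5] at h4 ⊢
          exact refl_diff hJ h7 h4
        have hr2 : refl J (e K) *ᵥ (-e K) = e K := by
          rw [refl_mulVec hJ]
          have h8 : bl J (e K) (-e K) = -bl J (e K) (e K) := by
            have h8 : (-e K : Fin n → ℂ) = (-1 : ℂ) • e K := by rw [neg_one_smul]
            rw [h8, bl_smul_right]
            ring
          rw [h8]
          have h9 : 2 * -bl J (e K) (e K) / bl J (e K) (e K) = -2 := by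
            have := hee K
            field_simp
          rw [h9]
          funext i
          simp only [Pi.sub_apply, Pi.neg_apply, Pi.smul_apply, smul_eq_mul]
          ring
        refine ⟨s * (refl J (x + e K) * refl J (e K)), mul_mem hs (mul_mem
          (Submonoid.subset_closure ⟨_, h4, rfl⟩) (Submonoid.subset_closure ⟨_, hee K, rfl⟩)),
          refl J (e K) * (refl J (x + e K) * h), ?_,
          pr_mul (pr_refl hJ (hee K)) (pr_mul (pr_refl hJ h4) hP), ?_⟩
        · have e1 : s * (refl J (x + e K) * refl J (e K)) * (refl J (e K) *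
              (refl J (x + e K) * h)) = s * (refl J (x + e K) * (refl J (e K) * refl J (e K)) *
              refl J (x + e K)) * h := by
            simp only [mul_assoc]
          rw [e1, refl_refl hJ (hee K), mul_one, refl_refl hJ h4, mul_one]
          exact hgs
        · intro i hi
          rw [← mulVec_mulVec, ← mulVec_mulVec]
          by_cases hik : (i : ℕ) < k
          · rw [hfix i hik, refl_fix hJ (v := x + e K), refl_fix hJ (hei i hik)]
            rw [bl_add_left, hxi i hik, hei i hik, add_zero]
          · have : i = K := Fin.ext (by change (i : ℕ) = k; omega)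
            rw [this]
            change refl J (e K) *ᵥ refl J (x + e K) *ᵥ x = e K
            rw [hr1, hr2]
      · have hr1 : refl J (x - e K) *ᵥ x = e K := refl_diff hJ hxx h0
        refine ⟨s * refl J (x - e K), mul_mem hs (Submonoid.subset_closure ⟨_, h0, rfl⟩),
          refl J (x - e K) * h, ?_, pr_mul (pr_refl hJ h0) hP, ?_⟩
        · rw [mul_assoc, ← mul_assoc (refl J (x - e K)), refl_refl hJ h0, one_mul]
          exact hgs
        · intro i hi
          rw [← mulVec_mulVec]
          by_cases hik : (i : ℕ) < k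
          · rw [hfix i hik, refl_fix hJ]
            rw [bl_sub_left, hxi i hik, hei i hik, sub_zero]
          · have : i = K := Fin.ext (by change (i : ℕ) = k; omega)
            rw [this]
            exact hr1
  obtain ⟨s, hs, h, hgs, -, hfix⟩ := key _ le_rfl
  have h1 : h = 1 := by
    apply Matrix.toLin'.injective
    apply e.ext
    intro i
    rw [Matrix.toLin'_apply, Matrix.toLin'_apply, one_mulVec]
    exact hfix i i.2
  rw [hgs, h1, mul_one]
  exact hs

end Pool.Agent.Y985.OR
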