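import Pool.Agent.Y985.OR.Stm

/-!
# Project OR: rational functions with finitely many values on the special orthogonal group
-/

set_option autoImplicit false

namespace Pool.Agent.Y985.OR

open Matrix

namespace Conn

/-- the homogenised polynomial -/
noncomputable def hm (R : Polynomial ℂ) (m : ℕ) (a b : ℂ) : ℂ :=
  ∑ i ∈ Finset.range (m + 1), R.coeff i * a ^ i * b ^ (m - i)

lemma hm_succ (R : Polynomial ℂ) (k : ℕ) (h : R.coeff (k + 1) = 0) (a b : ℂ) :
    hm R (k + 1) a b = b * hm R k a b := by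
  unfold hm
  rw [Finset.sum_range_succ, h, zero_mul, zero_mul, add_zero, Finset.mul_sum]
  refine Finset.sum_congr rfl fun i hi => ?_
  have h1 : i ≤ k := Nat.lt_succ_iff.1 (Finset.mem_range.1 hi)
  have h2 : k + 1 - i = (k - i) + 1 := by omega
  rw [h2, pow_succ]
  ring

lemma hm_mul (R : Polynomial ℂ) (κ : ℂ) (k : ℕ) (h : R.coeff (k + 1) = 0) (a b : ℂ) :
    hm ((Polynomial.X - Polynomial.C κ) * R) (k + 1) a b = (a - κ * b) * hm R k a b := by
  have h1 : hm ((Polynomial.X - Polynomial.C κ) * R) (k + 1) a b =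
      a * hm R k a b - κ * hm R (k + 1) a b := by
    unfold hm
    rw [Finset.sum_range_succ', Finset.sum_range_succ' (fun i => R.coeff i * a ^ i * b ^ (k + 1 - i))]
    have h2 : ∀ i ∈ Finset.range (k + 1),
        ((Polynomial.X - Polynomial.C κ) * R).coeff (i + 1) * a ^ (i + 1) * b ^ (k + 1 - (i + 1)) =
        a * (R.coeff i * a ^ i * b ^ (k - i)) -
          κ * (R.coeff (i + 1) * a ^ (i + 1) * b ^ (k + 1 - (i + 1))) := by
      intro i _
      have h3 : k + 1 - (i + 1) = k - i := by omega
      rw [h3, sub_mul, Polynomial.coeff_sub, Polynomial.coeff_X_mul, Polynomial.coeff_C_mul]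
      ring
    rw [Finset.sum_congr rfl h2, Finset.sum_sub_distrib, ← Finset.mul_sum, ← Finset.mul_sum]
    have h4 : ((Polynomial.X - Polynomial.C κ) * R).coeff 0 = -(κ * R.coeff 0) := by
      rw [sub_mul, Polynomial.coeff_sub, Polynomial.coeff_C_mul, Polynomial.mul_coeff_zero]
      simp
    rw [h4]
    ring
  rw [h1, hm_succ R k h]
  ring

lemma pm_hm {n : ℕ} (R : Polynomial ℂ) (m : ℕ) (Φ Ψ : MvPolynomial (Fin n × Fin n) ℂ) (h : Mat n) :
    pm (∑ i ∈ Finset.range (m + 1), MvPolynomial.C (R.coeff i) * Φ ^ i * Ψ ^ (m - i)) h =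
      hm R m (pm Φ h) (pm Ψ h) := by
  unfold pm hm
  simp [map_sum]

lemma one_so {n : ℕ} (J : Mat n) : IsSO J 1 := by
  constructor
  · simp
  · simp

lemma main (hIRR : S_IRR) {n : ℕ} {J : Mat n} (hJ : Jᵀ = J) (hJ0 : J.det ≠ 0)
    (Φ Ψ : MvPolynomial (Fin n × Fin n) ℂ) : ∀ (m : ℕ) (R : Polynomial ℂ), R ≠ 0 →
    R.natDegree ≤ m → (∀ h, IsSO J h → hm R m (pm Φ h) (pm Ψ h) = 0) →
    ∀ h, IsSO J h → pm Φ h * pm Ψ 1 = pm Φ 1 * pm Ψ h := by
  intro m
  induction m with
  | zero =>
    intro R hR hd hz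
    exfalso
    have h1 := hz 1 (one_so J)
    simp only [hm, Finset.sum_range_one, pow_zero, mul_one, zero_add, Nat.sub_zero] at h1
    apply hR
    rw [Polynomial.eq_C_of_natDegree_le_zero hd, h1, Polynomial.C_0]
  | succ k ih =>
    intro R hR hd hz
    by_cases hc : R.coeff (k + 1) = 0
    · have hd' : R.natDegree ≤ k := by
        rcases Nat.lt_or_ge k R.natDegree with h1 | h1
        · exfalso
          have h2 : R.natDegree = k + 1 := by omega
          rw [← h2] at hc
          exact hR (Polynomial.leadingCoeff_eq_zero.1 hc)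
        · exact h1
      have h1 := hIRR n J hJ hJ0 Ψ
        (∑ i ∈ Finset.range (k + 1), MvPolynomial.C (R.coeff i) * Φ ^ i * Ψ ^ (k - i)) (by
          intro h hh
          rw [pm_hm, ← hm_succ R k hc]
          exact hz h hh)
      rcases h1 with h1 | h1
      · intro h hh
        rw [h1 h hh, h1 1 (one_so J), mul_zero, mul_zero]
      · refine ih R hR hd' fun h hh => ?_
        rw [← pm_hm]
        exact h1 h hh
    · have hdeg : R.degree ≠ 0 := by
        intro h0
        have h1 : R.natDegree = 0 := Polynomial.natDegree_eq_of_degree_eq_some h0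
        exact hc (Polynomial.coeff_eq_zero_of_natDegree_lt (by omega))
      obtain ⟨κ, hκ⟩ := IsAlgClosed.exists_root R hdeg
      obtain ⟨R', rfl⟩ := Polynomial.dvd_iff_isRoot.2 hκ
      have hR' : R' ≠ 0 := right_ne_zero_of_mul hR
      have hd' : R'.natDegree ≤ k := by
        rw [Polynomial.natDegree_mul (Polynomial.X_sub_C_ne_zero κ) hR',
          Polynomial.natDegree_X_sub_C] at hd
        omega
      have hc' : R'.coeff (k + 1) = 0 := Polynomial.coeff_eq_zero_of_natDegree_lt (by omega)
      have h1 := hIRR n J hJ hJ0 (Φ - MvPolynomial.C κ * Ψ)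
        (∑ i ∈ Finset.range (k + 1), MvPolynomial.C (R'.coeff i) * Φ ^ i * Ψ ^ (k - i)) (by
          intro h hh
          have h2 : pm (Φ - MvPolynomial.C κ * Ψ) h = pm Φ h - κ * pm Ψ h := by
            unfold pm
            simp
          rw [pm_hm, h2, ← hm_mul R' κ k hc']
          exact hz h hh)
      rcases h1 with h1 | h1
      · have h2 : ∀ h, IsSO J h → pm Φ h = κ * pm Ψ h := by
          intro h hh
          have h3 := h1 h hh
          unfold pm at h3 ⊢
          simp only [map_sub, map_mul, MvPolynomial.eval_C] at h3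
          exact sub_eq_zero.1 h3
        intro h hh
        rw [h2 h hh, h2 1 (one_so J)]
        ring
      · refine ih R' hR' hd' fun h hh => ?_
        rw [← pm_hm]
        exact h1 h hh

end Conn

theorem conn : S_IRR → S_CONN := by
  intro hIRR n J hJ hJ0 Φ Ψ R m hR hd hz
  exact Conn.main hIRR hJ hJ0 Φ Ψ m R hR hd hz

end Pool.Agent.Y985.OR
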