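import Pool.Agent.Y985.OR.Stm2
import Pool.Agent.Y985.OR.Conn

/-!
# Project OR: rational functions with finitely many values are constant (tuples)
-/

set_option autoImplicit false

namespace Pool.Agent.Y985.OR

open Matrix
open Pool.Agent.Y119.PLM (MT Ix pe)

namespace Connt

open Conn (hm hm_succ hm_mul)

lemma pe_hm {κ : Type} {n : κ → ℕ} (R : Polynomial ℂ) (m : ℕ) (Φ Ψ : MvPolynomial (Ix n) ℂ) (h : MT n) :
    pe (∑ i ∈ Finset.range (m + 1), MvPolynomial.C (R.coeff i) * Φ ^ i * Ψ ^ (m - i)) h =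
      hm R m (pe Φ h) (pe Ψ h) := by
  unfold pe hm
  simp [map_sum]

lemma one_so {κ : Type} {n : κ → ℕ} (J : MT n) : IsoS J 1 := by
  intro j
  constructor
  · simp
  · simp

lemma irr2 (hIRR : S_IRRT) {κ : Type} [Fintype κ] [DecidableEq κ] {n : κ → ℕ} {J : MT n}
    (hJ : SymSk J) (Φ Ψ : MvPolynomial (Ix n) ℂ) (h : ∀ h, IsoS J h → pe Φ h * pe Ψ h = 0) :
    (∀ h, IsoS J h → pe Φ h = 0) ∨ (∀ h, IsoS J h → pe Ψ h = 0) := by
  obtain ⟨i, hi⟩ := hIRR κ n J hJ Bool (fun b => if b then Φ else Ψ) (by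
    intro g hg
    rw [Fintype.prod_bool]
    simpa using h g hg)
  cases i
  · right
    simpa using hi
  · left
    simpa using hi

lemma main (hIRR : S_IRRT) {κ' : Type} [Fintype κ'] [DecidableEq κ'] {n : κ' → ℕ} {J : MT n}
    (hJ : SymSk J)
    (Φ Ψ : MvPolynomial (Ix n) ℂ) : ∀ (m : ℕ) (R : Polynomial ℂ), R ≠ 0 →
    R.natDegree ≤ m → (∀ h, IsoS J h → hm R m (pe Φ h) (pe Ψ h) = 0) →
    ∀ h, IsoS J h → pe Φ h * pe Ψ 1 = pe Φ 1 * pe Ψ h := by
  intro m
  induction m with
  | zero =>
    intro R hR hd hz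
    exfalso
    have h1 := hz 1 (one_so J)
    simp only [hm, Finset.sum_range_one, pow_zero, mul_one, zero_add, Nat.sub_zero] at h1
    apply hR
    rw [Polynomial.eq_C_of_natDegree_le_zero hd, h1, Polynomial.C_0]
  | succ k ih =>
    intro R hR hd hz
    by_cases hc : R.coeff (k + 1) = 0
    · have hd' : R.natDegree ≤ k := by
        rcases Nat.lt_or_ge k R.natDegree with h1 | h1
        · exfalso
          have h2 : R.natDegree = k + 1 := by omega
          rw [← h2] at hc
          exact hR (Polynomial.leadingCoeff_eq_zero.1 hc)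
        · exact h1
      have h1 := irr2 hIRR hJ Ψ
        (∑ i ∈ Finset.range (k + 1), MvPolynomial.C (R.coeff i) * Φ ^ i * Ψ ^ (k - i)) (by
          intro h hh
          rw [pe_hm, ← hm_succ R k hc]
          exact hz h hh)
      rcases h1 with h1 | h1
      · intro h hh
        rw [h1 h hh, h1 1 (one_so J), mul_zero, mul_zero]
      · refine ih R hR hd' fun h hh => ?_
        rw [← pe_hm]
        exact h1 h hh
    · have hdeg : R.degree ≠ 0 := by
        intro h0
        have h1 : R.natDegree = 0 := Polynomial.natDegree_eq_of_degree_eq_some h0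
        exact hc (Polynomial.coeff_eq_zero_of_natDegree_lt (by omega))
      obtain ⟨κ, hκ⟩ := IsAlgClosed.exists_root R hdeg
      obtain ⟨R', rfl⟩ := Polynomial.dvd_iff_isRoot.2 hκ
      have hR' : R' ≠ 0 := right_ne_zero_of_mul hR
      have hd' : R'.natDegree ≤ k := by
        rw [Polynomial.natDegree_mul (Polynomial.X_sub_C_ne_zero κ) hR',
          Polynomial.natDegree_X_sub_C] at hd
        omega
      have hc' : R'.coeff (k + 1) = 0 := Polynomial.coeff_eq_zero_of_natDegree_lt (by omega)
      have h1 := irr2 hIRR hJ (Φ - MvPolynomial.C κ * Ψ)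
        (∑ i ∈ Finset.range (k + 1), MvPolynomial.C (R'.coeff i) * Φ ^ i * Ψ ^ (k - i)) (by
          intro h hh
          have h2 : pe (Φ - MvPolynomial.C κ * Ψ) h = pe Φ h - κ * pe Ψ h := by
            unfold pe
            simp
          rw [pe_hm, h2, ← hm_mul R' κ k hc']
          exact hz h hh)
      rcases h1 with h1 | h1
      · have h2 : ∀ h, IsoS J h → pe Φ h = κ * pe Ψ h := by
          intro h hh
          have h3 := h1 h hh
          unfold pe at h3 ⊢
          simp only [map_sub, map_mul, MvPolynomial.eval_C] at h3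
          exact sub_eq_zero.1 h3
        intro h hh
        rw [h2 h hh, h2 1 (one_so J)]
        ring
      · refine ih R' hR' hd' fun h hh => ?_
        rw [← pe_hm]
        exact h1 h hh

end Connt

theorem connt : S_IRRT → S_CONNT := by
  intro hIRR κ _ _ n J hJ Φ Ψ R m hR hd hz
  exact Connt.main hIRR hJ Φ Ψ m R hR hd hz

end Pool.Agent.Y985.OR
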