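import Pool.Agent.Y985.OR.Stm2
import Pool.Agent.Y977.ORD.DenseCore

/-!
The criterion of density.
-/

set_option autoImplicit false

namespace Pool.Agent.Y985.OR

/-- OR-DENSE: the criterion of density, symmetric and skew forms -/
theorem dense : S_ALL → S_DENSE := by
  intro hALL X κ _ _ _ n J J' U Y hF hB
  exact Pool.Agent.Y977.ORD.dense_core hALL hF.pre hF.op hF.ne hF.an (fun j => (hF.ss j).2) hF.rel hB

end Pool.Agent.Y985.OR
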