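import Pool.Agent.Y985.OR.Stm

/-!
# Elimination of square roots (job OR-DESC)
-/

set_option autoImplicit false

namespace Pool.Agent.Y985.OR

namespace DescAux

open MvPolynomial

/-- the part of the monomials whose exponent of the variable `i` has the parity `a` -/
noncomputable def par {X : Type} {n : ℕ} (i : Fin n) (a : ℕ)
    (q : MvPolynomial (Fin n) (MvPolynomial X ℂ)) : MvPolynomial (Fin n) (MvPolynomial X ℂ) :=
  ∑ m ∈ q.support.filter (fun m => m i % 2 = a), monomial m (q.coeff m)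

lemma coeff_par {X : Type} {n : ℕ} (i : Fin n) (a : ℕ)
    (q : MvPolynomial (Fin n) (MvPolynomial X ℂ)) (m : Fin n →₀ ℕ) :
    (par i a q).coeff m = if m i % 2 = a then q.coeff m else 0 := by
  classical
  unfold par
  rw [coeff_sum]
  simp only [coeff_monomial]
  rw [Finset.sum_ite_eq']
  by_cases h1 : m i % 2 = a
  · by_cases h2 : q.coeff m = 0
    · rw [h2]
      split_ifs <;> rfl
    · rw [if_pos h1, if_pos (Finset.mem_filter.2 ⟨mem_support_iff.2 h2, h1⟩)]
  · have h2 : ¬ (m ∈ q.support.filter (fun m => m i % 2 = a)) :=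
      fun h => h1 (Finset.mem_filter.1 h).2
    rw [if_neg h1, if_neg h2]

lemma mem_par {X : Type} {n : ℕ} {i : Fin n} {a : ℕ}
    {q : MvPolynomial (Fin n) (MvPolynomial X ℂ)} {m : Fin n →₀ ℕ} (h : m ∈ (par i a q).support) :
    m i % 2 = a ∧ m ∈ q.support := by
  rw [mem_support_iff, coeff_par] at h
  by_cases h1 : m i % 2 = a
  · rw [if_pos h1] at h
    exact ⟨h1, mem_support_iff.2 h⟩
  · rw [if_neg h1] at h
    exact absurd rfl h

lemma par_add {X : Type} {n : ℕ} (i : Fin n) (q : MvPolynomial (Fin n) (MvPolynomial X ℂ)) :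
    par i 0 q + par i 1 q = q := by
  ext1 m
  rw [coeff_add, coeff_par, coeff_par]
  rcases Nat.mod_two_eq_zero_or_one (m i) with h | h
  · rw [if_pos h, if_neg (by omega), add_zero]
  · rw [if_neg (by omega), if_pos h, zero_add]

/-- change of the sign of one coordinate -/
noncomputable def fl {n : ℕ} (i : Fin n) (y : Fin n → ℂ) : Fin n → ℂ :=
  fun j => (if j = i then -1 else 1) * y j

lemma fl_sq {n : ℕ} (i j : Fin n) (y : Fin n → ℂ) : fl i y j ^ 2 = y j ^ 2 := by
  unfold fl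
  split_ifs <;> ring

lemma eval_fl {X : Type} {n : ℕ} (φ : MvPolynomial X ℂ →+* ℂ) (i : Fin n) (a : ℕ)
    (q : MvPolynomial (Fin n) (MvPolynomial X ℂ)) (y : Fin n → ℂ) :
    eval₂ φ (fl i y) (par i a q) = (-1) ^ a * eval₂ φ y (par i a q) := by
  rw [eval₂_eq', eval₂_eq', Finset.mul_sum]
  refine Finset.sum_congr rfl fun m hm => ?_
  have h1 := (mem_par hm).1
  have h2 : ∏ j, fl i y j ^ m j = (-1) ^ (m i) * ∏ j, y j ^ m j := by
    unfold fl
    simp only [mul_pow]
    rw [Finset.prod_mul_distrib]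
    congr 1
    rw [Finset.prod_eq_single i]
    · rw [if_pos rfl]
    · intro j _ hj
      rw [if_neg hj, one_pow]
    · intro h
      exact absurd (Finset.mem_univ i) h
  rw [h2, neg_one_pow_eq_pow_mod_two, h1]
  ring

/-- a relation splits into the relations of the parts -/
lemma split {X : Type} {n : ℕ} (φ : MvPolynomial X ℂ →+* ℂ) (i : Fin n)
    (p q : MvPolynomial (Fin n) (MvPolynomial X ℂ)) (y : Fin n → ℂ) (c : ℂ)
    (h1 : eval₂ φ y q * c = eval₂ φ y p)
    (h2 : eval₂ φ (fl i y) q * c = eval₂ φ (fl i y) p) :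
    eval₂ φ y (par i 0 q) * c = eval₂ φ y (par i 0 p) ∧
      eval₂ φ y (par i 1 q) * c = eval₂ φ y (par i 1 p) := by
  have e : ∀ (r : MvPolynomial (Fin n) (MvPolynomial X ℂ)) (z : Fin n → ℂ),
      eval₂ φ z r = eval₂ φ z (par i 0 r) + eval₂ φ z (par i 1 r) := by
    intro r z
    rw [← eval₂_add, par_add]
  rw [e q y, e p y] at h1
  rw [e q (fl i y), e p (fl i y), eval_fl, eval_fl, eval_fl, eval_fl, pow_zero, pow_one] at h2
  constructor
  · linear_combination (1 / 2) * h1 + (1 / 2) * h2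
  · linear_combination (1 / 2) * h1 - (1 / 2) * h2

/-- reduction to polynomials all of whose monomials have the same parities -/
lemma reduce {X : Type} {n : ℕ} (d : Fin n → MvPolynomial X ℂ) (V : Set (X → ℂ))
    (g : (X → ℂ) → ℂ) (x0 : X → ℂ) (y0 : Fin n → ℂ)
    (p q : MvPolynomial (Fin n) (MvPolynomial X ℂ)) (h0 : eval₂ (eval x0) y0 q ≠ 0)
    (hR : ∀ x ∈ V, ∀ y : Fin n → ℂ, (∀ i, y i ^ 2 * eval x (d i) = 1) →
      eval₂ (eval x) y q * g x = eval₂ (eval x) y p) (s : Finset (Fin n)) :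
    ∃ (τ : Fin n → ℕ) (p' q' : MvPolynomial (Fin n) (MvPolynomial X ℂ)),
      eval₂ (eval x0) y0 q' ≠ 0 ∧
      (∀ x ∈ V, ∀ y : Fin n → ℂ, (∀ i, y i ^ 2 * eval x (d i) = 1) →
        eval₂ (eval x) y q' * g x = eval₂ (eval x) y p') ∧
      ∀ i ∈ s, ∀ m, (m ∈ q'.support ∨ m ∈ p'.support) → m i % 2 = τ i := by
  classical
  induction s using Finset.induction_on with
  | empty => exact ⟨fun _ => 0, p, q, h0, hR, fun i hi => absurd hi (Finset.notMem_empty i)⟩
  | insert i s hi ih =>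
    obtain ⟨τ, p', q', k0, k1, k2⟩ := ih
    have hs : ∀ x ∈ V, ∀ y : Fin n → ℂ, (∀ i, y i ^ 2 * eval x (d i) = 1) →
        eval₂ (eval x) y (par i 0 q') * g x = eval₂ (eval x) y (par i 0 p') ∧
        eval₂ (eval x) y (par i 1 q') * g x = eval₂ (eval x) y (par i 1 p') := by
      intro x hx y hy
      refine split (eval x) i p' q' y (g x) (k1 x hx y hy) (k1 x hx (fl i y) ?_)
      intro j
      rw [fl_sq]
      exact hy j
    have hne : ∃ a : ℕ, (a = 0 ∨ a = 1) ∧ eval₂ (eval x0) y0 (par i a q') ≠ 0 := by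
      by_contra hcon
      push Not at hcon
      apply k0
      rw [← par_add i q', eval₂_add, hcon 0 (Or.inl rfl), hcon 1 (Or.inr rfl), add_zero]
    obtain ⟨a, ha, hav⟩ := hne
    refine ⟨Function.update τ i a, par i a p', par i a q', hav, ?_, ?_⟩
    · intro x hx y hy
      rcases ha with rfl | rfl
      · exact (hs x hx y hy).1
      · exact (hs x hx y hy).2
    · intro j hj m hm
      have hm1 : m i % 2 = a := by
        rcases hm with hm | hm
        · exact (mem_par hm).1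
        · exact (mem_par hm).1
      have hm2 : m ∈ q'.support ∨ m ∈ p'.support := by
        rcases hm with hm | hm
        · exact Or.inl (mem_par hm).2
        · exact Or.inr (mem_par hm).2
      by_cases hji : j = i
      · subst hji
        rw [Function.update_self]
        exact hm1
      · rw [Function.update_of_ne hji]
        exact k2 j (Finset.mem_of_mem_insert_of_ne hj hji) m hm2

/-- the polynomial without square roots -/
noncomputable def elim {X : Type} {n : ℕ} (d : Fin n → MvPolynomial X ℂ) (N : Fin n → ℕ)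
    (q : MvPolynomial (Fin n) (MvPolynomial X ℂ)) : MvPolynomial X ℂ :=
  ∑ m ∈ q.support, q.coeff m * ∏ i, d i ^ (N i - m i / 2)

lemma pow_id {D y : ℂ} (h : y ^ 2 * D = 1) (N m : ℕ) (hN : m / 2 ≤ N) :
    D ^ N * y ^ m = y ^ (m % 2) * D ^ (N - m / 2) := by
  have h1 : y ^ m = (y ^ 2) ^ (m / 2) * y ^ (m % 2) := by
    rw [← pow_mul, ← pow_add, Nat.div_add_mod]
  have h2 : D ^ N = D ^ (m / 2) * D ^ (N - m / 2) := by
    rw [← pow_add, Nat.add_sub_cancel' hN]
  have h3 : (y ^ 2) ^ (m / 2) * D ^ (m / 2) = 1 := by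
    rw [← mul_pow, h, one_pow]
  rw [h1, h2]
  linear_combination (y ^ (m % 2) * D ^ (N - m / 2)) * h3

lemma eval_elim {X : Type} {n : ℕ} (d : Fin n → MvPolynomial X ℂ) (N : Fin n → ℕ)
    (q : MvPolynomial (Fin n) (MvPolynomial X ℂ)) (τ : Fin n → ℕ)
    (hτ : ∀ i, ∀ m ∈ q.support, m i % 2 = τ i) (hN : ∀ i, ∀ m ∈ q.support, m i / 2 ≤ N i)
    (x : X → ℂ) (y : Fin n → ℂ) (hy : ∀ i, y i ^ 2 * eval x (d i) = 1) :
    (∏ i, eval x (d i) ^ N i) * eval₂ (eval x) y q = (∏ i, y i ^ τ i) * eval x (elim d N q) := by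
  unfold elim
  rw [eval₂_eq', map_sum, Finset.mul_sum, Finset.mul_sum]
  refine Finset.sum_congr rfl fun m hm => ?_
  rw [map_mul, map_prod]
  have h1 : (∏ i, eval x (d i) ^ N i) * ∏ i, y i ^ m i =
      (∏ i, y i ^ τ i) * ∏ i, eval x (d i ^ (N i - m i / 2)) := by
    rw [← Finset.prod_mul_distrib, ← Finset.prod_mul_distrib]
    refine Finset.prod_congr rfl fun i _ => ?_
    rw [map_pow, ← hτ i m hm]
    exact pow_id (hy i) (N i) (m i) (hN i m hm)
  calc (∏ i, eval x (d i) ^ N i) * (eval x (coeff m q) * ∏ i, y i ^ m i)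
      = eval x (coeff m q) * ((∏ i, eval x (d i) ^ N i) * ∏ i, y i ^ m i) := by ring
    _ = eval x (coeff m q) * ((∏ i, y i ^ τ i) * ∏ i, eval x (d i ^ (N i - m i / 2))) := by
        rw [h1]
    _ = _ := by ring

end DescAux

open DescAux in
theorem desc : S_DESC := by
  intro X _ n d V g p q ⟨x0, hx0, y0, hy0, h0⟩ _ hR
  obtain ⟨τ, p', q', k0, k1, k2⟩ := reduce d V g x0 y0 p q h0 hR Finset.univ
  set N : Fin n → ℕ := fun i => MvPolynomial.degreeOf i q' + MvPolynomial.degreeOf i p' with hN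
  have hNq : ∀ i, ∀ m ∈ q'.support, m i / 2 ≤ N i := by
    intro i m hm
    have h1 := MvPolynomial.monomial_le_degreeOf i hm
    have h2 : N i = MvPolynomial.degreeOf i q' + MvPolynomial.degreeOf i p' := rfl
    omega
  have hNp : ∀ i, ∀ m ∈ p'.support, m i / 2 ≤ N i := by
    intro i m hm
    have h1 := MvPolynomial.monomial_le_degreeOf i hm
    have h2 : N i = MvPolynomial.degreeOf i q' + MvPolynomial.degreeOf i p' := rfl
    omega
  have hτq : ∀ i, ∀ m ∈ q'.support, m i % 2 = τ i :=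
    fun i m hm => k2 i (Finset.mem_univ i) m (Or.inl hm)
  have hτp : ∀ i, ∀ m ∈ p'.support, m i % 2 = τ i :=
    fun i m hm => k2 i (Finset.mem_univ i) m (Or.inr hm)
  refine ⟨elim d N p', elim d N q', ?_, ?_⟩
  · intro hz
    have h1 := eval_elim d N q' τ hτq hNq x0 y0 hy0
    rw [hz, map_zero, mul_zero] at h1
    rcases mul_eq_zero.1 h1 with h2 | h2
    · obtain ⟨i, -, hi⟩ := Finset.prod_eq_zero_iff.1 h2
      have h3 : MvPolynomial.eval x0 (d i) = 0 := eq_zero_of_pow_eq_zero hi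
      have h4 := hy0 i
      rw [h3, mul_zero] at h4
      exact zero_ne_one h4
    · exact k0 h2
  · intro x hx
    obtain ⟨y, hy⟩ : ∃ y : Fin n → ℂ, ∀ i, y i ^ 2 * MvPolynomial.eval x (d i) = 1 := by
      rename_i hB
      exact hB x hx
    have h1 := eval_elim d N q' τ hτq hNq x y hy
    have h2 := eval_elim d N p' τ hτp hNp x y hy
    have h3 := k1 x hx y hy
    have hY : (∏ i, y i ^ τ i) ≠ 0 := by
      refine Finset.prod_ne_zero_iff.2 fun i _ => pow_ne_zero _ ?_
      intro h4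
      have h5 := hy i
      rw [h4, zero_pow two_ne_zero, zero_mul] at h5
      exact zero_ne_one h5
    apply mul_left_cancel₀ hY
    rw [← mul_assoc, ← h1, ← h2, mul_assoc, h3]

end Pool.Agent.Y985.OR
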