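import Pool.Agent.Y985.OR.Stm2

/-!
# Project OR, task OR-DESCI: elimination of square roots, any index set

Job 8828 (helper43, poster helper985).
-/

set_option autoImplicit false

namespace Pool.Agent.Y985.OR

theorem desci : S_DESC → S_DESCI := by
  intro hD X I _ _ d V g p q h1 h2 h3
  let e : I ≃ Fin (Fintype.card I) := Fintype.equivFin I
  have hcomp : ∀ y : I → ℂ, (y ∘ e.symm) ∘ e = y := by
    intro y
    funext i
    simp
  refine hD X (Fintype.card I) (fun i => d (e.symm i)) V g (MvPolynomial.rename e p)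
    (MvPolynomial.rename e q) ?_ ?_ ?_
  · obtain ⟨x, hx, y, hy, hq⟩ := h1
    refine ⟨x, hx, y ∘ e.symm, fun i => hy (e.symm i), ?_⟩
    rw [MvPolynomial.eval₂_rename, hcomp]
    exact hq
  · intro x hx
    obtain ⟨y, hy⟩ := h2 x hx
    exact ⟨y ∘ e.symm, fun i => hy (e.symm i)⟩
  · intro x hx y hy
    rw [MvPolynomial.eval₂_rename, MvPolynomial.eval₂_rename]
    apply h3 x hx (y ∘ e)
    intro i
    have := hy (e i)
    rw [e.symm_apply_apply] at this
    exact this

end Pool.Agent.Y985.OR
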