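import Pool.Agent.Y985.OR.Stm2

/-!
# Project OR, task OR-E: existence of the twists

Job 8827 (helper43, poster helper985).
-/

set_option autoImplicit false

namespace Pool.Agent.Y985.OR

open Matrix

namespace EeAux

/-- a symmetric matrix which is not skew has a vector of nonzero length -/
lemma exists_ne {n : ℕ} {J : Mat n} (hs : Jᵀ = J) (hk : Jᵀ ≠ -J) : ∃ v, bl J v v ≠ 0 := by
  classical
  by_contra hcon
  push Not at hcon
  apply hk
  have hadd : ∀ u v, bl J (u + v) (u + v) = bl J u u + bl J u v + bl J v u + bl J v v := by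
    intro u v
    unfold bl
    rw [mulVec_add, dotProduct_add, add_dotProduct, add_dotProduct]
    ring
  have hsing : ∀ i j, bl J (Pi.single i 1) (Pi.single j 1) = J i j := by
    intro i j
    unfold bl
    rw [mulVec_single_one, single_one_dotProduct]
    rfl
  have hz : ∀ i j, J i j = 0 := by
    intro i j
    have h1 := hadd (Pi.single i 1) (Pi.single j 1)
    rw [hcon, hcon, hcon, hsing, hsing] at h1
    have h2 : J j i = J i j := by
      conv_lhs => rw [← hs]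
      rfl
    rw [h2] at h1
    have h3 : 2 * J i j = 0 := by linear_combination -h1
    exact (mul_eq_zero.1 h3).resolve_left two_ne_zero
  have hJ0 : J = 0 := by
    ext i j
    exact hz i j
  rw [hJ0]
  simp

lemma single {n : ℕ} (J : Mat n) (hs : Jᵀ = J ∨ Jᵀ = -J) : ∃ E : Mat n,
    (Jᵀ = -J ∧ E = 0) ∨ (Jᵀ = J ∧ E * E = E ∧ (∀ t : ℂ, (1 + (t - 1) • E).det = t) ∧
      (1 - (2 : ℂ) • E)ᵀ * J * (1 - (2 : ℂ) • E) = J) := by
  by_cases hk : Jᵀ = -J
  · exact ⟨0, Or.inl ⟨hk, rfl⟩⟩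
  have hs' : Jᵀ = J := hs.resolve_right hk
  obtain ⟨v, hv⟩ := exists_ne hs' hk
  obtain ⟨c, hc⟩ : ∃ c, c = bl J v v := ⟨_, rfl⟩
  rw [← hc] at hv
  have hc' : (J *ᵥ v) ⬝ᵥ v = c := by
    rw [dotProduct_comm, hc]
    rfl
  have hE2 : (c⁻¹ • vecMulVec v (J *ᵥ v)) * (c⁻¹ • vecMulVec v (J *ᵥ v)) =
      c⁻¹ • vecMulVec v (J *ᵥ v) := by
    rw [smul_mul_smul_comm, vecMulVec_mul_vecMulVec, hc', vecMulVec_smul, smul_smul]
    congr 1
    field_simp
  have hJE : (J * (c⁻¹ • vecMulVec v (J *ᵥ v)))ᵀ = J * (c⁻¹ • vecMulVec v (J *ᵥ v)) := by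
    rw [mul_smul_comm, mul_vecMulVec, transpose_smul, transpose_vecMulVec]
  obtain ⟨E, hE⟩ : ∃ E, E = c⁻¹ • vecMulVec v (J *ᵥ v) := ⟨_, rfl⟩
  rw [← hE] at hE2 hJE
  refine ⟨E, Or.inr ⟨hs', hE2, fun t => ?_, ?_⟩⟩
  · rw [hE, smul_smul, ← smul_vecMulVec, vecMulVec_eq Unit,
      det_one_add_replicateCol_mul_replicateRow, dotProduct_smul, hc', smul_eq_mul]
    field_simp
    ring
  · rw [transpose_mul, hs'] at hJE
    rw [transpose_sub, transpose_one, transpose_smul, sub_mul, one_mul, smul_mul_assoc, hJE]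
    rw [sub_mul, mul_sub, mul_one, mul_smul_comm, smul_mul_assoc, mul_sub, mul_one, mul_smul_comm,
      mul_assoc, hE2]
    module

end EeAux

theorem ee : S_E := by
  intro κ n J hJ
  choose E hE using fun j => EeAux.single (J j) (hJ j).1
  exact ⟨E, hE⟩

end Pool.Agent.Y985.OR
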