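import Pool.Agent.Y985.OR.Stm

/-!
# OR-EX: existence of the vectors for the step
-/

set_option autoImplicit false

namespace Pool.Agent.Y985.OR

open Matrix

namespace Ex

variable {n : ℕ} {J : Mat n}

lemma bl_comm (hJ : Jᵀ = J) (u v : Fin n → ℂ) : bl J u v = bl J v u := by
  unfold bl
  rw [dotProduct_mulVec, ← hJ, vecMul_transpose, hJ, dotProduct_comm]

lemma bl_add_left (u u' v : Fin n → ℂ) : bl J (u + u') v = bl J u v + bl J u' v := by
  unfold bl
  rw [add_dotProduct]

lemma bl_smul_left (c : ℂ) (u v : Fin n → ℂ) : bl J (c • u) v = c * bl J u v := by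
  unfold bl
  rw [smul_dotProduct, smul_eq_mul]

lemma bl_add_right (u v v' : Fin n → ℂ) : bl J u (v + v') = bl J u v + bl J u v' := by
  unfold bl
  rw [mulVec_add, dotProduct_add]

lemma bl_smul_right (c : ℂ) (u v : Fin n → ℂ) : bl J u (c • v) = c * bl J u v := by
  unfold bl
  rw [mulVec_smul, dotProduct_smul, smul_eq_mul]

lemma refl_mulVec (v x : Fin n → ℂ) :
    refl J v *ᵥ x = x - ((2 / bl J v v) * bl J x v) • v := by
  have h : vecMulVec v (J *ᵥ v) *ᵥ x = bl J x v • v := by
    unfold bl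
    ext i
    simp only [mulVec, vecMulVec_apply, dotProduct, Pi.smul_apply, smul_eq_mul]
    rw [Finset.sum_mul]
    refine Finset.sum_congr rfl fun j _ => ?_
    ring
  unfold refl
  rw [sub_mulVec, one_mulVec, smul_mulVec, h, smul_smul]

/-- a reflection that does not preserve the subspace -/
lemma exists_refl (S : Submonoid (Mat n))
    (hS : ∀ W : Submodule ℂ (Fin n → ℂ),
      (∀ v, bl J v v ≠ 0 → refl J v ∈ S → ∀ x ∈ W, refl J v *ᵥ x ∈ W) → W = ⊥ ∨ W = ⊤)
    (V : Submodule ℂ (Fin n → ℂ)) (h0 : V ≠ ⊥) (h1 : V ≠ ⊤) :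
    ∃ v x, bl J v v ≠ 0 ∧ refl J v ∈ S ∧ x ∈ V ∧ bl J x v ≠ 0 ∧ v ∉ V := by
  by_contra hcon
  have h2 : ∀ v, bl J v v ≠ 0 → refl J v ∈ S → ∀ x ∈ V, refl J v *ᵥ x ∈ V := by
    intro v hv hvS x hx
    rw [refl_mulVec]
    by_cases h3 : bl J x v = 0
    · rw [h3, mul_zero, zero_smul, sub_zero]
      exact hx
    · have h4 : v ∈ V := by
        by_contra h5
        exact hcon ⟨v, x, hv, hvS, hx, h3, h5⟩
      exact V.sub_mem hx (V.smul_mem _ h4)
  rcases hS V h2 with h | h
  · exact h0 h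
  · exact h1 h

/-- the radical -/
def rad (J : Mat n) (W : Submodule ℂ (Fin n → ℂ)) : Submodule ℂ (Fin n → ℂ) where
  carrier := {x | x ∈ W ∧ ∀ w ∈ W, bl J x w = 0}
  add_mem' := by
    rintro a b ⟨ha, ha'⟩ ⟨hb, hb'⟩
    refine ⟨W.add_mem ha hb, fun w hw => ?_⟩
    rw [bl_add_left, ha' w hw, hb' w hw, add_zero]
  zero_mem' := ⟨W.zero_mem, fun w _ => by unfold bl; rw [zero_dotProduct]⟩
  smul_mem' := by
    rintro c x ⟨hx, hx'⟩
    refine ⟨W.smul_mem c hx, fun w hw => ?_⟩
    rw [bl_smul_left, hx' w hw, mul_zero]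

end Ex

open Ex in
theorem ex : S_EX := by
  intro n J hJ _ S hS W hW hdim hc
  obtain ⟨c, hcW, hcc⟩ := hc
  by_cases hrad : rad J W = ⊥
  · -- the form is nondegenerate on `W`
    have hW0 : W ≠ ⊥ := by
      rintro rfl
      rw [finrank_bot] at hdim
      omega
    obtain ⟨v, x, hv, hvS, hx, hxv, hvW⟩ := exists_refl S hS W hW0 hW
    obtain ⟨e0, he0⟩ : ∃ e0, e0 = (bl J x v)⁻¹ • x := ⟨_, rfl⟩
    have he0W : e0 ∈ W := by rw [he0]; exact W.smul_mem _ hx
    have he0v : bl J e0 v = 1 := by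
      rw [he0, bl_smul_left, inv_mul_cancel₀ hxv]
    -- the component orthogonal to `v`
    have hcomp : ∀ w ∈ W, w - bl J w v • e0 ∈ W ∧ bl J (w - bl J w v • e0) v = 0 := by
      intro w hw
      refine ⟨W.sub_mem hw (W.smul_mem _ he0W), ?_⟩
      rw [sub_eq_add_neg, ← neg_smul, bl_add_left, bl_smul_left, he0v]
      ring
    have hne : ∃ e1 ∈ W, e1 ≠ 0 ∧ bl J e1 v = 0 := by
      by_contra hcon
      have hle : W ≤ Submodule.span ℂ {e0} := by
        intro w hw
        have h1 := hcomp w hw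
        have h2 : w - bl J w v • e0 = 0 := by
          by_contra h3
          exact hcon ⟨_, h1.1, h3, h1.2⟩
        rw [Submodule.mem_span_singleton]
        exact ⟨bl J w v, (sub_eq_zero.1 h2).symm⟩
      have h3 := Submodule.finrank_mono hle
      have h4 : Module.finrank ℂ (Submodule.span ℂ ({e0} : Set (Fin n → ℂ))) ≤ 1 := by
        have h5 := finrank_span_le_card (R := ℂ) ({e0} : Set (Fin n → ℂ))
        simpa using h5
      omega
    set r : ℂ := 1 / (2 * bl J v v) with hr
    have hr0 : r ≠ 0 := by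
      rw [hr]
      exact one_div_ne_zero (mul_ne_zero two_ne_zero hv)
    have hfin : ∀ e1 ∈ W, bl J e1 v = 0 → ∀ t : ℂ,
        bl J e0 e0 + 2 * t * bl J e0 e1 + t ^ 2 * bl J e1 e1 = r →
        ∃ v e, v ∉ W ∧ bl J v v ≠ 0 ∧ refl J v ∈ S ∧ e ∈ W ∧ bl J e e ≠ 0 ∧
          (bl J e v) ^ 2 = 2 * bl J e e * bl J v v := by
      intro e1 he1 he1v t ht
      have h1 : bl J (e0 + t • e1) (e0 + t • e1) = r := by
        rw [← ht]
        simp only [bl_add_left, bl_add_right, bl_smul_left, bl_smul_right]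
        rw [bl_comm hJ e1 e0]
        ring
      refine ⟨v, e0 + t • e1, hvW, hv, hvS, W.add_mem he0W (W.smul_mem _ he1), ?_, ?_⟩
      · rw [h1]; exact hr0
      · rw [h1, bl_add_left, bl_smul_left, he1v, he0v, hr]
        field_simp
        ring
    by_cases hiso : ∃ e1 ∈ W, bl J e1 v = 0 ∧ bl J e1 e1 ≠ 0
    · obtain ⟨e1, he1, he1v, he11⟩ := hiso
      obtain ⟨s, hs⟩ := IsAlgClosed.exists_pow_nat_eq
        (bl J e0 e1 ^ 2 - bl J e1 e1 * (bl J e0 e0 - r)) (n := 2) two_pos
      refine hfin e1 he1 he1v ((s - bl J e0 e1) / bl J e1 e1) ?_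
      field_simp
      linear_combination hs
    · obtain ⟨e1, he1, he10, he1v⟩ := hne
      have hz : ∀ w ∈ W, bl J w v = 0 → bl J w w = 0 := by
        intro w hw hwv
        by_contra h
        exact hiso ⟨w, hw, hwv, h⟩
      have h01 : bl J e0 e1 ≠ 0 := by
        intro h01
        apply he10
        have : e1 ∈ rad J W := by
          refine ⟨he1, fun w hw => ?_⟩
          obtain ⟨h1, h2⟩ := hcomp w hw
          set w' := w - bl J w v • e0 with hw'
          have h3 : w = w' + bl J w v • e0 := by rw [hw']; abel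
          have h4 : bl J (e1 + w') (e1 + w') = 0 := by
            apply hz _ (W.add_mem he1 h1)
            rw [bl_add_left, he1v, h2, add_zero]
          have h5 : bl J e1 w' = 0 := by
            simp only [bl_add_left, bl_add_right] at h4
            rw [hz e1 he1 he1v, hz w' h1 h2, bl_comm hJ w' e1] at h4
            have h6 : 2 * bl J e1 w' = 0 := by linear_combination h4
            exact (mul_eq_zero.1 h6).resolve_left two_ne_zero
          rw [h3, bl_add_right, bl_smul_right, h5, bl_comm hJ e1 e0, h01]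
          ring
        rw [hrad, Submodule.mem_bot] at this
        exact this
      refine hfin e1 he1 he1v ((r - bl J e0 e0) / (2 * bl J e0 e1)) ?_
      rw [hz e1 he1 he1v]
      field_simp
      ring
  · -- the radical is not zero
    have hradtop : rad J W ≠ ⊤ := by
      intro h
      have h1 : c ∈ rad J W := by rw [h]; exact Submodule.mem_top
      exact hcc (h1.2 c hcW)
    obtain ⟨v, e1, hv, hvS, he1, he1v, -⟩ := exists_refl S hS (rad J W) hrad hradtop
    have hvW : v ∉ W := fun h => he1v (he1.2 v h)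
    obtain ⟨δ, hδ⟩ := IsAlgClosed.exists_pow_nat_eq (2 * bl J c c * bl J v v) (n := 2) two_pos
    have h1 : bl J (c + ((δ - bl J c v) / bl J e1 v) • e1)
        (c + ((δ - bl J c v) / bl J e1 v) • e1) = bl J c c := by
      simp only [bl_add_left, bl_add_right, bl_smul_left, bl_smul_right]
      rw [bl_comm hJ c e1, he1.2 c hcW, he1.2 e1 he1.1]
      ring
    refine ⟨v, c + ((δ - bl J c v) / bl J e1 v) • e1, hvW, hv, hvS,
      W.add_mem hcW (W.smul_mem _ he1.1), ?_, ?_⟩
    · rw [h1]; exact hcc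
    · rw [h1, ← hδ, bl_add_left, bl_smul_left, div_mul_cancel₀ _ he1v]
      ring

end Pool.Agent.Y985.OR
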