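import Pool.Agent.Y985.OR.Stm2

/-!
# The statements with the weaker hypothesis: the closure of the monodromy contains the special orthogonal groups
-/

set_option autoImplicit false

namespace Pool.Agent.Y985.OR

open Matrix NumberField Filter
open Pool.Agent.Y119.PLM (MT Ix IsMon vt GalT pe DenseMon Big)
open Pool.Agent.Y890.MV (RegularM InnerM)
open Pool.Agent.Y890.SP (Qbar)
open Pool.Agent.Y124 (Cov)

/-- the Zariski closure of the monodromy contains the product of the special orthogonal (symplectic) groups: all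
polynomials which vanish on the monodromy vanish at all tuples of isometries of determinant one -/
def DenseS {X κ : Type} [Fintype X] {n : κ → ℕ} (U : Set (X → ℂ)) (Y : (X → ℂ) → MT n) (J : MT n) : Prop :=
  ∀ p : MvPolynomial (Ix n) ℂ, (∀ g, IsMon U Y g → pe p g = 0) → ∀ g, IsoS J g → pe p g = 0

/-- S_REG with invariance under `IsoS` only -/
def S_REG3 : Prop := ∀ (X κ : Type) [Fintype X] [Fintype κ] [DecidableEq κ] (n : κ → ℕ) (J : MT n)
  (J' : (j : κ) → Matrix (Fin (n j)) (Fin (n j)) (MvPolynomial X ℂ)) (U : Set (X → ℂ)) (Y : (X → ℂ) → MT n),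
  Fam J J' U Y → (∀ j, Sec (J j) (J' j)) → (∀ g, IsoS J g → g ∈ GalT U Y) → ∀ E, EOK J E →
  RegularM U (fe E Y)

/-- S_EXC with invariance under `IsoS` only -/
def S_EXC3 : Prop := ∀ (X κ : Type) [Fintype X] [Fintype κ] [DecidableEq κ] (n : κ → ℕ) (J : MT n)
  (J' : (j : κ) → Matrix (Fin (n j)) (Fin (n j)) (MvPolynomial X ℂ)) (U : Set (X → ℂ)) (Y : (X → ℂ) → MT n),
  Fam J J' U Y → (∀ g, IsoS J g → g ∈ GalT U Y) → ∀ E, EOK J E →
  ∀ part : Finset κ → (MvPolynomial (Ix n ⊕ κ) ℂ →ₗ[ℂ] MvPolynomial (Ix n ⊕ κ) ℂ),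
    PartOK part →
  ∀ (K : Type) [Field K] [NumberField K] (io : K →+* ℂ) (k : ℕ) (ξ : Fin k → ℂ) (T : ℝ), 0 < k → 1 ≤ T →
    ExcO J J' U Y K io k ξ T ⊆ ⋃ Z : Finset (κ → ℤˣ),
      ExcB U (fe E Y) (InnerM U k) K io (Bsys E part k ξ Z) (k * Fintype.card (κ → ℤˣ)) T

/-- S_FIN with the hypothesis `DenseS` -/
def S_FIN3 : Prop := ∀ (X κ : Type) [Fintype X] [DecidableEq X] [Nonempty X] [Fintype κ] [DecidableEq κ]
  (n : κ → ℕ) (J : MT n) (J' : (j : κ) → Matrix (Fin (n j)) (Fin (n j)) (MvPolynomial X ℂ)) (U : Set (X → ℂ))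
  (Y : (X → ℂ) → MT n), Fam J J' U Y → DenseS U Y J → FewO J J' U Y

end Pool.Agent.Y985.OR
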