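import Pool.Agent.Y985.OR.Tau
import Pool.Agent.Y985.OR.Stm3

/-!
# The exceptional points lie in exceptional sets of systems
-/

set_option autoImplicit false

namespace Pool.Agent.Y985.OR.ExcAux

open Matrix NumberField Filter
open Pool.Agent.Y119.PLM (MT Ix IsMon vt GalT pe DenseMon Big sum_expM tl tr pe_tl pe_tr IsRelT)
open Pool.Agent.Y890.MV (RegularM InnerM innerM_sub)
open Pool.Agent.Y890.SP (Qbar)
open Tau

variable {κ : Type} [Fintype κ] [DecidableEq κ] {n : κ → ℕ} {J E : MT n}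

/-- the tuple of matrices attached to a point -/
def zm (z : Ix n → ℂ) : MT n := fun j => Matrix.of fun a b => z ⟨j, a, b⟩

/-- signs -/
noncomputable def sg (g : κ → ℤˣ) (w : κ → ℂ) : κ → ℂ := fun j => ((g j : ℤ) : ℂ) * w j

lemma eval_mono {k : ℕ} (e : Ix n → Fin (k + 1)) (g : κ → ℤˣ) (z : Ix n → ℂ) (w : κ → ℂ) :
    MvPolynomial.eval (Sum.elim z w) (mono E e g) =
      ∏ i : Ix n, ((zm z * tau E (sg g w)) i.1 i.2.1 i.2.2) ^ (e i : ℕ) := by
  unfold mono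
  rw [map_prod]
  refine Finset.prod_congr rfl fun i _ => ?_
  rw [map_pow]
  congr 1
  rw [map_sum, Pi.mul_apply, Matrix.mul_apply]
  refine Finset.sum_congr rfl fun c _ => ?_
  rw [map_mul, MvPolynomial.eval_X, map_add, map_mul, map_sub, map_mul, MvPolynomial.eval_X, map_one,
    MvPolynomial.eval_C, MvPolynomial.eval_C, MvPolynomial.eval_C]
  unfold tau sg
  rw [Matrix.add_apply, Matrix.smul_apply, smul_eq_mul]
  rfl

lemma sum_q {K : Type} [Field K] (io : K →+* ℂ) {k : ℕ} (ξ : Fin k → ℂ) {P : MvPolynomial (Ix n) ℂ}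
    (hdeg : ∀ y, P.degreeOf y ≤ k) (c : (Ix n → Fin (k + 1)) × Fin k → K)
    (hc : ∀ e, P.coeff (Finsupp.equivFunOnFinite.symm fun y => (e y : ℕ)) = ∑ i, ξ i * io (c (e, i)))
    (g : κ → ℤˣ) (z : Ix n → ℂ) (w : κ → ℂ) :
    ∑ q, io (c q) * ξ q.2 * MvPolynomial.eval (Sum.elim z w) (mono E q.1 g) = pe P (zm z * tau E (sg g w)) := by
  have h1 := sum_expM hdeg (fun i : Ix n => (zm z * tau E (sg g w)) i.1 i.2.1 i.2.2)
  unfold pe
  rw [← h1, Fintype.sum_prod_type]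
  refine Finset.sum_congr rfl fun e _ => ?_
  rw [hc, Finset.sum_mul]
  refine Finset.sum_congr rfl fun i _ => ?_
  rw [eval_mono]
  ring

/-- the product of the translates -/
noncomputable def FF {K : Type} [Field K] (E : MT n) (io : K →+* ℂ) {k : ℕ} (ξ : Fin k → ℂ)
    (c : (Ix n → Fin (k + 1)) × Fin k → K) (ε : (κ → ℤˣ) → (κ → ℤˣ)) : MvPolynomial (Ix n ⊕ κ) ℂ :=
  ∑ p : (κ → ℤˣ) → (Ix n → Fin (k + 1)) × Fin k, io (∏ g, c (p g)) •
    ((∏ g, ξ (p g).2) • ∏ g, mono E (p g).1 (ε g))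

lemma eval_FF {K : Type} [Field K] (io : K →+* ℂ) {k : ℕ} (ξ : Fin k → ℂ) {P : MvPolynomial (Ix n) ℂ}
    (hdeg : ∀ y, P.degreeOf y ≤ k) (c : (Ix n → Fin (k + 1)) × Fin k → K)
    (hc : ∀ e, P.coeff (Finsupp.equivFunOnFinite.symm fun y => (e y : ℕ)) = ∑ i, ξ i * io (c (e, i)))
    (ε : (κ → ℤˣ) → (κ → ℤˣ)) (z : Ix n → ℂ) (w : κ → ℂ) :
    MvPolynomial.eval (Sum.elim z w) (FF E io ξ c ε) = ∏ g, pe P (zm z * tau E (sg (ε g) w)) := by
  have h1 : ∏ g, pe P (zm z * tau E (sg (ε g) w)) = ∏ g, ∑ q, io (c q) * ξ q.2 *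
      MvPolynomial.eval (Sum.elim z w) (mono E q.1 (ε g)) :=
    Finset.prod_congr rfl fun g _ => (sum_q io ξ hdeg c hc (ε g) z w).symm
  rw [h1, Finset.prod_univ_sum, Fintype.piFinset_univ]
  unfold FF
  rw [map_sum]
  refine Finset.sum_congr rfl fun p _ => ?_
  rw [MvPolynomial.smul_eval, MvPolynomial.smul_eval, map_prod, map_prod, ← Finset.prod_mul_distrib,
    ← Finset.prod_mul_distrib]
  refine Finset.prod_congr rfl fun g _ => ?_
  ring

/-- combinatorics of the signs -/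
lemma comb {Γ : Type} [CommGroup Γ] [Fintype Γ] [DecidableEq Γ] (Z : Finset Γ) (Z' : Set Γ) (h1 : (1 : Γ) ∈ Z)
    (h2 : ∀ g ∈ Z', g ∈ Z) (h : ∀ ε : Γ → Γ, (∀ g, g⁻¹ * ε g ∈ Z) → ∃ g, ε g ∈ Z') : (1 : Γ) ∈ Z' := by
  classical
  have h3 : ∃ g : Γ, ∀ x, g⁻¹ * x ∈ Z → x ∈ Z' := by
    by_contra hcon
    push Not at hcon
    choose ε hε hε' using hcon
    obtain ⟨g, hg⟩ := h ε hε
    exact hε' g hg
  obtain ⟨g, hg⟩ := h3
  have h4 : Z.image (fun y => g * y) ⊆ Z := by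
    intro x hx
    obtain ⟨y, hy, rfl⟩ := Finset.mem_image.1 hx
    exact h2 _ (hg _ (by rwa [inv_mul_cancel_left]))
  have h5 : Z.image (fun y => g * y) = Z :=
    Finset.eq_of_subset_of_card_le h4 (by rw [Finset.card_image_of_injective _ (mul_right_injective g)])
  have h6 : (1 : Γ) ∈ Z.image (fun y => g * y) := by rw [h5]; exact h1
  obtain ⟨y, hy, hy'⟩ := Finset.mem_image.1 h6
  rw [← hy']
  exact hg _ (by rwa [inv_mul_cancel_left])

lemma Bsys_pos {k : ℕ} (ξ : Fin k → ℂ)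
    (part : Finset κ → (MvPolynomial (Ix n ⊕ κ) ℂ →ₗ[ℂ] MvPolynomial (Ix n ⊕ κ) ℂ)) (Z : Finset (κ → ℤˣ))
    (ρ : ((κ → ℤˣ) → (κ → ℤˣ)) × Finset κ) (hρ : ∀ g, g⁻¹ * ρ.1 g ∈ Z)
    (p : (κ → ℤˣ) → (Ix n → Fin (k + 1)) × Fin k) :
    Bsys E part k ξ Z ρ p = (∏ g, ξ (p g).2) • part ρ.2 (∏ g, mono E (p g).1 (ρ.1 g)) := by
  rename_i _ inst
  obtain rfl : inst = fun a b => Classical.propDecidable (a = b) := Subsingleton.elim _ _
  rw [Bsys, if_pos hρ]

lemma sum_B {K : Type} [Field K] (io : K →+* ℂ) {k : ℕ} (ξ : Fin k → ℂ)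
    (part : Finset κ → (MvPolynomial (Ix n ⊕ κ) ℂ →ₗ[ℂ] MvPolynomial (Ix n ⊕ κ) ℂ)) (Z : Finset (κ → ℤˣ))
    (ρ : ((κ → ℤˣ) → (κ → ℤˣ)) × Finset κ) (hρ : ∀ g, g⁻¹ * ρ.1 g ∈ Z)
    (c : (Ix n → Fin (k + 1)) × Fin k → K) (v : Ix n ⊕ κ → ℂ) :
    ∑ p : (κ → ℤˣ) → (Ix n → Fin (k + 1)) × Fin k, io (∏ g, c (p g)) *
      MvPolynomial.eval v (Bsys E part k ξ Z ρ p) = MvPolynomial.eval v (part ρ.2 (FF E io ξ c ρ.1)) := by
  unfold FF
  rw [map_sum, map_sum]
  refine Finset.sum_congr rfl fun p _ => ?_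
  rw [LinearMap.map_smul, LinearMap.map_smul, Bsys_pos ξ part Z ρ hρ]
  simp only [MvPolynomial.smul_eval]

lemma zm_hat (A : MT n) : zm (fun i : Ix n => A i.1 i.2.1 i.2.2) = A := rfl

end Pool.Agent.Y985.OR.ExcAux

namespace Pool.Agent.Y985.OR

open Matrix NumberField Filter
open Pool.Agent.Y119.PLM (MT Ix IsMon vt GalT pe DenseMon Big sum_expM tl tr pe_tl pe_tr IsRelT)
open Pool.Agent.Y890.MV (RegularM InnerM innerM_sub)
open Pool.Agent.Y890.SP (Qbar)
open Tau ExcAux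

theorem exc3 (hIrr : S_IRRT) (hDet : S_DETK) : S_EXC3 := by
  intro X κ _ _ _ n J J' U Y hF hsp E hE part hpart K _ _ io k ξ T hk hT s hs
  classical
  obtain ⟨hs, hin, P, hdeg, hcoef, hzero, A, hA, hdetA, hneA⟩ := hs
  choose c hc hc' using hcoef
  set x0 : X → ℂ := fun i => io (s i) with hx0
  have hxU : x0 ∈ U := innerM_sub U hk hin
  have hrel := hF.rel x0 hxU
  have hJ : ∀ j, (J j).det ≠ 0 := fun j => (hF.ss j).2
  have hdY : ∀ j, (Y x0 j).det ≠ 0 := by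
    intro j h0
    have h1 := det_rel (hrel j)
    rw [h0] at h1
    apply hJ j
    rw [← h1]
    ring
  set w : κ → ℂ := fun j => ((Y x0 j).det)⁻¹ with hwd
  have hw : ∀ j, w j ≠ 0 := fun j => inv_ne_zero (hdY j)
  set co : (Ix n → Fin (k + 1)) × Fin k → 𝓞 K :=
    fun q => c (Finsupp.equivFunOnFinite.symm fun y => (q.1 y : ℕ)) q.2 with hco
  have hcq : ∀ e : Ix n → Fin (k + 1), P.coeff (Finsupp.equivFunOnFinite.symm fun y => (e y : ℕ)) =
      ∑ i, ξ i * io ((co (e, i) : 𝓞 K) : K) := fun e => hc' _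
  have hkey : ∀ A : MT n, (∀ j, (A j).det = (Y x0 j).det) → ∀ g : κ → ℤˣ,
      hat E A * tau E (sg g w) = A * tau E (fun j => ((g j : ℤ) : ℂ)) := by
    intro A hA g
    unfold hat
    rw [mul_assoc, tau_mul hE]
    congr 2
    funext j
    simp only [sg, hwd, hA j]
    have := hdY j
    field_simp
  have hF1 : ∀ (ε : (κ → ℤˣ) → (κ → ℤˣ)) (z : Ix n → ℂ) (w' : κ → ℂ), MvPolynomial.eval (Sum.elim z w')
      (FF E io ξ (fun q => ((co q : 𝓞 K) : K)) ε) = ∏ g, pe P (zm z * tau E (sg (ε g) w')) :=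
    fun ε z w' => eval_FF io ξ hdeg _ hcq ε z w'
  have hfe0 := fe_eq (E := E) hJ hrel
  have hD0 : ∀ j, MvPolynomial.eval x0 (MvPolynomial.C ((J j).det)⁻¹ * (J' j).det) = w j ^ 2 :=
    fun j => (inv_det (hJ j) (hrel j)).symm
  have hprodK : ∀ p : (κ → ℤˣ) → (Ix n → Fin (k + 1)) × Fin k,
      ((∏ g, co (p g) : 𝓞 K) : K) = ∏ g, ((co (p g) : 𝓞 K) : K) := by
    intro p
    exact map_prod (algebraMap (𝓞 K) K) _ _
  set Z : Finset (κ → ℤˣ) :=
    Finset.univ.filter fun g => pe P (Y x0 * tau E (fun j => ((g j : ℤ) : ℂ))) = 0 with hZ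
  refine Set.mem_iUnion.2 ⟨Z, hs, hin, fun p => ∏ g, co (p g), ?_, ?_, ?_⟩
  · intro p φ
    rw [hprodK, map_prod, norm_prod]
    have h1 : ∏ g, ‖φ ((co (p g) : 𝓞 K) : K)‖ ≤ ∏ _g : κ → ℤˣ, T ^ (k : ℝ) :=
      Finset.prod_le_prod (fun g _ => norm_nonneg _) fun g _ => hc _ _ φ
    refine h1.trans ?_
    rw [Finset.prod_const, Finset.card_univ, Real.rpow_mul (by linarith), Real.rpow_natCast (T ^ (k : ℝ))]
  · intro ρ
    by_cases hρ : ∀ g, g⁻¹ * ρ.1 g ∈ Z
    · simp only [hprodK]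
      rw [sum_B io ξ part Z ρ hρ (fun q => ((co q : 𝓞 K) : K)) (fun o => fe E Y o x0), hfe0]
      have h1 : (fun j => MvPolynomial.eval x0 (MvPolynomial.C ((J j).det)⁻¹ * (J' j).det)) = fun j => w j ^ 2 :=
        funext hD0
      rw [h1]
      refine hpart.2 _ _ w hw (fun δ => ?_) ρ.2
      have h2 := hF1 ρ.1 (fun i : Ix n => hat E (Y x0) i.1 i.2.1 i.2.2) (sg δ w)
      change MvPolynomial.eval (Sum.elim _ (sg δ w)) _ = 0
      rw [h2]
      refine Finset.prod_eq_zero (Finset.mem_univ δ⁻¹) ?_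
      have h3 := hρ δ⁻¹
      rw [inv_inv, hZ, Finset.mem_filter] at h3
      have h4 : sg (ρ.1 δ⁻¹) (sg δ w) = sg (δ * ρ.1 δ⁻¹) w := by
        funext j
        simp only [sg, Pi.mul_apply]
        push_cast
        ring
      rw [h4, zm_hat, hkey _ (fun _ => rfl)]
      exact h3.2
    · refine Finset.sum_eq_zero fun p _ => ?_
      rw [Bsys, if_neg hρ, map_zero, mul_zero]
  · rintro ⟨G, hG1, hG2⟩
    -- the functional relations
    have hfun : ∀ ρ : ((κ → ℤˣ) → (κ → ℤˣ)) × Finset κ, (∀ g, g⁻¹ * ρ.1 g ∈ Z) → ∀ h : MT n, IsoS J h →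
        MvPolynomial.eval (Sum.elim (fun i : Ix n => hat E (Y x0 * h) i.1 i.2.1 i.2.2) (fun j => w j ^ 2))
          (part ρ.2 (FF E io ξ (fun q => ((co q : 𝓞 K) : K)) ρ.1)) = 0 := by
      intro ρ hρ h hh
      set R : MvPolynomial (Ix n) (MvPolynomial X ℂ) :=
        ∑ p, MvPolynomial.C (MvPolynomial.map (algebraMap Qbar ℂ) (G p)) *
          MvPolynomial.aeval (sub E fun j => MvPolynomial.C ((J j).det)⁻¹ * (J' j).det) (Bsys E part k ξ Z ρ p)
        with hR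
      have hRe : ∀ x A, vt R x A = ∑ p, MvPolynomial.aeval x (G p) *
          MvPolynomial.eval (Sum.elim (fun i : Ix n => hat E A i.1 i.2.1 i.2.2)
            fun j => MvPolynomial.eval x (MvPolynomial.C ((J j).det)⁻¹ * (J' j).det)) (Bsys E part k ξ Z ρ p) := by
        intro x A
        rw [vt_hom, hR, map_sum]
        refine Finset.sum_congr rfl fun p _ => ?_
        rw [map_mul]
        congr 1
        · rw [MvPolynomial.coe_eval₂Hom, MvPolynomial.eval₂_C, MvPolynomial.eval_map, MvPolynomial.aeval_def]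
        · exact vt_sub E _ _ x A
      have hRrel : IsRelT U Y R := by
        intro x hx
        rw [hRe, ← fe_eq hJ (hF.rel x hx)]
        exact hG2 x hx ρ
      have h1 := hsp h hh R hRrel x0 hxU
      rw [hRe] at h1
      have h2 : (fun j => MvPolynomial.eval x0 (MvPolynomial.C ((J j).det)⁻¹ * (J' j).det)) = fun j => w j ^ 2 :=
        funext hD0
      rw [h2] at h1
      rw [← sum_B io ξ part Z ρ hρ]
      rw [← h1]
      refine Finset.sum_congr rfl fun p _ => ?_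
      rw [hG1 p, hprodK]
    have hdet : ∀ h : MT n, IsoS J h → ∀ j, ((Y x0 * h) j).det = (Y x0 j).det := by
      intro h hh j
      rw [Pi.mul_apply, det_mul, (hh j).2, mul_one]
    have hprod : ∀ ε : (κ → ℤˣ) → (κ → ℤˣ), (∀ g, g⁻¹ * ε g ∈ Z) → ∀ h : MT n, IsoS J h →
        ∏ g, pe P (Y x0 * h * tau E (fun j => ((ε g j : ℤ) : ℂ))) = 0 := by
      intro ε hε h hh
      have h1 := hpart.1 (FF E io ξ (fun q => ((co q : 𝓞 K) : K)) ε)
        (fun i : Ix n => hat E (Y x0 * h) i.1 i.2.1 i.2.2) w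
      rw [Finset.sum_eq_zero (fun S _ => by rw [hfun (ε, S) hε h hh, mul_zero]), hF1, zm_hat] at h1
      rw [← h1]
      exact Finset.prod_congr rfl fun g _ => by rw [hkey _ (hdet h hh)]
    have hone : (1 : κ → ℤˣ) ∈ {g : κ → ℤˣ | ∀ h : MT n, IsoS J h →
        pe P (Y x0 * h * tau E (fun j => ((g j : ℤ) : ℂ))) = 0} := by
      refine comb Z _ ?_ ?_ ?_
      · rw [hZ, Finset.mem_filter]
        refine ⟨Finset.mem_univ _, ?_⟩
        have : (fun j => (((1 : κ → ℤˣ) j : ℤ) : ℂ)) = fun _ => (1 : ℂ) := by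
          funext j
          simp
        rw [this, tau_one, mul_one]
        exact hzero
      · intro g hg
        rw [hZ, Finset.mem_filter]
        refine ⟨Finset.mem_univ _, ?_⟩
        have h1 := hg 1 (fun j => ⟨by rw [Pi.one_apply, transpose_one, one_mul, mul_one],
          by rw [Pi.one_apply, det_one]⟩)
        rwa [mul_one] at h1
      · intro ε hε
        obtain ⟨g, hg⟩ := hIrr κ n J hF.ss (κ → ℤˣ)
          (fun g => tl (Y x0) (tr (tau E (fun j => ((ε g j : ℤ) : ℂ))) P)) (by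
            intro h hh
            rw [← hprod ε hε h hh]
            exact Finset.prod_congr rfl fun g _ => by rw [pe_tl, pe_tr])
        refine ⟨g, fun h hh => ?_⟩
        have := hg h hh
        rwa [pe_tl, pe_tr] at this
    -- the contradiction
    apply hneA
    set h : MT n := fun j => (Y x0 j)⁻¹ * A j with hh
    have hYY : ∀ j, Y x0 j * (Y x0 j)⁻¹ = 1 := fun j => mul_nonsing_inv _ (Ne.isUnit (hdY j))
    have hYh : Y x0 * h = A := by
      funext j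
      rw [Pi.mul_apply, hh]
      simp only [← Matrix.mul_assoc, hYY, one_mul]
    have hiso : ∀ j, (h j)ᵀ * J j * h j = J j := by
      intro j
      have h3 : ((Y x0 j)⁻¹)ᵀ * J j * (Y x0 j)⁻¹ = (J' j).map (MvPolynomial.eval x0) := by
        rw [← hrel j]
        calc ((Y x0 j)⁻¹)ᵀ * ((Y x0 j)ᵀ * (J' j).map (MvPolynomial.eval x0) * Y x0 j) * (Y x0 j)⁻¹ =
              (Y x0 j * (Y x0 j)⁻¹)ᵀ * (J' j).map (MvPolynomial.eval x0) * (Y x0 j * (Y x0 j)⁻¹) := by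
                rw [transpose_mul]; simp only [Matrix.mul_assoc]
          _ = (J' j).map (MvPolynomial.eval x0) := by rw [hYY, transpose_one, one_mul, mul_one]
      calc (h j)ᵀ * J j * h j = (A j)ᵀ * (((Y x0 j)⁻¹)ᵀ * J j * (Y x0 j)⁻¹) * A j := by
            rw [hh]; simp only [transpose_mul, Matrix.mul_assoc]
        _ = J j := by rw [h3]; exact hA j
    have hS : IsoS J h := by
      intro j
      refine ⟨hiso j, ?_⟩
      rcases (hF.ss j).1 with hj | hj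
      · rw [hh]
        simp only
        rw [det_mul, hdetA j hj, det_nonsing_inv, Ring.inverse_eq_inv', inv_mul_cancel₀ (hdY j)]
      · exact hDet _ (J j) hj (hJ j) (h j) (hiso j)
    have h1 := hone h hS
    have h2 : (fun j => (((1 : κ → ℤˣ) j : ℤ) : ℂ)) = fun _ => (1 : ℂ) := by
      funext j
      simp
    rw [h2, tau_one, mul_one, hYh] at h1
    exact h1

theorem exc (hIrr : S_IRRT) (hDet : S_DETK) : S_EXC :=
  fun X κ _ _ _ n J J' U Y hF hsp => exc3 hIrr hDet X κ n J J' U Y hF fun g hg => hsp g fun j => (hg j).1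

end Pool.Agent.Y985.OR
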