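import Pool.Agent.Y985.OR.Stm3

/-!
# OR-FIN: final assembly
-/

set_option autoImplicit false

open Filter Topology Matrix NumberField

namespace Pool.Agent.Y985.OR

open Pool.Agent.Y119.PLM (MT Ix IsMon vt GalT pe DenseMon Big mon_mem)
open Pool.Agent.Y890.MV (RegularM InnerM innerM_compact innerM_sub cov_count poly_zero)
open Pool.Agent.Y890.SP (Qbar exists_omega)
open Pool.Agent.Y124 (Cov)

namespace FinAux

section

variable {X κ : Type} [Fintype X] {n : κ → ℕ} {J : MT n}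
  {J' : (j : κ) → Matrix (Fin (n j)) (Fin (n j)) (MvPolynomial X ℂ)} {U : Set (X → ℂ)}
  {Y : (X → ℂ) → MT n}

lemma dets (h : Fam J J' U Y) {x : X → ℂ} (hx : x ∈ U) (j : κ) :
    (Y x j).det ≠ 0 ∧ ((J' j).map (MvPolynomial.eval x)).det ≠ 0 := by
  have h1 := congrArg Matrix.det (h.rel x hx j)
  rw [det_mul, det_mul, det_transpose] at h1
  have h2 := (h.ss j).2
  rw [← h1] at h2
  exact ⟨right_ne_zero_of_mul h2, right_ne_zero_of_mul (left_ne_zero_of_mul h2)⟩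

lemma sec_all (hS : S_SECS) (hK : S_SECK) (h : Fam J J' U Y) (j : κ) : Sec (J j) (J' j) := by
  obtain ⟨x0, hx0⟩ := h.ne
  have hdet : (J' j).det ≠ 0 := by
    intro h0
    apply (dets h hx0 j).2
    have h1 : ((J' j).map (MvPolynomial.eval x0)).det = MvPolynomial.eval x0 (J' j).det := by
      rw [RingHom.map_det]
      rfl
    rw [h1, h0, map_zero]
  -- the symmetry of `J'`
  have key : ∀ c : ℂ, (J j)ᵀ = c • J j → ∀ x ∈ U,
      ((J' j).map (MvPolynomial.eval x))ᵀ = c • (J' j).map (MvPolynomial.eval x) := by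
    intro c hc x hx
    set Z := Y x j with hZ
    set M := (J' j).map (MvPolynomial.eval x) with hM
    have hrel : Zᵀ * M * Z = J j := h.rel x hx j
    have hu : IsUnit Z.det := isUnit_iff_ne_zero.2 (dets h hx j).1
    have hut : IsUnit Zᵀ.det := by rw [det_transpose]; exact hu
    have h1 : Zᵀ * Mᵀ * Z = c • J j := by
      rw [← hc, ← hrel, transpose_mul, transpose_mul, transpose_transpose, Matrix.mul_assoc]
    have h2 : Zᵀ * Mᵀ * Z = Zᵀ * (c • M) * Z := by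
      rw [h1, Matrix.mul_smul, Matrix.smul_mul, hrel]
    have h3 : Zᵀ * Mᵀ = Zᵀ * (c • M) := by
      have := congrArg (fun A => A * Z⁻¹) h2
      simpa [Matrix.mul_assoc, Matrix.mul_nonsing_inv _ hu] using this
    have := congrArg (fun A => (Zᵀ)⁻¹ * A) h3
    simp only [← Matrix.mul_assoc, Matrix.nonsing_inv_mul _ hut, Matrix.one_mul] at this
    exact this
  have key2 : ∀ c : ℂ, (J j)ᵀ = c • J j → (J' j)ᵀ = (MvPolynomial.C c : MvPolynomial X ℂ) • J' j := by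
    intro c hc
    ext1 a b
    have h0 : (J' j)ᵀ a b - MvPolynomial.C c * J' j a b = 0 := by
      refine poly_zero h.op h.ne _ fun x hx => ?_
      have := congrFun (congrFun (key c hc x hx) a) b
      rw [transpose_apply, map_apply, Matrix.smul_apply, map_apply, smul_eq_mul] at this
      rw [map_sub, map_mul, MvPolynomial.eval_C, transpose_apply, this, sub_self]
    rw [Matrix.smul_apply, smul_eq_mul]
    exact sub_eq_zero.1 h0
  obtain ⟨h1 | h1, h2⟩ := h.ss j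
  · refine hS X (n j) (J j) (J' j) h1 ?_ h2 hdet
    have := key2 1 (by rw [one_smul]; exact h1)
    rwa [MvPolynomial.C_1, one_smul] at this
  · refine hK X (n j) (J j) (J' j) h1 ?_ h2 hdet
    have := key2 (-1) (by rw [neg_one_smul]; exact h1)
    rwa [MvPolynomial.C_neg, MvPolynomial.C_1, neg_one_smul] at this

lemma det_an (h : Fam J J' U Y) (j : κ) : AnalyticOnNhd ℂ (fun x => (Y x j).det) U := by
  have h1 : (fun x => (Y x j).det) = fun x => ∑ σ : Equiv.Perm (Fin (n j)),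
      ((Equiv.Perm.sign σ : ℤ) : ℂ) * ∏ i, Y x j (σ i) i := by
    funext x
    rw [det_apply']
  rw [h1]
  refine Finset.analyticOnNhd_fun_sum _ fun σ _ => analyticOnNhd_const.mul ?_
  exact Finset.analyticOnNhd_fun_prod _ fun i _ => h.an j _ _

lemma fe_an (h : Fam J J' U Y) (E : MT n) (i : Ix n ⊕ κ) : AnalyticOnNhd ℂ (fe E Y i) U := by
  rcases i with i | j
  · have h1 : fe E Y (Sum.inl i) = fun x => ∑ c, Y x i.1 i.2.1 c *
        ((1 : Matrix (Fin (n i.1)) (Fin (n i.1)) ℂ) c i.2.2 +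
          ((Y x i.1).det - 1) * E i.1 c i.2.2) := by
      funext x
      simp only [fe, hat, tau, Pi.mul_apply, Matrix.mul_apply, Matrix.add_apply, Matrix.smul_apply,
        smul_eq_mul]
    rw [h1]
    refine Finset.analyticOnNhd_fun_sum _ fun c _ => (h.an _ _ _).mul ?_
    exact analyticOnNhd_const.add (((det_an h _).sub analyticOnNhd_const).mul analyticOnNhd_const)
  · have h1 : fe E Y (Sum.inr j) = fun x => ((Y x j).det)⁻¹ ^ 2 := rfl
    rw [h1]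
    exact ((det_an h j).inv fun x hx => (dets h hx j).1).pow 2

end

/-- functional relations are invariant under the isometries of determinant one -/
lemma so_mem {X κ : Type} [Fintype X] {n : κ → ℕ} {J : MT n} {U : Set (X → ℂ)} {Y : (X → ℂ) → MT n}
    (hU : IsPreconnected U) (hY : ∀ j a b, AnalyticOnNhd ℂ (fun x => Y x j a b) U) (hD : DenseS U Y J)
    (g : MT n) (hg : IsoS J g) : g ∈ GalT U Y := by
  intro P hP x hx
  obtain ⟨p, hp⟩ : ∃ p : MvPolynomial (Ix n) ℂ, ∀ g, pe p g = vt P x (Y x * g) := by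
    refine ⟨MvPolynomial.eval₂ (MvPolynomial.C.comp (MvPolynomial.eval x))
      (fun i : Ix n => ∑ k, MvPolynomial.C (Y x i.1 i.2.1 k) * MvPolynomial.X ⟨i.1, k, i.2.2⟩) P, fun g => ?_⟩
    unfold pe vt
    rw [MvPolynomial.hom_eval₂]
    congr 1
    · ext <;> simp
    · funext i
      rw [map_sum, Pi.mul_apply, Matrix.mul_apply]
      refine Finset.sum_congr rfl fun k _ => ?_
      rw [map_mul, MvPolynomial.eval_C, MvPolynomial.eval_X]
  rw [← hp]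
  refine hD p (fun h hh => ?_) g hg
  rw [hp]
  exact mon_mem hU hY hh P hP x hx

lemma exists_bd {β : Type} [Fintype β] (φ : β → ℕ) : ∃ δ : ℕ, ∀ b, φ b ≤ δ :=
  ⟨Finset.univ.sup φ, fun b => Finset.le_sup (Finset.mem_univ b)⟩

lemma bsys_le {κ : Type} [Fintype κ] {n : κ → ℕ} (E : MT n)
    (part : Finset κ → (MvPolynomial (Ix n ⊕ κ) ℂ →ₗ[ℂ] MvPolynomial (Ix n ⊕ κ) ℂ)) (k : ℕ)
    (ξ : Fin k → ℂ) (Z U : Finset (κ → ℤˣ)) (hU : ∀ g, g ∈ U) (ρ : ((κ → ℤˣ) → (κ → ℤˣ)) × Finset κ)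
    (p : (κ → ℤˣ) → (Ix n → Fin (k + 1)) × Fin k) (y : Ix n ⊕ κ) :
    (Bsys E part k ξ Z ρ p).degreeOf y ≤ (Bsys E part k (fun _ => 1) U ρ p).degreeOf y := by
  have h2 : ∀ g, g⁻¹ * ρ.1 g ∈ U := fun g => hU _
  by_cases h : ∀ g, g⁻¹ * ρ.1 g ∈ Z
  · rw [Bsys, Bsys, if_pos h, if_pos h2, Finset.prod_const_one, one_smul,
      MvPolynomial.smul_eq_C_mul]
    exact MvPolynomial.degreeOf_C_mul_le _ _ _
  · rw [Bsys, if_neg h, MvPolynomial.degreeOf_zero]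
    exact Nat.zero_le _

lemma bsys_deg {κ : Type} [Fintype κ] [DecidableEq κ] {n : κ → ℕ} (E : MT n)
    (part : Finset κ → (MvPolynomial (Ix n ⊕ κ) ℂ →ₗ[ℂ] MvPolynomial (Ix n ⊕ κ) ℂ)) (k : ℕ) :
    ∃ δ : ℕ, ∀ (ξ : Fin k → ℂ) (Z : Finset (κ → ℤˣ)) (ρ : ((κ → ℤˣ) → (κ → ℤˣ)) × Finset κ)
      (p : (κ → ℤˣ) → (Ix n → Fin (k + 1)) × Fin k) (y : Ix n ⊕ κ),
      (Bsys E part k ξ Z ρ p).degreeOf y ≤ δ := by
  obtain ⟨U, hU⟩ : ∃ U : Finset (κ → ℤˣ), ∀ g, g ∈ U := ⟨Finset.univ, Finset.mem_univ⟩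
  obtain ⟨δ, hδ⟩ := exists_bd (fun q : (((κ → ℤˣ) → (κ → ℤˣ)) × Finset κ) ×
    ((κ → ℤˣ) → (Ix n → Fin (k + 1)) × Fin k) × (Ix n ⊕ κ) =>
      (Bsys E part k (fun _ => 1) U q.1 q.2.1).degreeOf q.2.2)
  exact ⟨δ, fun ξ Z ρ p y => (bsys_le E part k ξ Z U hU ρ p y).trans (hδ (ρ, p, y))⟩

end FinAux

open FinAux

/-- OR-FIN: final assembly -/
theorem fin3 : S_REG3 → S_SECS → S_SECK → S_E → S_PART → S_WRAP → S_EXC3 → S_FIN3 := by
  classical
  intro hREG hSECS hSECK hE hPART hWRAP hEXC X κ _ _ _ _ _ n J J' U Y hFam hD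
  have hgal : ∀ g, IsoS J g → g ∈ GalT U Y := fun g hg => so_mem hFam.pre hFam.an hD g hg
  have hsec : ∀ j, Sec (J j) (J' j) := sec_all hSECS hSECK hFam
  obtain ⟨E, hEok⟩ := hE κ n J hFam.ss
  obtain ⟨part, hpart⟩ := hPART (Ix n) κ
  have hreg : RegularM U (fe E Y) := hREG X κ n J J' U Y hFam hsec hgal E hEok
  have hf : ∀ i, AnalyticOnNhd ℂ (fe E Y i) U := fe_an hFam E
  let S : ℕ → ℝ → Prop := fun k T => ∀ (K : Type) [Field K] [NumberField K], Module.finrank ℚ K ≤ k →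
    ∀ (io : K →+* ℂ) (ξ : Fin k → ℂ),
      Cov ⌊T ^ ((k : ℝ)⁻¹)⌋₊ ⌊T ^ ((k : ℝ)⁻¹)⌋₊
          ((fun (s : X → K) i => io (s i)) '' ExcO J J' U Y K io k ξ T) ∧
        (ExcO J J' U Y K io k ξ T).Finite ∧
        ((ExcO J J' U Y K io k ξ T).ncard : ℝ) ≤
          T ^ ((k : ℝ)⁻¹) * ({x : K | Y120.HtLe K T x}.ncard : ℝ) ^ (Fintype.card X - 1)
  refine exists_omega S fun k => ?_
  set τ : ℝ := ((k + 1 : ℕ) : ℝ)⁻¹ with hτ
  have hτ0 : 0 < τ := by positivity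
  obtain ⟨δ, hδ⟩ := bsys_deg E part (k + 1)
  obtain ⟨D, C₀, T₀, hC₀, hT₀, H⟩ := hWRAP X (Ix n ⊕ κ) U (fe E Y) hFam.pre hFam.op hFam.ne hf hreg
    (InnerM U (k + 1)) (innerM_compact _ _) (innerM_sub _ (Nat.succ_pos k)) δ
    ((κ → ℤˣ) → (Ix n → Fin (k + 1 + 1)) × Fin (k + 1)) (((κ → ℤˣ) → (κ → ℤˣ)) × Finset κ) (k + 1)
    (((k + 1 : ℕ) : ℝ) * ((Fintype.card (κ → ℤˣ) : ℕ) : ℝ)) (τ / 3) (by positivity)
  obtain ⟨N, hN⟩ : ∃ N : ℕ, N = (Finset.univ : Finset (Finset (κ → ℤˣ))).card := ⟨_, rfl⟩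
  set C : ℝ := N * C₀ with hCdef
  have hC : 0 ≤ C := by positivity
  -- constants are powers of `T`
  have hpow : ∀ C : ℝ, 0 ≤ C → ∃ T₁ : ℝ, ∀ T, 1 ≤ T → T₁ ≤ T → C ≤ T ^ (τ / 3) := by
    intro C hC
    refine ⟨C ^ (3 * (k + 1)), fun T hT hT1 => ?_⟩
    have h4 : C = (C ^ (3 * (k + 1))) ^ (τ / 3) := by
      rw [← Real.rpow_natCast, ← Real.rpow_mul hC]
      have : ((3 * (k + 1) : ℕ) : ℝ) * (τ / 3) = 1 := by
        rw [hτ]
        push_cast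
        have : ((k : ℝ) + 1) ≠ 0 := by positivity
        field_simp
      rw [this, Real.rpow_one]
    rw [h4]
    exact Real.rpow_le_rpow (by positivity) hT1 (by positivity)
  obtain ⟨T₁, hT₁⟩ := hpow C hC
  obtain ⟨T₂, hT₂⟩ := hpow D (Nat.cast_nonneg _)
  refine ⟨max T₀ (max T₁ T₂), fun T hT K _ _ hK io ξ => ?_⟩
  have h0 : T₀ ≤ T := (le_max_left _ _).trans hT
  have h1 : T₁ ≤ T := ((le_max_left _ _).trans (le_max_right _ _)).trans hT
  have h2 : T₂ ≤ T := ((le_max_right _ _).trans (le_max_right _ _)).trans hT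
  have hT1 : 1 ≤ T := by linarith
  have hTp : 0 < T := by linarith
  have h3 := hT₁ T hT1 h1
  have h4 := hT₂ T hT1 h2
  have hcov0 : ∀ Z : Finset (κ → ℤˣ), Cov D ⌊C₀ * T ^ (τ / 3)⌋₊ ((fun (s : X → K) j => io (s j)) ''
      ExcB U (fe E Y) (InnerM U (k + 1)) K io (Bsys E part (k + 1) ξ Z)
        (((k + 1 : ℕ) : ℝ) * ((Fintype.card (κ → ℤˣ) : ℕ) : ℝ)) T) := fun Z =>
    H K hK io (Bsys E part (k + 1) ξ Z) (fun ρ i y => hδ ξ Z ρ i y) T h0
  have hsub := hEXC X κ n J J' U Y hFam hgal E hEok part hpart K io (k + 1) ξ T (Nat.succ_pos k) hT1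
  have hun := Cov.biUnion (Finset.univ : Finset (Finset (κ → ℤˣ))) (fun Z =>
    (fun (s : X → K) j => io (s j)) ''
      ExcB U (fe E Y) (InnerM U (k + 1)) K io (Bsys E part (k + 1) ξ Z)
        (((k + 1 : ℕ) : ℝ) * ((Fintype.card (κ → ℤˣ) : ℕ) : ℝ)) T) (fun Z _ => hcov0 Z)
  rw [← hN] at hun
  have hcov : Cov D (N * ⌊C₀ * T ^ (τ / 3)⌋₊)
      ((fun (s : X → K) i => io (s i)) '' ExcO J J' U Y K io (k + 1) ξ T) := by
    refine hun.mono le_rfl le_rfl ?_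
    rintro _ ⟨s, hs, rfl⟩
    obtain ⟨Z, hZ⟩ := Set.mem_iUnion.1 (hsub hs)
    simp only [Finset.mem_univ, Set.iUnion_true]
    exact Set.mem_iUnion.2 ⟨Z, s, hZ, rfl⟩
  have hNC : ((N * ⌊C₀ * T ^ (τ / 3)⌋₊ : ℕ) : ℝ) ≤ C * T ^ (τ / 3) := by
    push_cast
    rw [hCdef, mul_assoc]
    exact mul_le_mul_of_nonneg_left (Nat.floor_le (by positivity)) (Nat.cast_nonneg _)
  have h5 : T ^ (τ / 3) * T ^ (τ / 3) ≤ T ^ τ := by
    rw [← Real.rpow_add hTp]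
    exact Real.rpow_le_rpow_of_exponent_le hT1 (by linarith)
  have h6 : T ^ (τ / 3) ≤ T ^ τ := Real.rpow_le_rpow_of_exponent_le hT1 (by linarith)
  have hm : C * T ^ (τ / 3) ≤ T ^ (τ / 3) * T ^ (τ / 3) := mul_le_mul_of_nonneg_right h3 (by positivity)
  refine ⟨hcov.mono ?_ ?_ (Set.Subset.refl _), ?_⟩
  · exact Nat.le_floor (h4.trans h6)
  · exact Nat.le_floor (hNC.trans (hm.trans h5))
  obtain ⟨h7, h8⟩ := cov_count io {x : K | Y120.HtLe K T x} (Y120.HtLe_fin K T) _ (fun s hs => hs.1) hcov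
  refine ⟨h7, ?_⟩
  have h9 : ((N * ⌊C₀ * T ^ (τ / 3)⌋₊ : ℕ) : ℝ) ≤ T ^ (τ / 3) * T ^ (τ / 3) := hNC.trans hm
  have h10 : ((ExcO J J' U Y K io (k + 1) ξ T).ncard : ℝ) ≤
      ((N * ⌊C₀ * T ^ (τ / 3)⌋₊ : ℕ) : ℝ) * (D * ({x : K | Y120.HtLe K T x}.ncard : ℝ) ^
        (Fintype.card X - 1)) := by
    exact_mod_cast h8
  refine h10.trans ?_
  rw [← mul_assoc]
  refine mul_le_mul_of_nonneg_right ?_ (by positivity)
  calc ((N * ⌊C₀ * T ^ (τ / 3)⌋₊ : ℕ) : ℝ) * (D : ℝ) ≤ (T ^ (τ / 3) * T ^ (τ / 3)) * T ^ (τ / 3) :=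
        mul_le_mul h9 h4 (Nat.cast_nonneg _) (by positivity)
    _ = T ^ τ := by
        rw [← Real.rpow_add hTp, ← Real.rpow_add hTp]
        congr 1
        ring

end Pool.Agent.Y985.OR
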