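import Pool.Agent.Y985.OR.Stm

set_option autoImplicit false

/-! OR-IRR: the special orthogonal group is irreducible. -/

namespace Pool.Agent.Y985.OR

open Matrix

namespace IrrAux

variable {n : ℕ}

theorem refl_sq (J : Mat n) (v : Fin n → ℂ) (hv : bl J v v ≠ 0) :
    refl J v * refl J v = 1 := by
  have hd : (J *ᵥ v) ⬝ᵥ v = bl J v v := by rw [bl, dotProduct_comm]
  set t : ℂ := 2 / bl J v v with ht
  have h2 : vecMulVec v (J *ᵥ v) * vecMulVec v (J *ᵥ v) = bl J v v • vecMulVec v (J *ᵥ v) := by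
    rw [vecMulVec_mul_vecMulVec, hd, vecMulVec_smul]
  rw [refl, ← ht]
  simp only [sub_mul, mul_sub, one_mul, mul_one, smul_mul_assoc, mul_smul_comm, h2, smul_smul]
  have h3 : t * bl J v v = 2 := by rw [ht]; field_simp
  rw [h3]
  module

theorem refl_det (J : Mat n) (v : Fin n → ℂ) (hv : bl J v v ≠ 0) : (refl J v).det = -1 := by
  have h1 : refl J v = 1 + replicateCol Unit (-(2 / bl J v v) • v) * replicateRow Unit (J *ᵥ v) := by
    rw [← vecMulVec_eq, smul_vecMulVec, refl, neg_smul, sub_eq_add_neg]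
  rw [h1, det_one_add_replicateCol_mul_replicateRow, dotProduct_smul, dotProduct_comm]
  change 1 + (-(2 / bl J v v)) • bl J v v = -1
  rw [smul_eq_mul]
  field_simp
  norm_num

theorem refl_isO (J : Mat n) (hJ : Jᵀ = J) (v : Fin n → ℂ) (hv : bl J v v ≠ 0) :
    (refl J v)ᵀ * J * refl J v = J := by
  set t : ℂ := 2 / bl J v v with ht
  have h1 : t * (t * bl J v v) = 2 * t := by rw [ht]; field_simp
  have hvJ : v ᵥ* J = J *ᵥ v := by rw [← hJ, vecMul_transpose, hJ]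
  have hT : (refl J v)ᵀ = 1 - t • vecMulVec (J *ᵥ v) v := by
    rw [refl, transpose_sub, transpose_one, transpose_smul, transpose_vecMulVec]
  set w := J *ᵥ v with hw
  have e1 : vecMulVec w v * J = vecMulVec w w := by rw [vecMulVec_mul, hvJ]
  have e2 : J * vecMulVec v w = vecMulVec w w := by rw [mul_vecMulVec]
  have e3 : vecMulVec w w * vecMulVec v w = bl J v v • vecMulVec w w := by
    rw [vecMulVec_mul_vecMulVec, vecMulVec_smul]
    congr 1
    rw [bl, dotProduct_comm]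
  rw [hT, refl, ← ht, ← hw, sub_mul, one_mul, smul_mul_assoc, e1, mul_sub, mul_one, mul_smul_comm,
    sub_mul, e2, smul_mul_assoc, e3, smul_sub, smul_smul, smul_smul, mul_assoc, h1]
  module

theorem so_mul (J g h : Mat n) (hg : IsSO J g) (hh : IsSO J h) : IsSO J (g * h) := by
  refine ⟨?_, ?_⟩
  · rw [transpose_mul]
    calc hᵀ * gᵀ * J * (g * h) = hᵀ * (gᵀ * J * g) * h := by simp only [Matrix.mul_assoc]
      _ = J := by rw [hg.1, hh.1]
  · rw [det_mul, hg.2, hh.2, one_mul]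

theorem pair_so (J : Mat n) (hJ : Jᵀ = J) (u v : Fin n → ℂ) (hu : bl J u u ≠ 0)
    (hv : bl J v v ≠ 0) : IsSO J (refl J u * refl J v) := by
  refine ⟨?_, ?_⟩
  · rw [transpose_mul]
    calc (refl J v)ᵀ * (refl J u)ᵀ * J * (refl J u * refl J v)
        = (refl J v)ᵀ * ((refl J u)ᵀ * J * refl J u) * refl J v := by
          simp only [Matrix.mul_assoc]
      _ = J := by rw [refl_isO J hJ u hu, refl_isO J hJ v hv]
  · rw [det_mul, refl_det J u hu, refl_det J v hv]; norm_num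

/-- translate of a polynomial -/
noncomputable def tr (a : Mat n) (Ψ : MvPolynomial (Fin n × Fin n) ℂ) :
    MvPolynomial (Fin n × Fin n) ℂ :=
  MvPolynomial.bind₁ (fun ij : Fin n × Fin n =>
    ∑ k, MvPolynomial.C (a ij.1 k) * MvPolynomial.X (k, ij.2)) Ψ

theorem pm_tr (a A : Mat n) (Ψ : MvPolynomial (Fin n × Fin n) ℂ) :
    pm (tr a Ψ) A = pm Ψ (a * A) := by
  unfold pm tr
  rw [← MvPolynomial.coe_aeval_eq_eval, ← MvPolynomial.coe_aeval_eq_eval]
  rw [RingHom.coe_coe, RingHom.coe_coe, MvPolynomial.aeval_bind₁]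
  congr 2
  funext ij
  rw [map_sum, Matrix.mul_apply]
  apply Finset.sum_congr rfl
  intro k _
  simp

/-- clearing denominators -/
theorem clr {σ : Type} (q : Polynomial ℂ) (Φ : MvPolynomial σ ℂ) (G : σ → Polynomial ℂ) :
    ∃ (N : ℕ) (F : Polynomial ℂ), ∀ c : ℂ, q.eval c ≠ 0 →
      F.eval c = (q.eval c) ^ N * MvPolynomial.eval (fun i => (G i).eval c / q.eval c) Φ := by
  induction Φ using MvPolynomial.induction_on with
  | C a => exact ⟨0, Polynomial.C a, fun c _ => by simp⟩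
  | add p r hp hr =>
    obtain ⟨N1, F1, h1⟩ := hp
    obtain ⟨N2, F2, h2⟩ := hr
    refine ⟨N1 + N2, q ^ N2 * F1 + q ^ N1 * F2, fun c hc => ?_⟩
    rw [Polynomial.eval_add, Polynomial.eval_mul, Polynomial.eval_mul, Polynomial.eval_pow,
      Polynomial.eval_pow, h1 c hc, h2 c hc, map_add]
    ring
  | mul_X p i hp =>
    obtain ⟨N1, F1, h1⟩ := hp
    refine ⟨N1 + 1, F1 * G i, fun c hc => ?_⟩
    rw [Polynomial.eval_mul, h1 c hc, map_mul, MvPolynomial.eval_X]
    field_simp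
    ring

/-- `Φ Ψ = 0` on the special orthogonal group -/
def Z (J : Mat n) (Φ Ψ : MvPolynomial (Fin n × Fin n) ℂ) : Prop :=
  ∀ h, IsSO J h → pm Φ h * pm Ψ h = 0

/-- the main property -/
def P (J : Mat n) (Φ : MvPolynomial (Fin n × Fin n) ℂ) (a : Mat n) : Prop :=
  ∀ Ψ, Z J Φ Ψ → ∀ y, IsSO J y → pm Φ y ≠ 0 → pm Ψ (a * y) = 0

theorem P_one (J : Mat n) (Φ : MvPolynomial (Fin n × Fin n) ℂ) : P J Φ 1 := by
  intro Ψ hZ y hy hΦ
  rw [one_mul]
  exact (mul_eq_zero.1 (hZ y hy)).resolve_left hΦ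

theorem P_mul (J : Mat n) (Φ : MvPolynomial (Fin n × Fin n) ℂ) (a b : Mat n)
    (ha : P J Φ a) (hb : P J Φ b) : P J Φ (a * b) := by
  intro Ψ hZ y hy hΦ
  have h1 : Z J Φ (tr a Ψ) := by
    intro h hh
    by_cases h0 : pm Φ h = 0
    · rw [h0, zero_mul]
    · rw [pm_tr, ha Ψ hZ h hh h0, mul_zero]
  have := hb (tr a Ψ) h1 y hy hΦ
  rw [pm_tr] at this
  rw [Matrix.mul_assoc]
  exact this

/-- the moving vector -/
noncomputable def mv (v1 v2 : Fin n → ℂ) (i : Fin n) : Polynomial ℂ :=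
  Polynomial.C (v1 i) + Polynomial.X * Polynomial.C (v2 i - v1 i)

/-- its image under `J` -/
noncomputable def mw (J : Mat n) (v1 v2 : Fin n → ℂ) (i : Fin n) : Polynomial ℂ :=
  ∑ j, Polynomial.C (J i j) * mv v1 v2 j

/-- its square -/
noncomputable def mq (J : Mat n) (v1 v2 : Fin n → ℂ) : Polynomial ℂ :=
  ∑ i, mv v1 v2 i * mw J v1 v2 i

theorem mv_eval (v1 v2 : Fin n → ℂ) (i : Fin n) (c : ℂ) :
    (mv v1 v2 i).eval c = (v1 + c • (v2 - v1)) i := by
  simp [mv]

theorem mw_eval (J : Mat n) (v1 v2 : Fin n → ℂ) (i : Fin n) (c : ℂ) :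
    (mw J v1 v2 i).eval c = (J *ᵥ (v1 + c • (v2 - v1))) i := by
  rw [mw, Polynomial.eval_finsetSum, mulVec, dotProduct]
  apply Finset.sum_congr rfl
  intro j _
  rw [Polynomial.eval_mul, Polynomial.eval_C, mv_eval]

theorem mq_eval (J : Mat n) (v1 v2 : Fin n → ℂ) (c : ℂ) :
    (mq J v1 v2).eval c = bl J (v1 + c • (v2 - v1)) (v1 + c • (v2 - v1)) := by
  rw [mq, Polynomial.eval_finsetSum, bl, dotProduct]
  apply Finset.sum_congr rfl
  intro j _
  rw [Polynomial.eval_mul, mv_eval, mw_eval]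

/-- entries of `q(c) γ(c) y'` -/
noncomputable def mg (J : Mat n) (v1 v2 : Fin n → ℂ) (z : Mat n) (ij : Fin n × Fin n) :
    Polynomial ℂ :=
  mq J v1 v2 * Polynomial.C (z ij.1 ij.2) -
    2 * mv v1 v2 ij.1 * ∑ k, mw J v1 v2 k * Polynomial.C (z k ij.2)

theorem mg_eval (J : Mat n) (v1 v2 : Fin n → ℂ) (z : Mat n) (c : ℂ)
    (hc : (mq J v1 v2).eval c ≠ 0) :
    (fun ij : Fin n × Fin n => (mg J v1 v2 z ij).eval c / (mq J v1 v2).eval c) =
      fun ij => (refl J (v1 + c • (v2 - v1)) * z) ij.1 ij.2 := by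
  funext ij
  set w := v1 + c • (v2 - v1) with hw
  have h1 : (mg J v1 v2 z ij).eval c = bl J w w * z ij.1 ij.2 -
      2 * w ij.1 * ∑ k, (J *ᵥ w) k * z k ij.2 := by
    rw [mg, Polynomial.eval_sub, Polynomial.eval_mul, mq_eval, Polynomial.eval_C,
      Polynomial.eval_mul, Polynomial.eval_mul, mv_eval, Polynomial.eval_finsetSum]
    congr 2
    · rw [show (2 : Polynomial ℂ) = Polynomial.C 2 from rfl, Polynomial.eval_C]
    · apply Finset.sum_congr rfl
      intro k _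
      rw [Polynomial.eval_mul, mw_eval, Polynomial.eval_C]
  have h2 : (refl J w * z) ij.1 ij.2 = z ij.1 ij.2 - (2 / bl J w w) *
      (w ij.1 * ∑ k, (J *ᵥ w) k * z k ij.2) := by
    rw [refl, sub_mul, one_mul, smul_mul_assoc, vecMulVec_mul, Matrix.sub_apply,
      Matrix.smul_apply, vecMulVec_apply, smul_eq_mul]
    rfl
  rw [mq_eval, ← hw] at hc ⊢
  rw [h1, h2]
  field_simp

theorem P_pair (J : Mat n) (hJ : Jᵀ = J) (Φ : MvPolynomial (Fin n × Fin n) ℂ)
    (v1 v2 : Fin n → ℂ) (h1 : bl J v1 v1 ≠ 0) (h2 : bl J v2 v2 ≠ 0) :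
    P J Φ (refl J v1 * refl J v2) := by
  intro Ψ hZ y hy hΦ
  set z := refl J v2 * y with hz
  obtain ⟨N1, F1, hF1⟩ := clr (mq J v1 v2) Φ (mg J v1 v2 z)
  obtain ⟨N2, F2, hF2⟩ := clr (mq J v1 v2) Ψ (mg J v1 v2 z)
  have e0 : (mq J v1 v2).eval 0 = bl J v1 v1 := by rw [mq_eval]; simp
  have e1 : (mq J v1 v2).eval 1 = bl J v2 v2 := by rw [mq_eval]; simp
  have hq : mq J v1 v2 ≠ 0 := by
    intro h; rw [h] at e0; simp at e0; exact h1 e0.symm
  have key : mq J v1 v2 * (F1 * F2) = 0 := by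
    apply Polynomial.funext
    intro c
    rw [Polynomial.eval_mul, Polynomial.eval_mul, Polynomial.eval_zero]
    by_cases hc : (mq J v1 v2).eval c = 0
    · rw [hc, zero_mul]
    · rw [hF1 c hc, hF2 c hc, mg_eval J v1 v2 z c hc]
      have hcb : bl J (v1 + c • (v2 - v1)) (v1 + c • (v2 - v1)) ≠ 0 := by
        rw [← mq_eval]; exact hc
      have hso : IsSO J (refl J (v1 + c • (v2 - v1)) * z) := by
        rw [hz, ← Matrix.mul_assoc]
        exact so_mul J _ _ (pair_so J hJ _ _ hcb h2) hy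
      have h3 := hZ _ hso
      rw [pm, pm] at h3
      rcases mul_eq_zero.1 h3 with h4 | h4
      · rw [h4]; ring
      · rw [h4]; ring
  rcases mul_eq_zero.1 key with h3 | h3
  · exact absurd h3 hq
  rcases mul_eq_zero.1 h3 with h4 | h4
  · exfalso
    have hc1 : (mq J v1 v2).eval 1 ≠ 0 := by rw [e1]; exact h2
    have h5 := hF1 1 hc1
    rw [h4, Polynomial.eval_zero, mg_eval J v1 v2 z 1 hc1] at h5
    have h6 : refl J (v1 + (1:ℂ) • (v2 - v1)) * z = y := by
      rw [one_smul, add_sub_cancel, hz, ← Matrix.mul_assoc, refl_sq J v2 h2, one_mul]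
    rw [h6] at h5
    rcases mul_eq_zero.1 h5.symm with h7 | h7
    · exact pow_ne_zero _ hc1 h7
    · exact hΦ h7
  · have hc0 : (mq J v1 v2).eval 0 ≠ 0 := by rw [e0]; exact h1
    have h5 := hF2 0 hc0
    rw [h4, Polynomial.eval_zero, mg_eval J v1 v2 z 0 hc0] at h5
    have h6 : refl J (v1 + (0:ℂ) • (v2 - v1)) * z = refl J v1 * refl J v2 * y := by
      rw [zero_smul, add_zero, hz, ← Matrix.mul_assoc]
    rw [h6] at h5
    rcases mul_eq_zero.1 h5.symm with h7 | h7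
    · exact absurd h7 (pow_ne_zero _ hc0)
    · exact h7

theorem P_all (cd : S_CD) (J : Mat n) (hJ : Jᵀ = J) (hd : J.det ≠ 0)
    (Φ : MvPolynomial (Fin n × Fin n) ℂ) (g : Mat n) (hg : IsSO J g) : P J Φ g := by
  have h := cd n J hJ hd g hg.1
  have key : (g.det = 1 ∧ P J Φ g) ∨
      (g.det = -1 ∧ ∀ v, bl J v v ≠ 0 → P J Φ (g * refl J v)) := by
    clear hg
    induction h using Submonoid.closure_induction_right with
    | one => exact Or.inl ⟨det_one, P_one J Φ⟩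
    | mul_right x hx r hr ih =>
      obtain ⟨w, hw, rfl⟩ := hr
      rcases ih with ⟨hd1, hP⟩ | ⟨hd1, hP⟩
      · refine Or.inr ⟨?_, fun v hv => ?_⟩
        · rw [det_mul, hd1, refl_det J w hw, one_mul]
        · rw [Matrix.mul_assoc]
          exact P_mul J Φ _ _ hP (P_pair J hJ Φ w v hw hv)
      · refine Or.inl ⟨?_, hP w hw⟩
        rw [det_mul, hd1, refl_det J w hw]; norm_num
  rcases key with h1 | h1
  · exact h1.2
  · exfalso
    have := h1.1
    rw [hg.2] at this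
    norm_num at this

theorem inv_so (J : Mat n) (g h0 : Mat n) (hg : IsSO J g) (hh : IsSO J h0) :
    IsSO J (g * h0⁻¹) := by
  have hu : IsUnit h0.det := by rw [hh.2]; exact isUnit_one
  have h1 : IsSO J h0⁻¹ := by
    refine ⟨?_, ?_⟩
    · have h2 := hh.1
      have h3 : (h0⁻¹)ᵀ * (h0ᵀ * J * h0) * h0⁻¹ = J := by
        have h4 : (h0⁻¹)ᵀ * h0ᵀ = 1 := by
          rw [← transpose_mul, mul_nonsing_inv h0 hu, transpose_one]
        calc (h0⁻¹)ᵀ * (h0ᵀ * J * h0) * h0⁻¹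
            = ((h0⁻¹)ᵀ * h0ᵀ) * J * (h0 * h0⁻¹) := by simp only [Matrix.mul_assoc]
          _ = J := by rw [h4, mul_nonsing_inv h0 hu, one_mul, mul_one]
      rw [h2] at h3
      exact h3
    · rw [det_nonsing_inv, hh.2]; simp
  exact so_mul J _ _ hg h1

end IrrAux

theorem irr : S_CD → S_IRR := by
  intro cd n J hJ hd Φ Ψ hZ
  by_cases h : ∀ h, IsSO J h → pm Φ h = 0
  · exact Or.inl h
  · right
    push Not at h
    obtain ⟨h0, hh0, hne⟩ := h
    intro g hg
    have h1 := IrrAux.P_all cd J hJ hd Φ (g * h0⁻¹) (IrrAux.inv_so J g h0 hg hh0) Ψ hZ h0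
      hh0 hne
    have hu : IsUnit h0.det := by rw [hh0.2]; exact isUnit_one
    rw [Matrix.mul_assoc, nonsing_inv_mul h0 hu, mul_one] at h1
    exact h1

end Pool.Agent.Y985.OR
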