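import Pool.Agent.Y985.OR.Stm
import Pool.Agent.Y119.PLM.Main

/-!
# Statements of the second group of jobs of the project OR: several families, symmetric and skew forms
-/

set_option autoImplicit false

namespace Pool.Agent.Y985.OR

open Matrix NumberField Filter
open Pool.Agent.Y119.PLM (MT Ix IsMon vt GalT pe DenseMon Big)
open Pool.Agent.Y890.MV (RegularM InnerM)
open Pool.Agent.Y890.SP (Qbar)
open Pool.Agent.Y124 (Cov)

/-- the tuples of isometries -/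
def IsoT {κ : Type} {n : κ → ℕ} (J g : MT n) : Prop := ∀ j, (g j)ᵀ * J j * g j = J j

/-- the tuples of isometries of determinant one -/
def IsoS {κ : Type} {n : κ → ℕ} (J g : MT n) : Prop := ∀ j, (g j)ᵀ * J j * g j = J j ∧ (g j).det = 1

/-- symmetric or skew forms -/
def SymSk {κ : Type} {n : κ → ℕ} (J : MT n) : Prop := ∀ j, ((J j)ᵀ = J j ∨ (J j)ᵀ = -J j) ∧ (J j).det ≠ 0

/-- OR-IRRK: the symplectic group is irreducible -/
def S_IRRK : Prop := ∀ (n : ℕ) (J : Mat n), Jᵀ = -J → J.det ≠ 0 → ∀ Φ Ψ : MvPolynomial (Fin n × Fin n) ℂ,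
  (∀ h, IsSO J h → pm Φ h * pm Ψ h = 0) → (∀ h, IsSO J h → pm Φ h = 0) ∨ (∀ h, IsSO J h → pm Ψ h = 0)

/-- symplectic matrices have determinant one -/
def S_DETK : Prop := ∀ (n : ℕ) (J : Mat n), Jᵀ = -J → J.det ≠ 0 → ∀ g, IsO J g → g.det = 1

/-- OR-IRRT: finite products of polynomials on the connected group of tuples -/
def S_IRRT : Prop := ∀ (κ : Type) [Fintype κ] [DecidableEq κ] (n : κ → ℕ) (J : MT n), SymSk J →
  ∀ (ι : Type) [Fintype ι] (Φ : ι → MvPolynomial (Ix n) ℂ), (∀ h, IsoS J h → ∏ i, pe (Φ i) h = 0) →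
  ∃ i, ∀ h, IsoS J h → pe (Φ i) h = 0

/-- OR-CONNT: rational functions with finitely many values are constant -/
def S_CONNT : Prop := ∀ (κ : Type) [Fintype κ] [DecidableEq κ] (n : κ → ℕ) (J : MT n), SymSk J →
  ∀ (Φ Ψ : MvPolynomial (Ix n) ℂ) (R : Polynomial ℂ) (m : ℕ), R ≠ 0 → R.natDegree ≤ m →
  (∀ h, IsoS J h → ∑ i ∈ Finset.range (m + 1), R.coeff i * pe Φ h ^ i * pe Ψ h ^ (m - i) = 0) →
  ∀ h, IsoS J h → pe Φ h * pe Ψ 1 = pe Φ 1 * pe Ψ h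

/-- sections of the torsors of a form over quadratic extensions -/
def Sec {X : Type} [Fintype X] {n : ℕ} (J : Mat n) (J' : Matrix (Fin n) (Fin n) (MvPolynomial X ℂ)) : Prop :=
  ∃ d : Fin n → MvPolynomial X ℂ, (∀ i, d i ≠ 0) ∧
    ∃ S : Matrix (Fin n) (Fin n) (MvPolynomial (Fin n) (MvPolynomial X ℂ)), ∀ (x : X → ℂ) (y : Fin n → ℂ),
      (∀ i, y i ^ 2 * MvPolynomial.eval x (d i) = 1) →
      (S.map (MvPolynomial.eval₂ (MvPolynomial.eval x) y))ᵀ * J'.map (MvPolynomial.eval x) *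
        S.map (MvPolynomial.eval₂ (MvPolynomial.eval x) y) = J

/-- OR-SECS -/
def S_SECS : Prop := ∀ (X : Type) [Fintype X] (n : ℕ) (J : Mat n)
  (J' : Matrix (Fin n) (Fin n) (MvPolynomial X ℂ)), Jᵀ = J → J'ᵀ = J' → J.det ≠ 0 → J'.det ≠ 0 → Sec J J'

/-- OR-SECK -/
def S_SECK : Prop := ∀ (X : Type) [Fintype X] (n : ℕ) (J : Mat n)
  (J' : Matrix (Fin n) (Fin n) (MvPolynomial X ℂ)), Jᵀ = -J → J'ᵀ = -J' → J.det ≠ 0 → J'.det ≠ 0 → Sec J J'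

/-- the matrices `1 + (t - 1) E` -/
def tau {κ : Type} {n : κ → ℕ} (E : MT n) (t : κ → ℂ) : MT n := fun j => 1 + (t j - 1) • E j

/-- the twist of the first column -/
def hat {κ : Type} {n : κ → ℕ} (E A : MT n) : MT n := A * tau E (fun j => (A j).det)

/-- admissible twists -/
def EOK {κ : Type} {n : κ → ℕ} (J E : MT n) : Prop := ∀ j,
  ((J j)ᵀ = -J j ∧ E j = 0) ∨
  ((J j)ᵀ = J j ∧ E j * E j = E j ∧ (∀ t : ℂ, (1 + (t - 1) • E j).det = t) ∧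
    (1 - (2 : ℂ) • E j)ᵀ * J j * (1 - (2 : ℂ) • E j) = J j)

/-- OR-E: existence of twists -/
def S_E : Prop := ∀ (κ : Type) (n : κ → ℕ) (J : MT n), SymSk J → ∃ E : MT n, EOK J E

/-- the entries of the twisted family, and the squares of the inverse determinants -/
noncomputable def fe {X κ : Type} {n : κ → ℕ} (E : MT n) (Y : (X → ℂ) → MT n) : Ix n ⊕ κ → (X → ℂ) → ℂ
  | Sum.inl i, x => hat E (Y x) i.1 i.2.1 i.2.2
  | Sum.inr j, x => ((Y x j).det)⁻¹ ^ 2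

/-- the families of the theorem -/
structure Fam {X κ : Type} [Fintype X] {n : κ → ℕ} (J : MT n)
    (J' : (j : κ) → Matrix (Fin (n j)) (Fin (n j)) (MvPolynomial X ℂ)) (U : Set (X → ℂ))
    (Y : (X → ℂ) → MT n) : Prop where
  pre : IsPreconnected U
  op : IsOpen U
  ne : U.Nonempty
  an : ∀ j a b, AnalyticOnNhd ℂ (fun x => Y x j a b) U
  ss : SymSk J
  rel : ∀ x ∈ U, ∀ j, (Y x j)ᵀ * (J' j).map (MvPolynomial.eval x) * Y x j = J j

/-- OR-DESCI: elimination of square roots, any index set -/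
def S_DESCI : Prop := ∀ (X I : Type) [Fintype X] [Fintype I] (d : I → MvPolynomial X ℂ) (V : Set (X → ℂ))
  (g : (X → ℂ) → ℂ) (p q : MvPolynomial I (MvPolynomial X ℂ)),
  (∃ x ∈ V, ∃ y : I → ℂ, (∀ i, y i ^ 2 * MvPolynomial.eval x (d i) = 1) ∧
    MvPolynomial.eval₂ (MvPolynomial.eval x) y q ≠ 0) →
  (∀ x ∈ V, ∃ y : I → ℂ, ∀ i, y i ^ 2 * MvPolynomial.eval x (d i) = 1) →
  (∀ x ∈ V, ∀ y : I → ℂ, (∀ i, y i ^ 2 * MvPolynomial.eval x (d i) = 1) →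
    MvPolynomial.eval₂ (MvPolynomial.eval x) y q * g x = MvPolynomial.eval₂ (MvPolynomial.eval x) y p) →
  ∃ p' q' : MvPolynomial X ℂ, q' ≠ 0 ∧ ∀ x ∈ V, MvPolynomial.eval x q' * g x = MvPolynomial.eval x p'

/-- OR-REG: regularity -/
def S_REG : Prop := ∀ (X κ : Type) [Fintype X] [Fintype κ] [DecidableEq κ] (n : κ → ℕ) (J : MT n)
  (J' : (j : κ) → Matrix (Fin (n j)) (Fin (n j)) (MvPolynomial X ℂ)) (U : Set (X → ℂ)) (Y : (X → ℂ) → MT n),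
  Fam J J' U Y → (∀ j, Sec (J j) (J' j)) → (∀ g, IsoT J g → g ∈ GalT U Y) → ∀ E, EOK J E →
  RegularM U (fe E Y)

/-- even and odd parts with respect to the variables of the second group -/
def PartOK {σ κ : Type} [Fintype κ] (part : Finset κ → (MvPolynomial (σ ⊕ κ) ℂ →ₗ[ℂ] MvPolynomial (σ ⊕ κ) ℂ)) :
    Prop :=
  (∀ (F : MvPolynomial (σ ⊕ κ) ℂ) (z : σ → ℂ) (w : κ → ℂ), MvPolynomial.eval (Sum.elim z w) F =
      ∑ S, (∏ j ∈ S, w j) * MvPolynomial.eval (Sum.elim z (fun j => w j ^ 2)) (part S F)) ∧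
  ∀ (F : MvPolynomial (σ ⊕ κ) ℂ) (z : σ → ℂ) (w : κ → ℂ), (∀ j, w j ≠ 0) →
    (∀ e : κ → ℤˣ, MvPolynomial.eval (Sum.elim z (fun j => ((e j : ℤ) : ℂ) * w j)) F = 0) →
    ∀ S, MvPolynomial.eval (Sum.elim z (fun j => w j ^ 2)) (part S F) = 0

/-- OR-PART -/
def S_PART : Prop := ∀ (σ κ : Type) [Fintype κ] [DecidableEq κ],
  ∃ part : Finset κ → (MvPolynomial (σ ⊕ κ) ℂ →ₗ[ℂ] MvPolynomial (σ ⊕ κ) ℂ), PartOK part

/-- exceptional points for systems given by polynomials -/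
def ExcB {X σ h r : Type} [Fintype h] (U : Set (X → ℂ)) (f : σ → (X → ℂ) → ℂ) (Lc : Set (X → ℂ)) (K : Type)
    [Field K] [NumberField K] (io : K →+* ℂ) (B : r → h → MvPolynomial σ ℂ) (A T : ℝ) : Set (X → K) :=
  {s | (∀ j, Y120.HtLe K T (s j)) ∧ (fun j => io (s j)) ∈ Lc ∧ ∃ c : h → 𝓞 K,
    (∀ i (φ : K →+* ℂ), ‖φ (c i : K)‖ ≤ T ^ A) ∧
    (∀ ρ, ∑ i, io (c i : K) * MvPolynomial.eval (fun y => f y (fun j => io (s j))) (B ρ i) = 0) ∧
    ¬ ∃ G : h → MvPolynomial X Qbar, (∀ i, MvPolynomial.aeval (fun j => io (s j)) (G i) = io (c i : K)) ∧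
      ∀ x ∈ U, ∀ ρ, ∑ i, MvPolynomial.aeval x (G i) * MvPolynomial.eval (fun y => f y x) (B ρ i) = 0}

/-- OR-WRAP: the engine for systems given by polynomials -/
def S_WRAP : Prop := ∀ (X σ : Type) [Fintype X] [DecidableEq X] [Nonempty X]
  [Fintype σ] [DecidableEq σ] (U : Set (X → ℂ)) (f : σ → (X → ℂ) → ℂ), IsPreconnected U →
    IsOpen U → U.Nonempty → (∀ i, AnalyticOnNhd ℂ (f i) U) → RegularM U f → ∀ (Lc : Set (X → ℂ)),
    IsCompact Lc → Lc ⊆ U → ∀ (δ : ℕ) (h r : Type) [Fintype h]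
    [DecidableEq h] [Fintype r] [DecidableEq r] (m : ℕ) (A ε : ℝ), 0 < ε → ∃ (D : ℕ) (C T₀ : ℝ), 0 ≤ C ∧ 2 ≤ T₀ ∧
      ∀ (K : Type) [Field K] [NumberField K], Module.finrank ℚ K ≤ m → ∀ (io : K →+* ℂ)
        (B : r → h → MvPolynomial σ ℂ), (∀ ρ i y, (B ρ i).degreeOf y ≤ δ) → ∀ (T : ℝ), T₀ ≤ T →
        Cov D ⌊C * T ^ ε⌋₊ ((fun (s : X → K) j => io (s j)) '' ExcB U f Lc K io B A T)

/-- the exceptional points of the theorem: `s` in `K ^ X`, of height at most `T`, in the compact set `InnerM U k`, such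
that some polynomial `P` of partial degrees at most `k`, whose coefficients are combinations `∑ ξ i * c i` with integers
`c i` of `K` all of whose conjugates are at most `T ^ k`, vanishes at the values `Y j (s)` but not at all tuples of
matrices `A` with `(A j)ᵀ * J' j (s) * A j = J j`, `det (A j) = det (Y j (s))` for symmetric `J j` -/
def ExcO {X κ : Type} [Fintype X] {n : κ → ℕ} (J : MT n)
    (J' : (j : κ) → Matrix (Fin (n j)) (Fin (n j)) (MvPolynomial X ℂ)) (U : Set (X → ℂ)) (Y : (X → ℂ) → MT n)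
    (K : Type) [Field K] [NumberField K] (io : K →+* ℂ) (k : ℕ) (ξ : Fin k → ℂ) (T : ℝ) : Set (X → K) :=
  {s | (∀ i, Y120.HtLe K T (s i)) ∧ (fun i => io (s i)) ∈ InnerM U k ∧ ∃ P : MvPolynomial (Ix n) ℂ,
    (∀ y, P.degreeOf y ≤ k) ∧
    (∀ m, ∃ c : Fin k → 𝓞 K, (∀ i (φ : K →+* ℂ), ‖φ (c i : K)‖ ≤ T ^ (k : ℝ)) ∧
      P.coeff m = ∑ i, ξ i * io (c i : K)) ∧
    pe P (Y fun i => io (s i)) = 0 ∧
    ∃ A : MT n, (∀ j, (A j)ᵀ * (J' j).map (MvPolynomial.eval fun i => io (s i)) * A j = J j) ∧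
      (∀ j, (J j)ᵀ = J j → (A j).det = (Y (fun i => io (s i)) j).det) ∧ pe P A ≠ 0}

/-- the monomials of the translates: `X ^ e` at `z * tau (g w)` -/
noncomputable def mono {κ : Type} [Fintype κ] {n : κ → ℕ} (E : MT n) {k : ℕ} (e : Ix n → Fin (k + 1)) (g : κ → ℤˣ) :
    MvPolynomial (Ix n ⊕ κ) ℂ :=
  ∏ i : Ix n, (∑ c, MvPolynomial.X (Sum.inl ⟨i.1, i.2.1, c⟩) *
    (MvPolynomial.C ((1 : Matrix (Fin (n i.1)) (Fin (n i.1)) ℂ) c i.2.2) +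
      (MvPolynomial.C (((g i.1 : ℤ) : ℂ)) * MvPolynomial.X (Sum.inr i.1) - 1) *
        MvPolynomial.C (E i.1 c i.2.2))) ^ (e i : ℕ)

open Classical in
/-- the systems attached to a set `Z` of signs -/
noncomputable def Bsys {κ : Type} [Fintype κ] {n : κ → ℕ} (E : MT n)
    (part : Finset κ → (MvPolynomial (Ix n ⊕ κ) ℂ →ₗ[ℂ] MvPolynomial (Ix n ⊕ κ) ℂ)) (k : ℕ) (ξ : Fin k → ℂ)
    (Z : Finset (κ → ℤˣ)) (ρ : ((κ → ℤˣ) → (κ → ℤˣ)) × Finset κ)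
    (p : (κ → ℤˣ) → (Ix n → Fin (k + 1)) × Fin k) : MvPolynomial (Ix n ⊕ κ) ℂ :=
  if ∀ g, g⁻¹ * ρ.1 g ∈ Z then (∏ g, ξ (p g).2) • part ρ.2 (∏ g, mono E (p g).1 (ρ.1 g)) else 0

/-- OR-EXC: the exceptional points lie in the union of the exceptional sets of the systems -/
def S_EXC : Prop := ∀ (X κ : Type) [Fintype X] [Fintype κ] [DecidableEq κ] (n : κ → ℕ) (J : MT n)
  (J' : (j : κ) → Matrix (Fin (n j)) (Fin (n j)) (MvPolynomial X ℂ)) (U : Set (X → ℂ)) (Y : (X → ℂ) → MT n),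
  Fam J J' U Y → (∀ g, IsoT J g → g ∈ GalT U Y) → ∀ E, EOK J E →
  ∀ part : Finset κ → (MvPolynomial (Ix n ⊕ κ) ℂ →ₗ[ℂ] MvPolynomial (Ix n ⊕ κ) ℂ),
    PartOK part →
  ∀ (K : Type) [Field K] [NumberField K] (io : K →+* ℂ) (k : ℕ) (ξ : Fin k → ℂ) (T : ℝ), 0 < k → 1 ≤ T →
    ExcO J J' U Y K io k ξ T ⊆ ⋃ Z : Finset (κ → ℤˣ),
      ExcB U (fe E Y) (InnerM U k) K io (Bsys E part k ξ Z) (k * Fintype.card (κ → ℤˣ)) T

/-- few exceptional points: there is `ω → ∞` such that for all large `T`, all number fields `K` of degree at most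
`ω T`, all embeddings and all complex numbers `ξ i`, `i < ω T`, the exceptional points lie on at most `T ^ (1 / ω T)`
hypersurfaces of degree at most `T ^ (1 / ω T)`, and there are at most `T ^ (1 / ω T) * N ^ (|X| - 1)` of them, `N` being
the number of elements of `K` of height at most `T` -/
def FewO {X κ : Type} [Fintype X] {n : κ → ℕ} (J : MT n)
    (J' : (j : κ) → Matrix (Fin (n j)) (Fin (n j)) (MvPolynomial X ℂ)) (U : Set (X → ℂ)) (Y : (X → ℂ) → MT n) : Prop :=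
  ∃ (ω : ℝ → ℕ) (T₀ : ℝ), Tendsto ω atTop atTop ∧ Monotone ω ∧ ∀ T, T₀ ≤ T → 0 < ω T ∧
    ∀ (K : Type) [Field K] [NumberField K], Module.finrank ℚ K ≤ ω T → ∀ (io : K →+* ℂ) (ξ : Fin (ω T) → ℂ),
      Cov ⌊T ^ ((ω T : ℝ)⁻¹)⌋₊ ⌊T ^ ((ω T : ℝ)⁻¹)⌋₊
        ((fun (s : X → K) i => io (s i)) '' ExcO J J' U Y K io (ω T) ξ T) ∧
      (ExcO J J' U Y K io (ω T) ξ T).Finite ∧
      ((ExcO J J' U Y K io (ω T) ξ T).ncard : ℝ) ≤
        T ^ ((ω T : ℝ)⁻¹) * ({x : K | Y120.HtLe K T x}.ncard : ℝ) ^ (Fintype.card X - 1)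

/-- OR-FIN -/
def S_FIN : Prop := ∀ (X κ : Type) [Fintype X] [DecidableEq X] [Nonempty X] [Fintype κ] [DecidableEq κ]
  (n : κ → ℕ) (J : MT n) (J' : (j : κ) → Matrix (Fin (n j)) (Fin (n j)) (MvPolynomial X ℂ)) (U : Set (X → ℂ))
  (Y : (X → ℂ) → MT n), Fam J J' U Y → DenseMon U Y J → FewO J J' U Y

/-- big orthogonal monodromy at the place `j`: the monodromy contains tuples `(1, .., h, .., 1)` (`h` in position `j`)
with reflections `h` without a common invariant subspace, and two such tuples whose product has infinite order -/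
def BigO {X κ : Type} [Fintype X] [DecidableEq κ] {n : κ → ℕ} (J : MT n) (U : Set (X → ℂ)) (Y : (X → ℂ) → MT n)
    (j : κ) : Prop :=
  (∀ W : Submodule ℂ (Fin (n j) → ℂ), (∀ v, bl (J j) v v ≠ 0 → IsMon U Y (Pi.mulSingle j (refl (J j) v)) →
    ∀ x ∈ W, refl (J j) v *ᵥ x ∈ W) → W = ⊥ ∨ W = ⊤) ∧
  ∃ u v, bl (J j) u u ≠ 0 ∧ bl (J j) v v ≠ 0 ∧ IsMon U Y (Pi.mulSingle j (refl (J j) u)) ∧
    IsMon U Y (Pi.mulSingle j (refl (J j) v)) ∧ ∀ m : ℕ, 0 < m → (refl (J j) u * refl (J j) v) ^ m ≠ 1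

/-- OR-DENSE: the criterion of density, symmetric and skew forms -/
def S_DENSE : Prop := ∀ (X κ : Type) [Fintype X] [Fintype κ] [DecidableEq κ]
  (n : κ → ℕ) (J : MT n) (J' : (j : κ) → Matrix (Fin (n j)) (Fin (n j)) (MvPolynomial X ℂ)) (U : Set (X → ℂ))
  (Y : (X → ℂ) → MT n), Fam J J' U Y →
  (∀ j, ((J j)ᵀ = J j ∧ BigO J U Y j) ∨ ((J j)ᵀ = -J j ∧ Big U Y j)) → DenseMon U Y J

end Pool.Agent.Y985.OR
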