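import Pool.Agent.Y985.OR.Irr
import Pool.Agent.Y985.OR.Stm2
import Pool.Agent.Y119.PL.Irr

set_option autoImplicit false

/-! OR-IRRK: the symplectic group is irreducible, symplectic matrices have determinant one. -/

namespace Pool.Agent.Y985.OR

open Matrix

namespace IrrkAux

open Pool.Agent.Y119.HY (tv om om_eq om_self tv_isom)
open IrrAux (P P_one P_mul so_mul Z inv_so)

variable {n : ℕ}

theorem tv_det (J : Mat n) (hJ : Jᵀ = -J) (v : Fin n → ℂ) (s : ℂ) : (tv J v s).det = 1 := by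
  have h1 : tv J v s = 1 + replicateCol Unit (s • v) * replicateRow Unit (v ᵥ* J) := by
    rw [← vecMulVec_eq, smul_vecMulVec, tv]
  rw [h1, det_one_add_replicateCol_mul_replicateRow, dotProduct_smul, ← om_eq, om_self hJ]
  simp

theorem tv_so (J : Mat n) (hJ : Jᵀ = -J) (v : Fin n → ℂ) (s : ℂ) : IsSO J (tv J v s) :=
  ⟨tv_isom hJ v s, tv_det J hJ v s⟩

theorem eval_aeval {σ : Type} (G : σ → Polynomial ℂ) (Φ : MvPolynomial σ ℂ) (c : ℂ) :
    (MvPolynomial.aeval G Φ).eval c = MvPolynomial.eval (fun i => (G i).eval c) Φ := by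
  induction Φ using MvPolynomial.induction_on with
  | C a => simp
  | add p r hp hr => rw [map_add, Polynomial.eval_add, hp, hr, map_add]
  | mul_X p i hp =>
    rw [map_mul, Polynomial.eval_mul, hp, map_mul, MvPolynomial.aeval_X, MvPolynomial.eval_X]

/-- the entries of `tv J v (c s) * y` as polynomials in `c` -/
noncomputable def G (J : Mat n) (v : Fin n → ℂ) (s : ℂ) (y : Mat n) (ij : Fin n × Fin n) :
    Polynomial ℂ :=
  Polynomial.C (y ij.1 ij.2) +
    Polynomial.X * Polynomial.C ((s • (vecMulVec v (v ᵥ* J) * y)) ij.1 ij.2)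

theorem G_eval (J : Mat n) (v : Fin n → ℂ) (s : ℂ) (y : Mat n) (c : ℂ) (ij : Fin n × Fin n) :
    (G J v s y ij).eval c = (tv J v (c * s) * y) ij.1 ij.2 := by
  unfold G tv
  rw [add_mul, one_mul, smul_mul_assoc, Matrix.add_apply, Matrix.smul_apply, Matrix.smul_apply]
  simp only [Polynomial.eval_add, Polynomial.eval_C, Polynomial.eval_mul, Polynomial.eval_X,
    smul_eq_mul]
  ring

theorem pm_G (J : Mat n) (v : Fin n → ℂ) (s : ℂ) (y : Mat n) (c : ℂ)
    (Φ : MvPolynomial (Fin n × Fin n) ℂ) :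
    (MvPolynomial.aeval (G J v s y) Φ).eval c = pm Φ (tv J v (c * s) * y) := by
  rw [eval_aeval, pm]
  congr 1
  exact congrArg MvPolynomial.eval (funext fun ij => G_eval J v s y c ij)

theorem tv_zero (J : Mat n) (v : Fin n → ℂ) : tv J v 0 = 1 := by
  unfold tv
  rw [zero_smul, add_zero]

theorem P_tv (J : Mat n) (hJ : Jᵀ = -J) (Φ : MvPolynomial (Fin n × Fin n) ℂ)
    (v : Fin n → ℂ) (s : ℂ) : P J Φ (tv J v s) := by
  intro Ψ hZ y hy hΦ
  have key : MvPolynomial.aeval (G J v s y) Φ * MvPolynomial.aeval (G J v s y) Ψ = 0 := by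
    apply Polynomial.funext
    intro c
    rw [Polynomial.eval_mul, pm_G, pm_G, Polynomial.eval_zero]
    exact hZ _ (so_mul J _ _ (tv_so J hJ v (c * s)) hy)
  rcases mul_eq_zero.1 key with h | h
  · exfalso
    apply hΦ
    have h1 := pm_G J v s y 0 Φ
    rw [h, Polynomial.eval_zero, zero_mul, tv_zero, one_mul] at h1
    exact h1.symm
  · have h1 := pm_G J v s y 1 Ψ
    rw [h, Polynomial.eval_zero, one_mul] at h1
    exact h1.symm

theorem P_all (J : Mat n) (hJ : Jᵀ = -J) (hd : J.det ≠ 0)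
    (Φ : MvPolynomial (Fin n × Fin n) ℂ) (g : Mat n) (hg : gᵀ * J * g = J) : P J Φ g :=
  Pool.Agent.Y119.PL.sp_of_tv hJ hd
    { carrier := {a | P J Φ a}
      one_mem' := P_one J Φ
      mul_mem' := fun {a b} ha hb => P_mul J Φ a b ha hb } (fun v s => P_tv J hJ Φ v s) g hg

end IrrkAux

theorem detk : S_DETK := by
  intro n J hJ hd g hg
  exact Pool.Agent.Y119.PL.sp_of_tv hJ hd
    { carrier := {a : Mat n | a.det = 1}
      one_mem' := det_one
      mul_mem' := fun {a b} ha hb => by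
        show (a * b).det = 1
        rw [det_mul, show a.det = 1 from ha, show b.det = 1 from hb, one_mul] }
    (fun v s => IrrkAux.tv_det J hJ v s) g hg

theorem irrk : S_IRRK := by
  intro n J hJ hd Φ Ψ hZ
  by_cases h : ∀ h, IsSO J h → pm Φ h = 0
  · exact Or.inl h
  · right
    push Not at h
    obtain ⟨h0, hh0, hne⟩ := h
    intro g hg
    have h1 := IrrkAux.P_all J hJ hd Φ (g * h0⁻¹) (IrrAux.inv_so J g h0 hg hh0).1 Ψ hZ h0
      hh0 hne
    have hu : IsUnit h0.det := by rw [hh0.2]; exact isUnit_one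
    rw [Matrix.mul_assoc, nonsing_inv_mul h0 hu, mul_one] at h1
    exact h1

end Pool.Agent.Y985.OR
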