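import Pool.Agent.Y985.OR.Stm2

/-!
# Project OR, task OR-IRRT: the connected group of tuples is irreducible

Job 8823 (helper43, poster helper985).
-/

set_option autoImplicit false

namespace Pool.Agent.Y985.OR

open Matrix
open Pool.Agent.Y119.PLM (MT Ix pe tl pe_tl)

namespace IrrtAux

section
variable {κ : Type} {n : κ → ℕ} {J : MT n}

lemma isoS_one : IsoS J 1 := by
  intro j
  rw [Pi.one_apply, transpose_one, one_mul, mul_one, det_one]
  exact ⟨rfl, rfl⟩

lemma isoS_mul {a b : MT n} (ha : IsoS J a) (hb : IsoS J b) : IsoS J (a * b) := by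
  intro j
  rw [Pi.mul_apply, transpose_mul, det_mul, (ha j).2, (hb j).2]
  refine ⟨?_, mul_one _⟩
  calc (b j)ᵀ * (a j)ᵀ * J j * (a j * b j) = (b j)ᵀ * ((a j)ᵀ * J j * a j) * b j := by
        simp only [Matrix.mul_assoc]
    _ = J j := by rw [(ha j).1, (hb j).1]

lemma isoS_inv {a : MT n} (ha : IsoS J a) :
    ∃ b : MT n, IsoS J b ∧ ∀ c : MT n, c * b * a = c := by
  have hu : ∀ j, IsUnit (a j).det := fun j => by
    rw [(ha j).2]
    exact isUnit_one
  refine ⟨fun j => (a j)⁻¹, fun j => ⟨?_, ?_⟩, fun c => ?_⟩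
  · have h1 := (ha j).1
    calc ((a j)⁻¹)ᵀ * J j * (a j)⁻¹ = ((a j)⁻¹)ᵀ * ((a j)ᵀ * J j * a j) * (a j)⁻¹ := by rw [h1]
      _ = (((a j)⁻¹)ᵀ * (a j)ᵀ) * J j * (a j * (a j)⁻¹) := by simp only [Matrix.mul_assoc]
      _ = J j := by
        rw [← transpose_mul, mul_nonsing_inv _ (hu j), transpose_one, one_mul, mul_one]
  · rw [det_nonsing_inv, (ha j).2, Ring.inverse_one]
  · funext j
    rw [Pi.mul_apply, Pi.mul_apply, Matrix.mul_assoc, nonsing_inv_mul _ (hu j), mul_one]

lemma isoS_single [DecidableEq κ] (j : κ) {x : Matrix (Fin (n j)) (Fin (n j)) ℂ}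
    (hx : IsSO (J j) x) : IsoS J (Pi.mulSingle j x) := by
  intro k
  by_cases hk : k = j
  · subst hk
    rw [Pi.mulSingle_eq_same]
    exact hx
  · rw [Pi.mulSingle_eq_of_ne hk, transpose_one, one_mul, mul_one, det_one]
    exact ⟨rfl, rfl⟩

/-- restriction of a polynomial to one factor -/
lemma restr [DecidableEq κ] (Φ : MvPolynomial (Ix n) ℂ) (j : κ) (y : MT n) :
    ∃ Φ' : MvPolynomial (Fin (n j) × Fin (n j)) ℂ,
      ∀ x : Mat (n j), pm Φ' x = pe Φ (Pi.mulSingle j x * y) := by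
  have h1 : ∀ i : Ix n, ∃ P : MvPolynomial (Fin (n j) × Fin (n j)) ℂ,
      ∀ x : Mat (n j), pm P x = (Pi.mulSingle j x * y : MT n) i.1 i.2.1 i.2.2 := by
    rintro ⟨k, a, b⟩
    by_cases hk : k = j
    · subst hk
      refine ⟨∑ c, MvPolynomial.X (a, c) * MvPolynomial.C (y k c b), fun x => ?_⟩
      unfold pm
      rw [map_sum, Pi.mul_apply, Pi.mulSingle_eq_same, Matrix.mul_apply]
      refine Finset.sum_congr rfl fun c _ => ?_
      rw [map_mul, MvPolynomial.eval_X, MvPolynomial.eval_C]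
    · refine ⟨MvPolynomial.C (y k a b), fun x => ?_⟩
      unfold pm
      rw [MvPolynomial.eval_C, Pi.mul_apply, Pi.mulSingle_eq_of_ne hk, one_mul]
  choose P hP using h1
  refine ⟨MvPolynomial.bind₁ P Φ, fun x => ?_⟩
  unfold pm pe
  rw [← MvPolynomial.coe_aeval_eq_eval, ← MvPolynomial.coe_aeval_eq_eval]
  simp only [RingHom.coe_coe]
  rw [MvPolynomial.aeval_bind₁]
  congr 2
  funext i
  exact hP i x

lemma isSO_one {m : ℕ} (J : Mat m) : IsSO J 1 := by
  unfold IsSO
  rw [transpose_one, one_mul, mul_one, det_one]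
  exact ⟨rfl, rfl⟩

variable [Fintype κ] [DecidableEq κ]

/-- the property of the proof -/
def PP (J : MT n) (Φ : MvPolynomial (Ix n) ℂ) (a : MT n) : Prop :=
  ∀ Ψ : MvPolynomial (Ix n) ℂ, (∀ h, IsoS J h → pe Φ h * pe Ψ h = 0) →
    ∀ y, IsoS J y → pe Φ y ≠ 0 → pe Ψ (a * y) = 0

omit [Fintype κ] [DecidableEq κ] in
lemma pp_one (Φ : MvPolynomial (Ix n) ℂ) : PP J Φ 1 := by
  intro Ψ h y hy hy0
  rw [one_mul]
  exact (mul_eq_zero.1 (h y hy)).resolve_left hy0

omit [Fintype κ] [DecidableEq κ] in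
lemma pp_mul {Φ : MvPolynomial (Ix n) ℂ} {a b : MT n} (ha : PP J Φ a) (hb : PP J Φ b) :
    PP J Φ (a * b) := by
  intro Ψ h y hy hy0
  have h1 := hb (tl a Ψ) (fun x hx => by
    by_cases h0 : pe Φ x = 0
    · rw [h0, zero_mul]
    · rw [pe_tl, ha Ψ h x hx h0, mul_zero]) y hy hy0
  rw [pe_tl, ← mul_assoc] at h1
  exact h1

omit [Fintype κ] in
lemma pp_single (hI : S_IRR) (hK : S_IRRK) (hJ : SymSk J) (Φ : MvPolynomial (Ix n) ℂ) (j : κ)
    {g : Matrix (Fin (n j)) (Fin (n j)) ℂ} (hg : IsSO (J j) g) : PP J Φ (Pi.mulSingle j g) := by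
  intro Ψ h y hy hy0
  obtain ⟨Φ', hΦ'⟩ := restr Φ j y
  obtain ⟨Ψ', hΨ'⟩ := restr Ψ j y
  have h1 : ∀ x, IsSO (J j) x → pm Φ' x * pm Ψ' x = 0 := by
    intro x hx
    rw [hΦ', hΨ']
    exact h _ (isoS_mul (isoS_single j hx) hy)
  have h2 : (∀ x, IsSO (J j) x → pm Φ' x = 0) ∨ (∀ x, IsSO (J j) x → pm Ψ' x = 0) := by
    rcases (hJ j).1 with h3 | h3
    · exact hI (n j) (J j) h3 (hJ j).2 Φ' Ψ' h1
    · exact hK (n j) (J j) h3 (hJ j).2 Φ' Ψ' h1
  rcases h2 with h3 | h3
  · exfalso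
    have h4 := h3 1 (isSO_one _)
    rw [hΦ', Pi.mulSingle_one, one_mul] at h4
    exact hy0 h4
  · rw [← hΨ']
    exact h3 g hg

lemma pp_all (hI : S_IRR) (hK : S_IRRK) (hJ : SymSk J) (Φ : MvPolynomial (Ix n) ℂ) {g : MT n}
    (hg : IsoS J g) : PP J Φ g := by
  have h1 : ∀ s : Finset κ, PP J Φ (fun k => if k ∈ s then g k else 1 : MT n) := by
    intro s
    induction s using Finset.induction_on with
    | empty =>
      have : (fun k => if k ∈ (∅ : Finset κ) then g k else 1 : MT n) = 1 := by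
        funext k
        simp
      rw [this]
      exact pp_one Φ
    | insert j s hj ih =>
      have : (fun k => if k ∈ insert j s then g k else 1 : MT n) =
          (fun k => if k ∈ s then g k else 1 : MT n) * Pi.mulSingle j (g j) := by
        funext k
        rw [Pi.mul_apply]
        by_cases hk : k = j
        · subst hk
          rw [Pi.mulSingle_eq_same, if_pos (Finset.mem_insert_self _ _), if_neg hj, one_mul]
        · rw [Pi.mulSingle_eq_of_ne hk, mul_one]
          simp [hk]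
      rw [this]
      exact pp_mul ih (pp_single hI hK hJ Φ j (hg j))
  have h2 := h1 Finset.univ
  simp only [Finset.mem_univ, if_true] at h2
  exact h2

lemma two (hI : S_IRR) (hK : S_IRRK) (hJ : SymSk J) (Φ Ψ : MvPolynomial (Ix n) ℂ)
    (h : ∀ x, IsoS J x → pe Φ x * pe Ψ x = 0) :
    (∀ x, IsoS J x → pe Φ x = 0) ∨ (∀ x, IsoS J x → pe Ψ x = 0) := by
  by_cases h0 : ∀ x, IsoS J x → pe Φ x = 0
  · exact Or.inl h0
  · right
    push Not at h0
    obtain ⟨y, hy, hy0⟩ := h0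
    intro x hx
    obtain ⟨b, hb, hba⟩ := isoS_inv hy
    have h1 := pp_all hI hK hJ Φ (isoS_mul hx hb) Ψ h y hy hy0
    rwa [hba] at h1

end

end IrrtAux

theorem irrt : S_IRR → S_IRRK → S_IRRT := by
  classical
  intro hI hK κ _ _ n J hJ ι _ Φ h
  have key : ∀ s : Finset ι, (∀ h, IsoS J h → ∏ i ∈ s, pe (Φ i) h = 0) →
      ∃ i, ∀ h, IsoS J h → pe (Φ i) h = 0 := by
    intro s
    induction s using Finset.induction_on with
    | empty =>
      intro h1
      have := h1 1 IrrtAux.isoS_one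
      rw [Finset.prod_empty] at this
      exact absurd this one_ne_zero
    | insert a s ha ih =>
      intro h1
      have h2 : ∀ x, IsoS J x → pe (Φ a) x * pe (∏ i ∈ s, Φ i) x = 0 := by
        intro x hx
        have h3 := h1 x hx
        rw [Finset.prod_insert ha] at h3
        have h4 : pe (∏ i ∈ s, Φ i) x = ∏ i ∈ s, pe (Φ i) x := by
          unfold pe
          rw [map_prod]
        rw [h4]
        exact h3
      rcases IrrtAux.two hI hK hJ _ _ h2 with h3 | h3
      · exact ⟨a, h3⟩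
      · apply ih
        intro x hx
        have h4 : pe (∏ i ∈ s, Φ i) x = ∏ i ∈ s, pe (Φ i) x := by
          unfold pe
          rw [map_prod]
        rw [← h4]
        exact h3 x hx
  exact key Finset.univ h

end Pool.Agent.Y985.OR
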