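import Pool.Agent.Y985.OR.Stm2

set_option autoImplicit false

namespace Pool.Agent.Y985.OR

namespace PartB

open MvPolynomial

variable {σ κ : Type} [Fintype κ] [DecidableEq κ]

/-- the odd places -/
def par (m : (σ ⊕ κ) →₀ ℕ) : Finset κ := Finset.univ.filter fun j => m (Sum.inr j) % 2 = 1

/-- halving -/
noncomputable def hf (m : (σ ⊕ κ) →₀ ℕ) : (σ ⊕ κ) →₀ ℕ :=
  Finsupp.onFinset m.support (fun o => Sum.elim (fun i => m (Sum.inl i)) (fun j => m (Sum.inr j) / 2) o) (by
    intro o ho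
    rw [Finsupp.mem_support_iff]
    rcases o with i | j
    · exact ho
    · intro h0
      apply ho
      simp [h0])

/-- the parts -/
noncomputable def prt (S : Finset κ) : MvPolynomial (σ ⊕ κ) ℂ →ₗ[ℂ] MvPolynomial (σ ⊕ κ) ℂ :=
  (basisMonomials (σ ⊕ κ) ℂ).constr ℂ fun m => if par m = S then monomial (hf m) 1 else 0

lemma prt_monomial (S : Finset κ) (m : (σ ⊕ κ) →₀ ℕ) :
    prt S (monomial m (1 : ℂ)) = if par m = S then monomial (hf m) 1 else 0 := by
  have h := (basisMonomials (σ ⊕ κ) ℂ).constr_basis ℂ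
    (fun m => if par m = S then (monomial (hf m) 1 : MvPolynomial (σ ⊕ κ) ℂ) else 0) m
  rw [coe_basisMonomials] at h
  exact h

lemma mon_eval (m : (σ ⊕ κ) →₀ ℕ) (z : σ → ℂ) (w : κ → ℂ) :
    eval (Sum.elim z w) (monomial m (1 : ℂ)) =
      (∏ j ∈ par m, w j) * eval (Sum.elim z fun j => w j ^ 2) (monomial (hf m) (1 : ℂ)) := by
  classical
  rw [eval_monomial, eval_monomial, one_mul, one_mul]
  have h1 : (hf m).prod (fun n e => (Sum.elim z fun j => w j ^ 2) n ^ e) =
      ∏ o ∈ m.support, (Sum.elim z fun j => w j ^ 2) o ^ (hf m o) := by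
    refine Finsupp.prod_of_support_subset _ ?_ _ fun _ _ => pow_zero _
    exact Finsupp.support_onFinset_subset
  rw [h1]
  have h2 : ∏ j ∈ par m, w j = ∏ o ∈ m.support, Sum.elim (fun _ => 1) (fun j => w j ^ (m (Sum.inr j) % 2)) o := by
    have h3 : ∏ j ∈ par m, w j =
        ∏ o ∈ (par m).map ⟨Sum.inr, Sum.inr_injective⟩,
          Sum.elim (fun _ : σ => (1 : ℂ)) (fun j => w j ^ (m (Sum.inr j) % 2)) o := by
      rw [Finset.prod_map]
      refine Finset.prod_congr rfl fun j hj => ?_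
      have : m (Sum.inr j) % 2 = 1 := (Finset.mem_filter.1 hj).2
      simp [this]
    rw [h3]
    refine Finset.prod_subset ?_ ?_
    · intro o ho
      obtain ⟨j, hj, rfl⟩ := Finset.mem_map.1 ho
      have : m (Sum.inr j) % 2 = 1 := (Finset.mem_filter.1 hj).2
      rw [Finsupp.mem_support_iff]
      show m (Sum.inr j) ≠ 0
      omega
    · intro o _ ho
      rcases o with i | j
      · rfl
      · have hj : j ∉ par m := fun hj => ho (Finset.mem_map.2 ⟨j, hj, rfl⟩)
        have : ¬ m (Sum.inr j) % 2 = 1 := fun h => hj (Finset.mem_filter.2 ⟨Finset.mem_univ _, h⟩)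
        have h0 : m (Sum.inr j) % 2 = 0 := by omega
        simp [h0]
  rw [h2, ← Finset.prod_mul_distrib]
  unfold Finsupp.prod
  refine Finset.prod_congr rfl fun o _ => ?_
  rcases o with i | j
  · simp [hf]
  · simp only [hf, Finsupp.onFinset_apply, Sum.elim_inr]
    rw [← pow_mul, ← pow_add]
    congr 1
    omega

lemma part1 (F : MvPolynomial (σ ⊕ κ) ℂ) (z : σ → ℂ) (w : κ → ℂ) : eval (Sum.elim z w) F =
    ∑ S, (∏ j ∈ S, w j) * eval (Sum.elim z (fun j => w j ^ 2)) (prt S F) := by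
  induction F using MvPolynomial.induction_on' with
  | monomial m a =>
    have h1 : (monomial m a : MvPolynomial (σ ⊕ κ) ℂ) = a • monomial m 1 := by
      rw [smul_monomial, smul_eq_mul, mul_one]
    rw [h1]
    simp only [LinearMap.map_smul, prt_monomial, smul_eval]
    rw [mon_eval, Finset.sum_eq_single (par m)]
    · rw [if_pos rfl]
      ring
    · intro S _ hS
      rw [if_neg (Ne.symm hS)]
      simp
    · intro h
      exact absurd (Finset.mem_univ _) h
  | add F G hF hG =>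
    simp only [LinearMap.map_add, map_add, mul_add, Finset.sum_add_distrib]
    rw [hF, hG]

/-- characters -/
noncomputable def chi (S : Finset κ) (e : κ → ℤˣ) : ℂ := ∏ j ∈ S, ((e j : ℤ) : ℂ)

lemma chi_mul_self (S : Finset κ) (e : κ → ℤˣ) : chi S e * chi S e = 1 := by
  unfold chi
  rw [← Finset.prod_mul_distrib]
  refine Finset.prod_eq_one fun j _ => ?_
  rcases Int.units_eq_one_or (e j) with h | h <;> rw [h] <;> norm_num

lemma chi_flip (S : Finset κ) (j : κ) (e : κ → ℤˣ) :
    chi S (Pi.mulSingle j (-1) * e) = (if j ∈ S then -1 else 1) * chi S e := by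
  unfold chi
  have h1 : ∀ i, (((Pi.mulSingle j (-1) * e : κ → ℤˣ) i : ℤ) : ℂ) = (if i = j then -1 else 1) * ((e i : ℤ) : ℂ) := by
    intro i
    rw [Pi.mul_apply]
    by_cases hi : i = j
    · subst hi
      simp
    · rw [Pi.mulSingle_eq_of_ne hi, if_neg hi]
      simp
  simp only [h1]
  rw [Finset.prod_mul_distrib, Finset.prod_ite_eq']

lemma chi_orth (S T : Finset κ) (h : S ≠ T) : ∑ e, chi S e * chi T e = 0 := by
  obtain ⟨j, hj⟩ : ∃ j, ¬ (j ∈ S ↔ j ∈ T) := by
    by_contra hcon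
    push Not at hcon
    exact h (Finset.ext hcon)
  have h1 : ∑ e, chi S e * chi T e = -∑ e, chi S e * chi T e := by
    conv_lhs => rw [← Equiv.sum_comp (Equiv.mulLeft (Pi.mulSingle j (-1) : κ → ℤˣ))]
    rw [← Finset.sum_neg_distrib]
    refine Finset.sum_congr rfl fun e _ => ?_
    rw [Equiv.coe_mulLeft, chi_flip, chi_flip]
    by_cases h1 : j ∈ S <;> by_cases h2 : j ∈ T
    · exact absurd (iff_of_true h1 h2) hj
    · rw [if_pos h1, if_neg h2]; ring
    · rw [if_neg h1, if_pos h2]; ring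
    · exact absurd (iff_of_false h1 h2) hj
  have h2 : (2 : ℂ) * ∑ e, chi S e * chi T e = 0 := by linear_combination h1
  exact (mul_eq_zero.1 h2).resolve_left two_ne_zero

lemma part2 (F : MvPolynomial (σ ⊕ κ) ℂ) (z : σ → ℂ) (w : κ → ℂ) (hw : ∀ j, w j ≠ 0)
    (h : ∀ e : κ → ℤˣ, eval (Sum.elim z (fun j => ((e j : ℤ) : ℂ) * w j)) F = 0) (S : Finset κ) :
    eval (Sum.elim z (fun j => w j ^ 2)) (prt S F) = 0 := by
  have h1 : ∀ e : κ → ℤˣ, ∑ T, chi T e * ((∏ j ∈ T, w j) * eval (Sum.elim z (fun j => w j ^ 2)) (prt T F)) = 0 := by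
    intro e
    have h2 := h e
    rw [part1] at h2
    rw [← h2]
    refine Finset.sum_congr rfl fun T _ => ?_
    rw [Finset.prod_mul_distrib]
    have h3 : (fun j => (((e j : ℤ) : ℂ) * w j) ^ 2) = fun j => w j ^ 2 := by
      funext j
      rcases Int.units_eq_one_or (e j) with h | h <;> rw [h] <;> simp
    rw [h3]
    unfold chi
    ring
  have h2 : ∑ e, chi S e * ∑ T, chi T e * ((∏ j ∈ T, w j) * eval (Sum.elim z (fun j => w j ^ 2)) (prt T F)) = 0 :=
    Finset.sum_eq_zero fun e _ => by rw [h1 e, mul_zero]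
  simp only [Finset.mul_sum] at h2
  rw [Finset.sum_comm] at h2
  rw [Finset.sum_eq_single S] at h2
  · have h3 : ∀ e : κ → ℤˣ, chi S e * (chi S e * ((∏ j ∈ S, w j) *
        eval (Sum.elim z (fun j => w j ^ 2)) (prt S F))) =
        (∏ j ∈ S, w j) * eval (Sum.elim z (fun j => w j ^ 2)) (prt S F) := by
      intro e
      rw [← mul_assoc, chi_mul_self, one_mul]
    simp only [h3] at h2
    rw [Finset.sum_const, nsmul_eq_mul] at h2
    have h4 : (∏ j ∈ S, w j) ≠ 0 := Finset.prod_ne_zero_iff.2 fun j _ => hw j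
    have h5 : (((Finset.univ : Finset (κ → ℤˣ)).card : ℕ) : ℂ) ≠ 0 := by
      rw [Nat.cast_ne_zero]
      exact Finset.card_ne_zero.2 ⟨1, Finset.mem_univ _⟩
    exact (mul_eq_zero.1 ((mul_eq_zero.1 h2).resolve_left h5)).resolve_left h4
  · intro T _ hT
    have h3 : ∀ e : κ → ℤˣ, chi S e * (chi T e * ((∏ j ∈ T, w j) *
        eval (Sum.elim z (fun j => w j ^ 2)) (prt T F))) =
        chi S e * chi T e * ((∏ j ∈ T, w j) * eval (Sum.elim z (fun j => w j ^ 2)) (prt T F)) := by
      intro e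
      ring
    simp only [h3]
    rw [← Finset.sum_mul, chi_orth S T (Ne.symm hT), zero_mul]
  · intro hS
    exact absurd (Finset.mem_univ _) hS

end PartB

theorem part : S_PART := by
  intro σ κ _ _
  exact ⟨PartB.prt, fun F z w => PartB.part1 F z w, fun F z w hw h S => PartB.part2 F z w hw h S⟩

end Pool.Agent.Y985.OR
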