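import Pool.Agent.Y985.OR.Stm

/-!
# OR-PLANE (helper179): two reflections with product of infinite order
-/

set_option autoImplicit false

namespace Pool.Agent.Y985.OR

namespace PlaneAux

open Matrix

variable {n : ℕ} {J : Mat n}

theorem bl_def (u v : Fin n → ℂ) : bl J u v = u ⬝ᵥ (J *ᵥ v) := rfl

theorem vv_sq (v w : Fin n → ℂ) : vecMulVec v w * vecMulVec v w = (w ⬝ᵥ v) • vecMulVec v w := by
  ext i j
  simp only [Matrix.mul_apply, vecMulVec_apply, Matrix.smul_apply, smul_eq_mul, dotProduct,
    Finset.sum_mul]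
  refine Finset.sum_congr rfl fun k _ => ?_
  ring

theorem refl_sq {v : Fin n → ℂ} (hv : bl J v v ≠ 0) : refl J v * refl J v = 1 := by
  unfold refl
  have h1 : (J *ᵥ v) ⬝ᵥ v = bl J v v := dotProduct_comm _ _
  rw [sub_mul, mul_sub, mul_sub, one_mul, mul_one, one_mul, Matrix.smul_mul, Matrix.mul_smul,
    vv_sq, h1, smul_smul, smul_smul]
  have h2 : 2 / bl J v v * (2 / bl J v v) * bl J v v = 2 / bl J v v + 2 / bl J v v := by
    field_simp
    ring
  rw [h2, add_smul]
  abel

theorem refl_J (hJ : Jᵀ = J) (v : Fin n → ℂ) : J * refl J v = (refl J v)ᵀ * J := by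
  have h1 : J * vecMulVec v (J *ᵥ v) = vecMulVec (J *ᵥ v) (J *ᵥ v) := by
    rw [Matrix.mul_vecMulVec]
  have h2 : (vecMulVec v (J *ᵥ v))ᵀ * J = vecMulVec (J *ᵥ v) (J *ᵥ v) := by
    have : (vecMulVec v (J *ᵥ v))ᵀ * J = (J * vecMulVec v (J *ᵥ v))ᵀ := by
      rw [Matrix.transpose_mul, hJ]
    rw [this, h1]
    ext i j
    simp [vecMulVec_apply, mul_comm]
  unfold refl
  rw [Matrix.transpose_sub, Matrix.transpose_smul, Matrix.transpose_one, mul_sub, sub_mul,
    Matrix.mul_smul, Matrix.smul_mul, h1, h2, mul_one, one_mul]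

theorem bl_refl (hJ : Jᵀ = J) {y : Fin n → ℂ} (hy : bl J y y ≠ 0) (x z : Fin n → ℂ) :
    bl J (refl J y *ᵥ x) (refl J y *ᵥ z) = bl J x z := by
  rw [bl_def, bl_def, Matrix.mulVec_mulVec, refl_J hJ, ← Matrix.mulVec_mulVec,
    Matrix.dotProduct_mulVec, Matrix.vecMul_transpose, Matrix.mulVec_mulVec, refl_sq hy,
    Matrix.one_mulVec]

theorem refl_conj (hJ : Jᵀ = J) {y : Fin n → ℂ} (hy : bl J y y ≠ 0) (x : Fin n → ℂ) :
    refl J (refl J y *ᵥ x) = refl J y * refl J x * refl J y := by
  have h1 : J *ᵥ (refl J y *ᵥ x) = (J *ᵥ x) ᵥ* refl J y := by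
    rw [Matrix.mulVec_mulVec, refl_J hJ, ← Matrix.mulVec_mulVec, Matrix.mulVec_transpose]
  conv_lhs => unfold refl
  rw [show (1 - (2 / bl J y y) • vecMulVec y (J *ᵥ y)) = refl J y from rfl, bl_refl hJ hy, h1]
  conv_rhs => rw [show refl J x = 1 - (2 / bl J x x) • vecMulVec x (J *ᵥ x) from rfl]
  rw [mul_sub, sub_mul, mul_one, refl_sq hy, Matrix.mul_smul, Matrix.smul_mul,
    Matrix.mul_vecMulVec, Matrix.vecMulVec_mul]

theorem refl_smul {c : ℂ} (hc : c ≠ 0) (x : Fin n → ℂ) : refl J (c • x) = refl J x := by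
  unfold refl
  have h1 : bl J (c • x) (c • x) = c * c * bl J x x := by
    rw [bl_def, Matrix.mulVec_smul, smul_dotProduct, dotProduct_smul, smul_eq_mul, smul_eq_mul,
      bl_def]
    ring
  rw [h1, Matrix.mulVec_smul]
  congr 1
  ext i j
  simp only [Matrix.smul_apply, vecMulVec_apply, Pi.smul_apply, smul_eq_mul]
  by_cases hb : bl J x x = 0
  · rw [hb]; simp
  · field_simp

theorem refl_coord (y x : Fin n → ℂ) : ∃ κ : ℂ, refl J y *ᵥ x = x - κ • y := by
  refine ⟨2 / bl J y y * ((J *ᵥ y) ⬝ᵥ x), ?_⟩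
  unfold refl
  rw [Matrix.sub_mulVec, Matrix.one_mulVec, Matrix.smul_mulVec]
  congr 1
  generalize J *ᵥ y = w
  ext i
  simp only [Pi.smul_apply, smul_eq_mul, mulVec, dotProduct, vecMulVec_apply, Finset.sum_mul,
    Finset.mul_sum]
  refine Finset.sum_congr rfl fun k _ => ?_
  ring

/-- values at the reflections of a line are rational functions -/
theorem ratl (u v : Fin n → ℂ) (p : MvPolynomial (Fin n × Fin n) ℂ) :
    ∃ (N : ℕ) (G : Polynomial ℂ), ∀ t : ℂ, bl J (u + t • v) (u + t • v) ≠ 0 →
      G.eval t = bl J (u + t • v) (u + t • v) ^ N * pm p (refl J (u + t • v)) := by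
  classical
  obtain ⟨Q, hQ⟩ : ∃ Q : Polynomial ℂ, ∀ t, Q.eval t = bl J (u + t • v) (u + t • v) := by
    refine ⟨∑ i, (Polynomial.C (u i) + Polynomial.X * Polynomial.C (v i)) *
      (Polynomial.C ((J *ᵥ u) i) + Polynomial.X * Polynomial.C ((J *ᵥ v) i)), fun t => ?_⟩
    rw [Polynomial.eval_finsetSum, bl_def, Matrix.mulVec_add, Matrix.mulVec_smul, dotProduct]
    refine Finset.sum_congr rfl fun i _ => ?_
    simp only [Polynomial.eval_mul, Polynomial.eval_add, Polynomial.eval_C, Polynomial.eval_X,
      Pi.add_apply, Pi.smul_apply, smul_eq_mul]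
  have hE : ∀ i : Fin n × Fin n, ∃ E : Polynomial ℂ, ∀ t,
      bl J (u + t • v) (u + t • v) ≠ 0 →
      E.eval t = bl J (u + t • v) (u + t • v) * refl J (u + t • v) i.1 i.2 := by
    intro i
    refine ⟨Q * Polynomial.C ((1 : Mat n) i.1 i.2) - Polynomial.C 2 *
      ((Polynomial.C (u i.1) + Polynomial.X * Polynomial.C (v i.1)) *
      (Polynomial.C ((J *ᵥ u) i.2) + Polynomial.X * Polynomial.C ((J *ᵥ v) i.2))), ?_⟩
    intro t ht
    have e1 : refl J (u + t • v) i.1 i.2 = (1 : Mat n) i.1 i.2 -
        2 / bl J (u + t • v) (u + t • v) * ((u + t • v) i.1 * (J *ᵥ (u + t • v)) i.2) := by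
      unfold refl
      rw [Matrix.sub_apply, Matrix.smul_apply, vecMulVec_apply, smul_eq_mul]
    have e2 : (J *ᵥ (u + t • v)) i.2 = (J *ᵥ u) i.2 + t * (J *ᵥ v) i.2 := by
      rw [Matrix.mulVec_add, Matrix.mulVec_smul, Pi.add_apply, Pi.smul_apply, smul_eq_mul]
    have e3 : (u + t • v) i.1 = u i.1 + t * v i.1 := by
      rw [Pi.add_apply, Pi.smul_apply, smul_eq_mul]
    rw [e1, e2, e3]
    simp only [Polynomial.eval_sub, Polynomial.eval_mul, Polynomial.eval_add, Polynomial.eval_C,
      Polynomial.eval_X, hQ]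
    field_simp
  induction p using MvPolynomial.induction_on with
  | C a =>
    refine ⟨0, Polynomial.C a, fun t _ => ?_⟩
    simp [pm]
  | add p q hp hq =>
    obtain ⟨N1, G1, h1⟩ := hp
    obtain ⟨N2, G2, h2⟩ := hq
    refine ⟨N1 + N2, Q ^ N2 * G1 + Q ^ N1 * G2, fun t ht => ?_⟩
    have e : pm (p + q) (refl J (u + t • v)) = pm p (refl J (u + t • v)) +
        pm q (refl J (u + t • v)) := by simp [pm]
    rw [Polynomial.eval_add, Polynomial.eval_mul, Polynomial.eval_mul, Polynomial.eval_pow,
      Polynomial.eval_pow, hQ, h1 t ht, h2 t ht, e]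
    ring
  | mul_X p i hp =>
    obtain ⟨N1, G1, h1⟩ := hp
    obtain ⟨E, hEi⟩ := hE i
    refine ⟨N1 + 1, G1 * E, fun t ht => ?_⟩
    have e : pm (p * MvPolynomial.X i) (refl J (u + t • v)) = pm p (refl J (u + t • v)) *
        refl J (u + t • v) i.1 i.2 := by simp [pm]
    rw [Polynomial.eval_mul, h1 t ht, hEi t ht, e]
    ring

end PlaneAux

open PlaneAux Matrix in
theorem plane : S_PLANE := by
  classical
  intro n J hJ _ S hZ u v hu hv hru hrv hinf a b hab
  have hu2 := refl_sq hu
  have hv2 := refl_sq hv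
  -- the sequence
  have hseq : ∀ m : ℕ, ∃ x : Fin n → ℂ, ∃ a b : ℂ, x = a • u + b • v ∧ bl J x x ≠ 0 ∧
      refl J x ∈ S ∧ refl J x = (refl J u * refl J v) ^ (2 * m) * refl J u := by
    intro m
    induction m with
    | zero => exact ⟨u, 1, 0, by simp, hu, hru, by simp⟩
    | succ m ih =>
      obtain ⟨x, a, b, hx, hxx, hxS, hxr⟩ := ih
      obtain ⟨κ1, h1⟩ := refl_coord (J := J) v x
      obtain ⟨κ2, h2⟩ := refl_coord (J := J) u (refl J v *ᵥ x)
      refine ⟨refl J u *ᵥ (refl J v *ᵥ x), a - κ2, b - κ1, ?_, ?_, ?_, ?_⟩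
      · rw [h2, h1, hx]
        module
      · rw [bl_refl hJ hu, bl_refl hJ hv]
        exact hxx
      · rw [refl_conj hJ hu, refl_conj hJ hv]
        exact S.mul_mem (S.mul_mem hru (S.mul_mem (S.mul_mem hrv hxS) hrv)) hru
      · rw [refl_conj hJ hu, refl_conj hJ hv, hxr]
        have e : 2 * (m + 1) = 1 + 2 * m + 1 := by ring
        rw [e, pow_succ, pow_add, pow_one]
        simp only [mul_assoc]
  choose x ca cb hx hxx hxS hxr using hseq
  -- the reflections are different
  have hinj : ∀ m k : ℕ, refl J (x m) = refl J (x k) → m = k := by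
    have key : ∀ m k : ℕ, m < k → refl J (x m) ≠ refl J (x k) := by
      intro m k hmk h
      rw [hxr, hxr] at h
      have h2 : (refl J u * refl J v) ^ (2 * m) = (refl J u * refl J v) ^ (2 * k) := by
        have := congrArg (fun A => A * refl J u) h
        simp only [mul_assoc, hu2, mul_one] at this
        exact this
      obtain ⟨d, rfl⟩ := Nat.exists_eq_add_of_lt hmk
      have hinv : ∀ j : ℕ, (refl J v * refl J u) ^ j * (refl J u * refl J v) ^ j = 1 := by
        intro j
        induction j with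
        | zero => simp
        | succ j ih =>
          rw [pow_succ, pow_succ' (refl J u * refl J v)]
          calc (refl J v * refl J u) ^ j * (refl J v * refl J u) *
              (refl J u * refl J v * (refl J u * refl J v) ^ j) =
              (refl J v * refl J u) ^ j * (refl J v * (refl J u * refl J u) * refl J v) *
                (refl J u * refl J v) ^ j := by simp only [mul_assoc]
            _ = 1 := by rw [hu2, mul_one, hv2, mul_one, ih]
      have h3 := congrArg (fun A => (refl J v * refl J u) ^ (2 * m) * A) h2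
      simp only [hinv] at h3
      rw [show 2 * (m + d + 1) = 2 * m + 2 * (d + 1) by ring, pow_add, ← mul_assoc, hinv,
        one_mul] at h3
      exact hinf (2 * (d + 1)) (by omega) h3.symm
    intro m k h
    rcases lt_trichotomy m k with h1 | h1 | h1
    · exact absurd h (key m k h1)
    · exact h1
    · exact absurd h.symm (key k m h1)
  by_cases ha : a = 0
  · subst ha
    rw [zero_smul, zero_add] at hab ⊢
    have hb : b ≠ 0 := by
      rintro rfl
      apply hab
      rw [zero_smul, bl_def, Matrix.mulVec_zero, dotProduct_zero]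
    rw [refl_smul hb]
    exact hrv
  · -- normalize
    have e1 : a • u + b • v = a • (u + (b / a) • v) := by
      rw [smul_add, smul_smul, mul_div_cancel₀ _ ha]
    have hblsm : ∀ (c : ℂ) (y : Fin n → ℂ), bl J (c • y) (c • y) = c * c * bl J y y := by
      intro c y
      rw [bl_def, Matrix.mulVec_smul, smul_dotProduct, dotProduct_smul, smul_eq_mul, smul_eq_mul,
        bl_def]
      ring
    rw [e1, hblsm] at hab
    rw [e1, refl_smul ha]
    have hQ : bl J (u + (b / a) • v) (u + (b / a) • v) ≠ 0 := fun h => hab (by rw [h, mul_zero])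
    apply hZ
    intro p hp
    obtain ⟨N, G, hG⟩ := ratl (J := J) u v p
    -- infinitely many zeros
    have hform : ∀ m, ca m ≠ 0 → x m = ca m • (u + (cb m / ca m) • v) := by
      intro m hm
      rw [hx m, smul_add, smul_smul, mul_div_cancel₀ _ hm]
    have hzero : ∀ m, ca m ≠ 0 → G.eval (cb m / ca m) = 0 := by
      intro m hm
      have h1 := hxx m
      rw [hform m hm, hblsm] at h1
      rw [hG _ (fun h => h1 (by rw [h, mul_zero]))]
      have h2 := hp _ (hxS m)
      rw [hform m hm, refl_smul hm] at h2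
      rw [h2, mul_zero]
    have hG0 : G = 0 := by
      by_contra hne
      have hfin : {t | G.IsRoot t}.Finite := Polynomial.finite_setOfPred_isRoot hne
      have h1 : {m : ℕ | ca m ≠ 0}.Finite := by
        refine Set.Finite.of_finite_image (f := fun m => cb m / ca m)
          (hfin.subset ?_) ?_
        · rintro _ ⟨m, hm, rfl⟩
          exact hzero m hm
        · intro m hm k hk h
          apply hinj
          have h' : cb m / ca m = cb k / ca k := h
          rw [hform m hm, hform k hk, refl_smul hm, refl_smul hk, h']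
      have h2 : {m : ℕ | ca m = 0}.Subsingleton := by
        intro m hm k hk
        apply hinj
        have hbm : cb m ≠ 0 := by
          intro h0
          apply hxx m
          rw [hx m, show ca m = 0 from hm, h0, zero_smul, zero_smul, add_zero, bl_def,
            Matrix.mulVec_zero, dotProduct_zero]
        have hbk : cb k ≠ 0 := by
          intro h0
          apply hxx k
          rw [hx k, show ca k = 0 from hk, h0, zero_smul, zero_smul, add_zero, bl_def,
            Matrix.mulVec_zero, dotProduct_zero]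
        rw [hx m, hx k, show ca m = 0 from hm, show ca k = 0 from hk, zero_smul, zero_add,
          zero_add, refl_smul hbm, refl_smul hbk]
      have h3 : (Set.univ : Set ℕ).Finite := by
        refine (h1.union h2.finite).subset fun m _ => ?_
        by_cases hm : ca m = 0
        · exact Or.inr hm
        · exact Or.inl hm
      exact Set.infinite_univ h3
    have h1 := hG _ hQ
    rw [hG0, Polynomial.eval_zero] at h1
    rcases mul_eq_zero.1 h1.symm with h2 | h2
    · exact absurd h2 (pow_ne_zero N hQ)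
    · exact h2

end Pool.Agent.Y985.OR
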