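import Pool.Agent.Y985.OR.Stm3
import Pool.Agent.Y119.PLM.GReg

/-!
# Regularity of the twisted families
-/

set_option autoImplicit false
set_option linter.unusedSectionVars false

namespace Pool.Agent.Y985.OR

open Matrix Filter Topology
open Pool.Agent.Y119.PLM Pool.Agent.Y890.MV

namespace Reg

variable {X κ : Type} [Fintype X] {n : κ → ℕ}

/-- the evaluation as a ring homomorphism -/
noncomputable def vh (x : X → ℂ) (A : MT n) : MvPolynomial (Ix n) (MvPolynomial X ℂ) →+* ℂ :=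
  MvPolynomial.eval₂Hom (MvPolynomial.eval x) (fun i : Ix n => A i.1 i.2.1 i.2.2)

lemma vh_eq (x : X → ℂ) (A : MT n) (P : MvPolynomial (Ix n) (MvPolynomial X ℂ)) :
    vh x A P = vt P x A := rfl

lemma vh_X (x : X → ℂ) (A : MT n) (i : Ix n) : vh x A (MvPolynomial.X i) = A i.1 i.2.1 i.2.2 := by
  simp [vh]

lemma vh_C (x : X → ℂ) (A : MT n) (a : MvPolynomial X ℂ) :
    vh x A (MvPolynomial.C a) = MvPolynomial.eval x a := by
  simp [vh]

/-- the generic determinant -/
noncomputable def detP (j : κ) : MvPolynomial (Ix n) (MvPolynomial X ℂ) :=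
  (Matrix.of fun a b => (MvPolynomial.X (⟨j, a, b⟩ : Ix n) : MvPolynomial (Ix n) (MvPolynomial X ℂ))).det

lemma vh_detP (x : X → ℂ) (A : MT n) (j : κ) : vh x A (detP j) = (A j).det := by
  unfold detP
  rw [RingHom.map_det]
  congr 1
  ext a b
  rw [RingHom.mapMatrix_apply, Matrix.map_apply, Matrix.of_apply, vh_X]

/-- the twisted entries -/
noncomputable def hatP (E : MT n) (i : Ix n) : MvPolynomial (Ix n) (MvPolynomial X ℂ) :=
  ∑ c, MvPolynomial.X ⟨i.1, i.2.1, c⟩ *
    (MvPolynomial.C (MvPolynomial.C ((1 : Matrix (Fin (n i.1)) (Fin (n i.1)) ℂ) c i.2.2)) +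
      (detP i.1 - 1) * MvPolynomial.C (MvPolynomial.C (E i.1 c i.2.2)))

lemma vh_hatP (E : MT n) (x : X → ℂ) (A : MT n) (i : Ix n) :
    vh x A (hatP E i) = hat E A i.1 i.2.1 i.2.2 := by
  unfold hatP hat tau
  rw [map_sum, Pi.mul_apply, Matrix.mul_apply]
  refine Finset.sum_congr rfl fun c _ => ?_
  rw [map_mul, map_add, map_mul, map_sub, map_one, vh_detP, vh_X, vh_C, vh_C, MvPolynomial.eval_C,
    MvPolynomial.eval_C, Matrix.add_apply, Matrix.smul_apply, smul_eq_mul]

/-- the substitution -/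
noncomputable def sb (J E : MT n) (J' : (j : κ) → Matrix (Fin (n j)) (Fin (n j)) (MvPolynomial X ℂ)) :
    MvPolynomial (Ix n ⊕ κ) (MvPolynomial X ℂ) →+* MvPolynomial (Ix n) (MvPolynomial X ℂ) :=
  MvPolynomial.eval₂Hom MvPolynomial.C
    (Sum.elim (hatP E) (fun j => MvPolynomial.C (MvPolynomial.C ((J j).det)⁻¹ * (J' j).det)))

lemma vt_sb (J E : MT n) (J' : (j : κ) → Matrix (Fin (n j)) (Fin (n j)) (MvPolynomial X ℂ))
    (P : MvPolynomial (Ix n ⊕ κ) (MvPolynomial X ℂ)) (x : X → ℂ) (A : MT n) :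
    vt (sb J E J' P) x A = MvPolynomial.eval₂ (MvPolynomial.eval x)
      (Sum.elim (fun i : Ix n => hat E A i.1 i.2.1 i.2.2)
        (fun j => ((J j).det)⁻¹ * ((J' j).map (MvPolynomial.eval x)).det)) P := by
  have h : (vh x A).comp (sb J E J') = MvPolynomial.eval₂Hom (MvPolynomial.eval x)
      (Sum.elim (fun i : Ix n => hat E A i.1 i.2.1 i.2.2)
        (fun j => ((J j).det)⁻¹ * ((J' j).map (MvPolynomial.eval x)).det)) := by
    apply MvPolynomial.ringHom_ext
    · intro a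
      rw [RingHom.comp_apply]
      unfold sb
      rw [MvPolynomial.eval₂Hom_C, MvPolynomial.eval₂Hom_C, vh_C]
    · rintro (i | j)
      · rw [RingHom.comp_apply]
        unfold sb
        rw [MvPolynomial.eval₂Hom_X', MvPolynomial.eval₂Hom_X', Sum.elim_inl, Sum.elim_inl, vh_hatP]
      · rw [RingHom.comp_apply]
        unfold sb
        rw [MvPolynomial.eval₂Hom_X', MvPolynomial.eval₂Hom_X', Sum.elim_inr, Sum.elim_inr, vh_C,
          map_mul, MvPolynomial.eval_C, RingHom.map_det, RingHom.mapMatrix_apply]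
  exact RingHom.congr_fun h P

lemma vt_sb_congr (J E : MT n) (J' : (j : κ) → Matrix (Fin (n j)) (Fin (n j)) (MvPolynomial X ℂ))
    (P : MvPolynomial (Ix n ⊕ κ) (MvPolynomial X ℂ)) (x : X → ℂ) {A B : MT n}
    (h : hat E A = hat E B) : vt (sb J E J' P) x A = vt (sb J E J' P) x B := by
  rw [vt_sb, vt_sb, h]

/-- the polynomial `g ↦ P (x, B g)` -/
lemma exists_pol (P : MvPolynomial (Ix n) (MvPolynomial X ℂ)) (x : X → ℂ) (B : MT n) :
    ∃ p : MvPolynomial (Ix n) ℂ, ∀ g, pe p g = vt P x (B * g) := by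
  refine ⟨MvPolynomial.eval₂ (MvPolynomial.C.comp (MvPolynomial.eval x))
    (fun i : Ix n => ∑ k, MvPolynomial.C (B i.1 i.2.1 k) * MvPolynomial.X ⟨i.1, k, i.2.2⟩) P,
    fun g => ?_⟩
  unfold pe vt
  rw [MvPolynomial.hom_eval₂]
  congr 1
  · ext <;> simp
  · funext i
    rw [map_sum, Pi.mul_apply, Matrix.mul_apply]
    refine Finset.sum_congr rfl fun k _ => ?_
    rw [map_mul, MvPolynomial.eval_C, MvPolynomial.eval_X]

variable {J E : MT n} {J' : (j : κ) → Matrix (Fin (n j)) (Fin (n j)) (MvPolynomial X ℂ)}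
  {U : Set (X → ℂ)} {Y : (X → ℂ) → MT n}

lemma det_rel (H : Fam J J' U Y) {x : X → ℂ} (hx : x ∈ U) (j : κ) :
    ((Y x j).det) ^ 2 * ((J' j).map (MvPolynomial.eval x)).det = (J j).det := by
  have h := congrArg Matrix.det (H.rel x hx j)
  rw [det_mul, det_mul, det_transpose] at h
  linear_combination h

lemma detY_ne (H : Fam J J' U Y) {x : X → ℂ} (hx : x ∈ U) (j : κ) : (Y x j).det ≠ 0 := by
  intro h
  have h1 := det_rel H hx j
  rw [h] at h1
  apply (H.ss j).2
  rw [← h1]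
  ring

lemma evM_fe (H : Fam J J' U Y) {x : X → ℂ} (hx : x ∈ U)
    (P : MvPolynomial (Ix n ⊕ κ) (MvPolynomial X ℂ)) :
    evM (fe E Y) x P = vt (sb J E J' P) x (Y x) := by
  rw [vt_sb]
  unfold evM
  congr 1
  funext i
  rcases i with i | j
  · rfl
  · rw [Sum.elim_inr]
    show ((Y x j).det)⁻¹ ^ 2 = _
    have h1 := det_rel H hx j
    have h2 := detY_ne H hx j
    have h3 := (H.ss j).2
    rw [eq_inv_mul_iff_mul_eq₀ h3, ← h1]
    field_simp

/-- admissible signs -/
def Sg (J E : MT n) (e : κ → ℂ) : Prop := ∀ j, ((J j)ᵀ = -J j ∧ E j = 0 ∧ e j = 1) ∨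
  ((J j)ᵀ = J j ∧ E j * E j = E j ∧ (∀ t : ℂ, (1 + (t - 1) • E j).det = t) ∧
    (1 - (2 : ℂ) • E j)ᵀ * J j * (1 - (2 : ℂ) • E j) = J j ∧ (e j = 1 ∨ e j = -1))

lemma hat_mul {e : κ → ℂ} (he : Sg J E e) (A : MT n) : hat E (A * tau E e) = hat E A := by
  funext j
  unfold hat
  rw [Pi.mul_apply, Pi.mul_apply, Pi.mul_apply]
  rcases he j with ⟨_, h2, h3⟩ | ⟨_, h2, h3, _, h4⟩
  · have h5 : ∀ t : κ → ℂ, tau E t j = 1 := by
      intro t
      simp [tau, h2]
    rw [h5, h5, h5, mul_one, mul_one]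
  · have h6 : (A j * tau E e j).det = (A j).det * e j := by
      rw [det_mul]
      congr 1
      exact h3 (e j)
    have h7 : e j * e j = 1 := by
      rcases h4 with h | h <;> rw [h] <;> norm_num
    show A j * tau E e j * tau E (fun j => ((A * tau E e) j).det) j = _
    have h8 : tau E (fun j => ((A * tau E e) j).det) j = 1 + ((A j).det * e j - 1) • E j := by
      show 1 + (((A * tau E e) j).det - 1) • E j = _
      rw [Pi.mul_apply, h6]
    rw [h8, Matrix.mul_assoc]
    congr 1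
    show (1 + (e j - 1) • E j) * (1 + ((A j).det * e j - 1) • E j) = 1 + ((A j).det - 1) • E j
    rw [add_mul, one_mul, mul_add, mul_one, smul_mul_smul_comm, h2, add_assoc, ← add_smul,
      ← add_smul]
    congr 2
    linear_combination ((A j).det) * h7

lemma tau_iso {e : κ → ℂ} (he : Sg J E e) (j : κ) :
    (tau E e j)ᵀ * J j * tau E e j = J j := by
  rcases he j with ⟨_, h2, h3⟩ | ⟨_, h2, h3, h5, h4⟩
  · have h5 : tau E e j = 1 := by
      simp [tau, h2]
    rw [h5, transpose_one, Matrix.one_mul, Matrix.mul_one]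
  · rcases h4 with h | h
    · have h6 : tau E e j = 1 := by
        simp [tau, h]
      rw [h6, transpose_one, Matrix.one_mul, Matrix.mul_one]
    · have h6 : tau E e j = 1 - (2 : ℂ) • E j := by
        have h7 : (-1 - 1 : ℂ) = -2 := by norm_num
        unfold tau
        rw [h, h7, neg_smul, ← sub_eq_add_neg]
      rw [h6, h5]

/-- the signs of an isometry -/
lemma sg_det (hK : S_DETK) (hss : SymSk J) (hE : EOK J E) {h : MT n} (hh : IsoT J h) :
    Sg J E (fun j => (h j).det) := by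
  intro j
  rcases hE j with ⟨h1, h2⟩ | ⟨h1, h2, h3, h4⟩
  · exact Or.inl ⟨h1, h2, hK _ _ h1 (hss j).2 _ (hh j)⟩
  · refine Or.inr ⟨h1, h2, h3, h4, ?_⟩
    have h5 := congrArg Matrix.det (hh j)
    rw [det_mul, det_mul, det_transpose] at h5
    have h6 : (h j).det * (h j).det = 1 := by
      apply mul_right_cancel₀ (hss j).2
      linear_combination h5
    exact mul_self_eq_one_iff.mp h6

lemma iso_mul_tau {e : κ → ℂ} {h : MT n} (hh : IsoT J h) (he : Sg J E e)
    (hd : e = fun j => (h j).det) : IsoS J (h * tau E e) := by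
  intro j
  constructor
  · rw [Pi.mul_apply, transpose_mul]
    calc (tau E e j)ᵀ * (h j)ᵀ * J j * (h j * tau E e j) =
        (tau E e j)ᵀ * ((h j)ᵀ * J j * h j) * tau E e j := by
          simp only [Matrix.mul_assoc]
      _ = J j := by rw [hh j, tau_iso he j]
  · rw [Pi.mul_apply, det_mul]
    have hej : e j = (h j).det := congrFun hd j
    rw [← hej]
    rcases he j with ⟨_, h2, h3⟩ | ⟨_, h2, h3, _, h4⟩
    · have h5 : tau E e j = 1 := by
        simp [tau, h2]
      rw [h5, det_one, h3, mul_one]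
    · have h6 : (tau E e j).det = e j := h3 (e j)
      rw [h6]
      rcases h4 with h | h <;> rw [h] <;> norm_num

/-- the main relation -/
lemma main_rel [Fintype κ] [DecidableEq κ] (hC : S_CONNT) (hK : S_DETK) (H : Fam J J' U Y)
    (hgal : ∀ g, IsoS J g → g ∈ GalT U Y) (hE : EOK J E)
    (V : Set (X → ℂ)) (g : (X → ℂ) → ℂ) (P Q : MvPolynomial (Ix n) (MvPolynomial X ℂ))
    (hPc : ∀ x (A B : MT n), hat E A = hat E B → vt P x A = vt P x B)
    (hQc : ∀ x (A B : MT n), hat E A = hat E B → vt Q x A = vt Q x B)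
    (R : Polynomial (MvPolynomial X ℂ)) (hVo : IsOpen V) (hVne : V.Nonempty) (hVU : V ⊆ U)
    (hR : R ≠ 0) (hQ : ∀ x ∈ V, vt Q x (Y x) ≠ 0)
    (hPQ : ∀ x ∈ V, vt Q x (Y x) * g x = vt P x (Y x))
    (hRg : ∀ x ∈ V, (R.map (MvPolynomial.eval x)).eval (g x) = 0) :
    ∀ x ∈ V, ∀ h, IsoT J h → vt Q x (Y x * h) * g x = vt P x (Y x * h) := by
  classical
  have hU := H.pre
  have hY := H.an
  have hVne' := hVne
  -- the homogenized relation
  set m := R.natDegree with hm
  set W : MvPolynomial (Ix n) (MvPolynomial X ℂ) :=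
    ∑ i ∈ Finset.range (m + 1), MvPolynomial.C (R.coeff i) * P ^ i * Q ^ (m - i) with hWd
  have hWe : ∀ x A, vt W x A = ∑ i ∈ Finset.range (m + 1), MvPolynomial.eval x (R.coeff i) * vt P x A ^ i *
      vt Q x A ^ (m - i) := by
    intro x A
    simp only [vt, hWd, MvPolynomial.eval₂_sum, MvPolynomial.eval₂_mul, MvPolynomial.eval₂_pow,
      MvPolynomial.eval₂_C]
  have hWV : ∀ x ∈ V, vt W x (Y x) = 0 := by
    intro x hx
    have h1 : vt W x (Y x) = vt Q x (Y x) ^ m * (R.map (MvPolynomial.eval x)).eval (g x) := by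
      rw [hWe, Polynomial.eval_map, Polynomial.eval₂_eq_sum_range, Finset.mul_sum]
      refine Finset.sum_congr rfl fun i hi => ?_
      have hi' : i ≤ m := Nat.lt_succ_iff.1 (Finset.mem_range.1 hi)
      have h4 : vt Q x (Y x) ^ m = vt Q x (Y x) ^ i * vt Q x (Y x) ^ (m - i) := by
        rw [← pow_add]; congr 1; omega
      rw [h4, ← hPQ x hx]
      ring
    rw [h1, hRg x hx, mul_zero]
  have hW : IsRelT U Y W := eq_on hU (vt_an hY W) hVo hVne' hVU hWV
  -- the relation for `h`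
  let K : MT n → MvPolynomial (Ix n) (MvPolynomial X ℂ) := fun h => sgt h P * Q - P * sgt h Q
  have hKe : ∀ h x A, vt (K h) x A = vt P x (A * h) * vt Q x A - vt P x A * vt Q x (A * h) := by
    intro h x A
    have h1 : vt (K h) x A = vt (sgt h P) x A * vt Q x A - vt P x A * vt (sgt h Q) x A := by
      simp only [K, vt, sub_eq_add_neg, MvPolynomial.eval₂_add, MvPolynomial.eval₂_mul, MvPolynomial.eval₂_neg]
    rw [h1, vt_sgt, vt_sgt]
  obtain ⟨i0, hi0⟩ : ∃ i, R.coeff i ≠ 0 := by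
    by_contra hcon
    push Not at hcon
    exact hR (Polynomial.ext fun i => by rw [hcon i, Polynomial.coeff_zero])
  have hgood : ∀ h, IsoS J h → ∀ x ∈ V, MvPolynomial.eval x (R.coeff i0) ≠ 0 →
      vt (K h) x (Y x) = 0 := by
    intro h hh x hx hx0
    obtain ⟨Φ, hΦ⟩ := exists_pol P x (Y x)
    obtain ⟨Ψ, hΨ⟩ := exists_pol Q x (Y x)
    have hRx : R.map (MvPolynomial.eval x) ≠ 0 := by
      intro h
      apply hx0
      have := congrArg (fun p => Polynomial.coeff p i0) h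
      simpa using this
    have h1 := hC κ n J H.ss Φ Ψ (R.map (MvPolynomial.eval x)) m hRx Polynomial.natDegree_map_le
      (fun k hk => by
        have h2 := hgal k hk W hW x (hVU hx)
        rw [hWe] at h2
        rw [← h2]
        refine Finset.sum_congr rfl fun i _ => ?_
        rw [hΦ, hΨ, Polynomial.coeff_map]) h hh
    rw [hΦ, hΨ, hΦ, hΨ, mul_one] at h1
    rw [hKe, h1, sub_self]
  obtain ⟨x0, hx0V, hx0⟩ : ∃ x ∈ V, MvPolynomial.eval x (R.coeff i0) ≠ 0 := by
    by_contra hcon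
    push Not at hcon
    exact hi0 (poly_zero hVo hVne' _ hcon)
  have hall : ∀ h, IsoS J h → IsRelT U Y (K h) := by
    intro h hh
    have h1 : ∀ᶠ x in 𝓝 x0, MvPolynomial.eval x (R.coeff i0) ≠ 0 := by
      have h2 : AnalyticAt ℂ (fun x => MvPolynomial.eval x (R.coeff i0)) x0 :=
        (AnalyticOnNhd.eval_mvPolynomial (R.coeff i0)) x0 trivial
      exact h2.continuousAt.eventually_ne hx0
    obtain ⟨O, hO1, hO2, hO3⟩ := mem_nhds_iff.1 (h1.and (hVo.mem_nhds hx0V))
    exact eq_on hU (vt_an hY _) hO2 ⟨x0, hO3⟩ (fun x hx => hVU (hO1 hx).2)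
      fun x hx => hgood h hh x (hO1 hx).2 (hO1 hx).1
  -- isometries of determinant one
  have hone : ∀ x ∈ V, ∀ h, IsoS J h → vt Q x (Y x * h) * g x = vt P x (Y x * h) := by
    intro x hx h hh
    have h5 := hall h hh x (hVU hx)
    rw [hKe, ← hPQ x hx] at h5
    have h7 : vt Q x (Y x) * (vt Q x (Y x * h) * g x - vt P x (Y x * h)) = 0 := by
      linear_combination -h5
    exact sub_eq_zero.1 ((mul_eq_zero.1 h7).resolve_left (hQ x hx))
  -- all isometries
  intro x hx h hh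
  have hs := sg_det hK H.ss hE hh
  have h1 := hone x hx _ (iso_mul_tau hh hs rfl)
  rw [← mul_assoc] at h1
  rw [hQc x _ _ (hat_mul hs (Y x * h)), hPc x _ _ (hat_mul hs (Y x * h))] at h1
  exact h1

end Reg

open Reg in
theorem reg3 : S_CONNT → S_DETK → S_DESCI → S_REG3 := by
  intro hC hK hD X κ _ _ _ n J J' U Y H hsec hgal E hE
  classical
  intro V g P Q R hVo hVne hVU hg hR hQ hPQ hRg
  -- the substituted polynomials
  set P' := sb J E J' P with hP'
  set Q' := sb J E J' Q with hQ'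
  have hQ1 : ∀ x ∈ V, vt Q' x (Y x) ≠ 0 := by
    intro x hx
    rw [hQ', ← evM_fe H (hVU hx)]
    exact hQ x hx
  have hPQ1 : ∀ x ∈ V, vt Q' x (Y x) * g x = vt P' x (Y x) := by
    intro x hx
    rw [hQ', hP', ← evM_fe H (hVU hx), ← evM_fe H (hVU hx)]
    exact hPQ x hx
  have hmain := main_rel hC hK H hgal hE V g P' Q' (fun x A B h => vt_sb_congr J E J' P x h)
    (fun x A B h => vt_sb_congr J E J' Q x h) R hVo hVne hVU hR hQ1 hPQ1 hRg
  -- the sections
  choose d hd S hS using hsec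
  let I : Type := Σ j, Fin (n j)
  let dd : I → MvPolynomial X ℂ := fun i => d i.1 i.2
  let D : MvPolynomial X ℂ := ∏ i : I, dd i
  have hD0 : D ≠ 0 := Finset.prod_ne_zero_iff.mpr fun i _ => hd i.1 i.2
  let V0 : Set (X → ℂ) := {x | x ∈ V ∧ ∀ i : I, MvPolynomial.eval x (dd i) ≠ 0}
  let SS : (X → ℂ) → (I → ℂ) → MT n := fun x y j =>
    (S j).map (MvPolynomial.eval₂ (MvPolynomial.eval x) (fun i => y ⟨j, i⟩))
  have hSS : ∀ x (y : I → ℂ), (∀ i, y i ^ 2 * MvPolynomial.eval x (dd i) = 1) → ∀ j,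
      (SS x y j)ᵀ * (J' j).map (MvPolynomial.eval x) * SS x y j = J j := by
    intro x y hy j
    exact hS j x (fun i => y ⟨j, i⟩) fun i => hy ⟨j, i⟩
  have hroot : ∀ x ∈ V0, ∃ y : I → ℂ, ∀ i, y i ^ 2 * MvPolynomial.eval x (dd i) = 1 := by
    intro x hx
    have h1 : ∀ i : I, ∃ z : ℂ, z ^ 2 * MvPolynomial.eval x (dd i) = 1 := by
      intro i
      obtain ⟨z, hz⟩ := IsAlgClosed.exists_eq_mul_self (MvPolynomial.eval x (dd i))⁻¹
      refine ⟨z, ?_⟩
      rw [sq, ← hz, inv_mul_cancel₀ (hx.2 i)]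
    choose y hy using h1
    exact ⟨y, hy⟩
  obtain ⟨x1, hx1V, hx1D⟩ : ∃ x ∈ V, MvPolynomial.eval x D ≠ 0 := by
    by_contra hcon
    push Not at hcon
    exact hD0 (poly_zero hVo hVne _ hcon)
  have hx1 : x1 ∈ V0 := by
    refine ⟨hx1V, fun i => ?_⟩
    have h1 : MvPolynomial.eval x1 D = ∏ i : I, MvPolynomial.eval x1 (dd i) := map_prod _ _ _
    rw [h1] at hx1D
    exact Finset.prod_ne_zero_iff.mp hx1D i (Finset.mem_univ i)
  obtain ⟨y1, hy1⟩ := hroot x1 hx1
  have hdetS : ∀ x (y : I → ℂ), (∀ i, y i ^ 2 * MvPolynomial.eval x (dd i) = 1) → ∀ j,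
      IsUnit (SS x y j).det := by
    intro x y hy j
    rw [isUnit_iff_ne_zero]
    intro h
    have h1 := congrArg Matrix.det (hSS x y hy j)
    rw [det_mul, h, mul_zero] at h1
    exact (H.ss j).2 h1.symm
  let g1 : MT n := fun j => (SS x1 y1 j)⁻¹ * Y x1 j
  have hg1 : SS x1 y1 * g1 = Y x1 := by
    funext j
    show SS x1 y1 j * ((SS x1 y1 j)⁻¹ * Y x1 j) = Y x1 j
    rw [← Matrix.mul_assoc, Matrix.mul_nonsing_inv _ (hdetS x1 y1 hy1 j), Matrix.one_mul]
  have hg1iso : ∀ j, (g1 j)ᵀ * J j * g1 j = J j := by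
    intro j
    have h1 : SS x1 y1 j * g1 j = Y x1 j := congrFun hg1 j
    calc (g1 j)ᵀ * J j * g1 j =
        (g1 j)ᵀ * ((SS x1 y1 j)ᵀ * (J' j).map (MvPolynomial.eval x1) * SS x1 y1 j) * g1 j := by
          rw [hSS x1 y1 hy1 j]
      _ = (SS x1 y1 j * g1 j)ᵀ * (J' j).map (MvPolynomial.eval x1) * (SS x1 y1 j * g1 j) := by
          rw [transpose_mul (SS x1 y1 j) (g1 j)]
          simp only [Matrix.mul_assoc]
      _ = J j := by rw [h1, H.rel x1 (hVU hx1V) j]
  -- substitution of the sections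
  let ev : (MvPolynomial (Ix n) (MvPolynomial X ℂ)) →+* MvPolynomial I (MvPolynomial X ℂ) :=
    MvPolynomial.eval₂Hom MvPolynomial.C (fun i : Ix n => ∑ c,
      MvPolynomial.rename (fun a => (⟨i.1, a⟩ : I)) (S i.1 i.2.1 c) *
        MvPolynomial.C (MvPolynomial.C (g1 i.1 c i.2.2)))
  have hev : ∀ (F : MvPolynomial (Ix n) (MvPolynomial X ℂ)) x (y : I → ℂ),
      MvPolynomial.eval₂ (MvPolynomial.eval x) y (ev F) = vt F x (SS x y * g1) := by
    intro F x y
    have h1 : (MvPolynomial.eval₂Hom (MvPolynomial.eval x) y).comp ev = vh x (SS x y * g1) := by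
      apply MvPolynomial.ringHom_ext
      · intro a
        rw [RingHom.comp_apply]
        show (MvPolynomial.eval₂Hom (MvPolynomial.eval x) y) (MvPolynomial.eval₂Hom _ _ _) = _
        rw [MvPolynomial.eval₂Hom_C, MvPolynomial.eval₂Hom_C, vh_C]
      · intro i
        rw [RingHom.comp_apply]
        show (MvPolynomial.eval₂Hom (MvPolynomial.eval x) y) (MvPolynomial.eval₂Hom _ _ _) = _
        rw [MvPolynomial.eval₂Hom_X', vh_X, map_sum, Pi.mul_apply, Matrix.mul_apply]
        refine Finset.sum_congr rfl fun c _ => ?_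
        rw [map_mul, MvPolynomial.eval₂Hom_C, MvPolynomial.eval_C]
        congr 1
        rw [MvPolynomial.coe_eval₂Hom, MvPolynomial.eval₂_rename]
        rfl
    exact RingHom.congr_fun h1 F
  obtain ⟨p', q', hq', hpq'⟩ := hD X I dd V0 g (ev P') (ev Q')
    ⟨x1, hx1, y1, hy1, by rw [hev, hg1]; exact hQ1 x1 hx1V⟩ hroot (by
      intro x hx y hy
      rw [hev, hev]
      have hxU := hVU hx.1
      -- the isometry
      let h : MT n := fun j => (Y x j)⁻¹ * (SS x y j * g1 j)
      have hYu : ∀ j, IsUnit (Y x j).det := fun j => isUnit_iff_ne_zero.mpr (detY_ne H hxU j)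
      have hYh : Y x * h = SS x y * g1 := by
        funext j
        show Y x j * ((Y x j)⁻¹ * (SS x y j * g1 j)) = SS x y j * g1 j
        rw [← Matrix.mul_assoc, Matrix.mul_nonsing_inv _ (hYu j), Matrix.one_mul]
      have hh : IsoT J h := by
        intro j
        have h1 : Y x j * h j = SS x y j * g1 j := congrFun hYh j
        calc (h j)ᵀ * J j * h j =
            (h j)ᵀ * ((Y x j)ᵀ * (J' j).map (MvPolynomial.eval x) * Y x j) * h j := by
              rw [H.rel x hxU j]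
          _ = (Y x j * h j)ᵀ * (J' j).map (MvPolynomial.eval x) * (Y x j * h j) := by
              rw [transpose_mul (Y x j) (h j)]
              simp only [Matrix.mul_assoc]
          _ = (g1 j)ᵀ * ((SS x y j)ᵀ * (J' j).map (MvPolynomial.eval x) * SS x y j) * g1 j := by
              rw [h1, transpose_mul (SS x y j) (g1 j)]
              simp only [Matrix.mul_assoc]
          _ = J j := by rw [hSS x y hy j, hg1iso j]
      rw [← hYh]
      exact hmain x hx.1 h hh)
  refine ⟨D * p', D * q', mul_ne_zero hD0 hq', fun x hx => ?_⟩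
  rw [map_mul, map_mul]
  by_cases hx0 : x ∈ V0
  · rw [mul_assoc, hpq' x hx0]
  · have h1 : MvPolynomial.eval x D = 0 := by
      by_contra hne
      apply hx0
      refine ⟨hx, fun i => ?_⟩
      have h1 : MvPolynomial.eval x D = ∏ i : I, MvPolynomial.eval x (dd i) := map_prod _ _ _
      rw [h1] at hne
      exact Finset.prod_ne_zero_iff.mp hne i (Finset.mem_univ i)
    rw [h1, zero_mul, zero_mul, zero_mul]

theorem reg : S_CONNT → S_DETK → S_DESCI → S_REG :=
  fun hC hK hD X κ _ _ _ n J J' U Y H hsec hgal E hE =>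
    reg3 hC hK hD X κ n J J' U Y H hsec (fun g hg => hgal g fun j => (hg j).1) E hE

end Pool.Agent.Y985.OR
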