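import Pool.Agent.Y985.OR.Stm2
import Pool.Agent.Y122.HPDar

set_option autoImplicit false

/-! OR-SECK: sections of the torsors of skew forms. -/

namespace Pool.Agent.Y985.OR

open Matrix

namespace SeckAux

theorem diag0 {R : Type} [CommRing R] [IsDomain R] [CharZero R] {n : ℕ} {J : Matrix (Fin n) (Fin n) R}
    (hJ : Jᵀ = -J) (i : Fin n) : J i i = 0 := by
  have h1 := congrFun (congrFun hJ i) i
  rw [Matrix.transpose_apply, Matrix.neg_apply] at h1
  exact self_eq_neg.1 h1

/-- a common multiple of the denominators of a symplectic basis -/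
theorem basis {R : Type} [CommRing R] [IsDomain R] [CharZero R] {n : ℕ} (J J' : Matrix (Fin n) (Fin n) R)
    (hJ : Jᵀ = -J) (hJ' : J'ᵀ = -J') (hd : J.det ≠ 0) (hd' : J'.det ≠ 0) :
    ∃ (c : R) (W : Matrix (Fin n) (Fin n) R), c ≠ 0 ∧ W * J' * Wᵀ = c ^ 2 • J := by
  classical
  have hinj : Function.Injective (algebraMap R (FractionRing R)) :=
    IsFractionRing.injective R (FractionRing R)
  have hma : ∀ A : Matrix (Fin n) (Fin n) R, Aᵀ = -A →
      (A.map (algebraMap R (FractionRing R)))ᵀ = -A.map (algebraMap R (FractionRing R)) := by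
    intro A hA
    rw [← Matrix.transpose_map, hA]
    ext a b
    simp
  have hmd : ∀ A : Matrix (Fin n) (Fin n) R, A.det ≠ 0 →
      (A.map (algebraMap R (FractionRing R))).det ≠ 0 := by
    intro A hA
    have h1 : (A.map (algebraMap R (FractionRing R))).det = algebraMap R (FractionRing R) A.det :=
      (RingHom.map_det _ _).symm
    rw [h1]
    exact fun h => hA (hinj (by rw [h, map_zero]))
  have : CharZero (FractionRing R) := charZero_of_injective_algebraMap hinj
  obtain ⟨U0, _, hU⟩ := Pool.Agent.Y122.HPDar.darboux (J'.map (algebraMap R (FractionRing R)))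
    (J.map (algebraMap R (FractionRing R))) (hma _ hJ')
    (diag0 (hma _ hJ')) (hmd _ hd') (hma _ hJ) (diag0 (hma _ hJ)) (hmd _ hd)
  obtain ⟨b, hb⟩ := IsLocalization.exist_integer_multiples_of_finite (nonZeroDivisors R)
    (fun x : Fin n × Fin n => U0 x.1 x.2)
  choose u hu using hb
  have hUm : (Matrix.of fun a b => u (a, b)).map (algebraMap R (FractionRing R)) =
      algebraMap R (FractionRing R) (b : R) • U0 := by
    ext i j
    rw [Matrix.map_apply, Matrix.of_apply, Matrix.smul_apply, smul_eq_mul]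
    have := hu (i, j)
    rw [Algebra.smul_def] at this
    exact this
  refine ⟨(b : R), Matrix.of fun a b => u (a, b), nonZeroDivisors.ne_zero b.2, ?_⟩
  apply Matrix.map_injective hinj
  have e1 : ((b : R) ^ 2 • J).map (algebraMap R (FractionRing R)) =
      algebraMap R (FractionRing R) (b : R) ^ 2 • J.map (algebraMap R (FractionRing R)) := by
    ext x y
    simp [Matrix.smul_apply, smul_eq_mul]
  show (Matrix.of (fun a b => u (a, b)) * J' * (Matrix.of fun a b => u (a, b))ᵀ).map
    (algebraMap R (FractionRing R)) = ((b : R) ^ 2 • J).map (algebraMap R (FractionRing R))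
  rw [Matrix.map_mul, Matrix.map_mul, Matrix.transpose_map, hUm, e1, ← hU]
  rw [Matrix.transpose_smul, Matrix.smul_mul, Matrix.mul_smul, Matrix.smul_mul, smul_smul, ← sq]

theorem J_det {X : Type} {n : ℕ} (J : Mat n) (hd : J.det ≠ 0) :
    (J.map (MvPolynomial.C (σ := X))).det ≠ 0 := by
  have h1 : (J.map (MvPolynomial.C (σ := X))).det = MvPolynomial.C J.det :=
    (RingHom.map_det (MvPolynomial.C (σ := X)) _).symm
  rw [h1]
  intro h
  exact hd (MvPolynomial.C_injective X ℂ (by rw [h, map_zero]))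

end SeckAux

theorem seck : S_SECK := by
  intro X _ n J J' hJ hJ' hd hd'
  by_cases hn : n = 0
  · subst hn
    refine ⟨fun i => i.elim0, fun i => i.elim0, 1, fun x y _ => ?_⟩
    ext i
    exact i.elim0
  obtain ⟨i0⟩ : Nonempty (Fin n) := ⟨⟨0, Nat.pos_of_ne_zero hn⟩⟩
  have hJa : (J.map (MvPolynomial.C (σ := X)))ᵀ = -J.map (MvPolynomial.C (σ := X)) := by
    rw [← Matrix.transpose_map, hJ]
    ext a b
    simp
  obtain ⟨c, W, hc, hW⟩ := SeckAux.basis (J.map (MvPolynomial.C (σ := X))) J' hJa hJ'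
    (SeckAux.J_det J hd) hd'
  refine ⟨fun _ => c, fun _ => hc,
    (MvPolynomial.X i0 ^ 2 : MvPolynomial (Fin n) (MvPolynomial X ℂ)) • (Wᵀ).map MvPolynomial.C,
    fun x y hy => ?_⟩
  set ev : MvPolynomial X ℂ →+* ℂ := MvPolynomial.eval x with hev
  have h1 : ((MvPolynomial.X i0 ^ 2 : MvPolynomial (Fin n) (MvPolynomial X ℂ)) •
      (Wᵀ).map MvPolynomial.C).map (MvPolynomial.eval₂ ev y) = (y i0 ^ 2) • (W.map ev)ᵀ := by
    ext a b
    simp only [Matrix.map_apply, Matrix.smul_apply, smul_eq_mul, Matrix.transpose_apply,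
      MvPolynomial.eval₂_mul, MvPolynomial.eval₂_pow, MvPolynomial.eval₂_X, MvPolynomial.eval₂_C]
  have h2 : W.map ev * J'.map ev * (W.map ev)ᵀ = (ev c) ^ 2 • J := by
    have h3 := congrArg (fun M => M.map ev) hW
    simp only [Matrix.map_mul, Matrix.transpose_map] at h3
    rw [h3]
    ext a b
    simp [Matrix.smul_apply, smul_eq_mul, hev]
  rw [h1, Matrix.transpose_smul, Matrix.transpose_transpose, Matrix.smul_mul, Matrix.smul_mul,
    Matrix.mul_smul, smul_smul, h2, smul_smul]
  have h4 : y i0 ^ 2 * ev c = 1 := hy i0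
  have h5 : y i0 ^ 2 * y i0 ^ 2 * ev c ^ 2 = 1 := by
    linear_combination (y i0 ^ 2 * ev c + 1) * h4
  rw [h5, one_smul]

end Pool.Agent.Y985.OR
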