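import Pool.Agent.Y985.OR.Stm2

set_option autoImplicit false

/-!
# OR-SECS: sections for symmetric forms
-/

namespace Pool.Agent.Y985.OR

open Matrix


namespace Secs407

/-- diagonalization over a field -/
theorem diagF {F : Type} [Field F] [CharZero F] {n : ℕ} (J : Matrix (Fin n) (Fin n) F)
    (hs : Jᵀ = J) : ∃ P : Matrix (Fin n) (Fin n) F, P.det ≠ 0 ∧
      ∀ i j, i ≠ j → (Pᵀ * J * P) i j = 0 := by
  have hinv : Invertible (2 : F) := invertibleOfNonzero two_ne_zero
  let B : LinearMap.BilinForm F (Fin n → F) := Matrix.toBilin' J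
  have hB : ∀ x y, B x y = x ⬝ᵥ J *ᵥ y := fun x y => Matrix.toBilin'_apply' J x y
  have hsymm : LinearMap.IsSymm B := by
    refine ⟨fun x y => ?_⟩
    change B x y = B y x
    rw [hB, hB, dotProduct_comm, ← vecMul_transpose, hs, ← dotProduct_mulVec]
  obtain ⟨v, hv⟩ := LinearMap.BilinForm.exists_orthogonal_basis hsymm
  have hn : Module.finrank F (Fin n → F) = n := by simp
  let w : Module.Basis (Fin n) F (Fin n → F) := v.reindex (finCongr hn)
  have hw : ∀ i j, i ≠ j → B (w i) (w j) = 0 := by
    intro i j hij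
    rw [Module.Basis.reindex_apply, Module.Basis.reindex_apply]
    exact hv (fun h => hij ((finCongr hn).symm.injective h))
  refine ⟨(Pi.basisFun F (Fin n)).toMatrix w, ?_, ?_⟩
  · have h1 := (Pi.basisFun F (Fin n)).invertibleToMatrix w
    exact (Matrix.isUnit_iff_isUnit_det _).1 (isUnit_of_invertible _) |>.ne_zero
  · intro i j hij
    have h1 := hw i j hij
    rw [hB] at h1
    have h2 : ∀ i a, (Pi.basisFun F (Fin n)).toMatrix w a i = w i a := by
      intro i a
      rw [Module.Basis.toMatrix_apply, Pi.basisFun_repr]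
    rw [Matrix.mul_assoc, Matrix.mul_apply, ← h1]
    simp only [dotProduct, Matrix.transpose_apply, h2]
    refine Finset.sum_congr rfl fun a _ => ?_
    rw [Matrix.mul_apply]
    simp only [Matrix.mulVec, dotProduct, h2]

/-- diagonalization over a domain, up to denominators -/
theorem diagR {R : Type} [CommRing R] [IsDomain R] [CharZero R] {n : ℕ}
    (J : Matrix (Fin n) (Fin n) R) (hs : Jᵀ = J) (hd : J.det ≠ 0) :
    ∃ (B : Matrix (Fin n) (Fin n) R) (d : Fin n → R), (∀ i, d i ≠ 0) ∧
      Bᵀ * J * B = Matrix.diagonal d := by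
  obtain ⟨P, hP, hP2⟩ := diagF (F := FractionRing R) (J.map (algebraMap R (FractionRing R)))
    (by rw [← Matrix.transpose_map, hs])
  obtain ⟨b, hb⟩ := IsLocalization.exist_integer_multiples_of_finite (nonZeroDivisors R)
    (fun p : Fin n × Fin n => P p.1 p.2)
  choose c hc using hb
  have hinj : Function.Injective (algebraMap R (FractionRing R)) :=
    IsFractionRing.injective R (FractionRing R)
  obtain ⟨B, hB⟩ : ∃ B : Matrix (Fin n) (Fin n) R, B = Matrix.of fun i j => c (i, j) := ⟨_, rfl⟩
  have hBP : B.map (algebraMap R (FractionRing R)) = (algebraMap R (FractionRing R) (b : R)) • P := by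
    ext i j
    rw [Matrix.map_apply, hB, Matrix.of_apply, hc (i, j), Matrix.smul_apply, Algebra.smul_def,
      smul_eq_mul]
  have hb0 : algebraMap R (FractionRing R) (b : R) ≠ 0 := by
    rw [Ne, FaithfulSMul.algebraMap_eq_zero_iff]
    exact nonZeroDivisors.ne_zero b.2
  have hdetB : B.det ≠ 0 := by
    intro h
    have h1 : (B.map (algebraMap R (FractionRing R))).det = 0 := by
      have h2 := RingHom.map_det (algebraMap R (FractionRing R)) B
      rw [h, map_zero] at h2
      exact h2.symm
    rw [hBP, Matrix.det_smul] at h1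
    rcases mul_eq_zero.1 h1 with h2 | h2
    · exact pow_ne_zero _ hb0 h2
    · exact hP h2
  have hoff : ∀ i j, i ≠ j → (Bᵀ * J * B) i j = 0 := by
    intro i j hij
    apply hinj
    rw [map_zero]
    have h1 : algebraMap R (FractionRing R) ((Bᵀ * J * B) i j) =
        ((B.map (algebraMap R (FractionRing R)))ᵀ * J.map (algebraMap R (FractionRing R)) *
          B.map (algebraMap R (FractionRing R))) i j := by
      rw [← Matrix.transpose_map, ← Matrix.map_mul, ← Matrix.map_mul, Matrix.map_apply]
    rw [h1, hBP, Matrix.transpose_smul, Matrix.smul_mul, Matrix.smul_mul, Matrix.mul_smul,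
      Matrix.smul_apply, Matrix.smul_apply, hP2 i j hij, smul_zero, smul_zero]
  have hdiag : Bᵀ * J * B = Matrix.diagonal fun i => (Bᵀ * J * B) i i := by
    ext i j
    by_cases hij : i = j
    · rw [hij, Matrix.diagonal_apply_eq]
    · rw [Matrix.diagonal_apply_ne _ hij, hoff i j hij]
  refine ⟨B, fun i => (Bᵀ * J * B) i i, ?_, hdiag⟩
  have hprod : ∏ i, (Bᵀ * J * B) i i ≠ 0 := by
    rw [← Matrix.det_diagonal, ← hdiag, Matrix.det_mul, Matrix.det_mul, Matrix.det_transpose]
    exact mul_ne_zero (mul_ne_zero hdetB hd) hdetB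
  intro i hi
  exact hprod (Finset.prod_eq_zero (Finset.mem_univ i) hi)

end Secs407

theorem secs : S_SQ → S_SECS := by
  intro hSQ X _ n J J' hJ hJ' hd hd'
  obtain ⟨M, hM⟩ := hSQ n J hJ hd
  obtain ⟨B, d, hd0, hB⟩ := Secs407.diagR J' hJ' hd'
  refine ⟨d, hd0, (B.map MvPolynomial.C) * Matrix.diagonal (fun i => MvPolynomial.X i) *
    (M.map fun z => MvPolynomial.C (MvPolynomial.C z)), fun x y hy => ?_⟩
  have e1 : ((B.map MvPolynomial.C) * Matrix.diagonal (fun i => MvPolynomial.X i) *
      (M.map fun z => MvPolynomial.C (MvPolynomial.C z))).map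
        (MvPolynomial.eval₂ (MvPolynomial.eval x) y) =
      B.map (MvPolynomial.eval x) * Matrix.diagonal y * M := by
    have h1 : (MvPolynomial.eval₂ (MvPolynomial.eval x) y : MvPolynomial (Fin n)
        (MvPolynomial X ℂ) → ℂ) = (MvPolynomial.eval₂Hom (MvPolynomial.eval x) y) := rfl
    rw [h1, Matrix.map_mul, Matrix.map_mul]
    congr 1
    · congr 1
      · ext i j
        simp [Matrix.map_apply]
      · rw [Matrix.diagonal_map (map_zero _)]
        congr 1
        funext i
        simp
    · ext i j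
      simp [Matrix.map_apply]
  rw [e1]
  have e2 : (B.map (MvPolynomial.eval x))ᵀ * J'.map (MvPolynomial.eval x) *
      B.map (MvPolynomial.eval x) = Matrix.diagonal fun i => MvPolynomial.eval x (d i) := by
    rw [← Matrix.transpose_map, ← Matrix.map_mul, ← Matrix.map_mul, hB,
      Matrix.diagonal_map (map_zero _)]
  rw [Matrix.transpose_mul, Matrix.transpose_mul, Matrix.diagonal_transpose]
  have e3 : Mᵀ * (Matrix.diagonal y * (B.map (MvPolynomial.eval x))ᵀ) *
      J'.map (MvPolynomial.eval x) * (B.map (MvPolynomial.eval x) * Matrix.diagonal y * M) =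
      Mᵀ * (Matrix.diagonal y * ((B.map (MvPolynomial.eval x))ᵀ * J'.map (MvPolynomial.eval x) *
      B.map (MvPolynomial.eval x)) * Matrix.diagonal y) * M := by
    simp only [Matrix.mul_assoc]
  rw [e3, e2, Matrix.diagonal_mul_diagonal, Matrix.diagonal_mul_diagonal]
  have e4 : (fun i => y i * MvPolynomial.eval x (d i) * y i) = fun _ => (1 : ℂ) := by
    funext i
    rw [← hy i]
    ring
  rw [e4, Matrix.diagonal_one, Matrix.mul_one, hM]

end Pool.Agent.Y985.OR
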