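import Pool.Agent.Y985.OR.Stm

/-!
# Symmetric invertible complex matrices are of the form `Mᵀ M`
-/

set_option autoImplicit false

namespace Pool.Agent.Y985.OR

open Matrix

namespace Sq

lemma eq_of_quad {n : ℕ} (S T : Mat n) (hS : Sᵀ = S) (hT : Tᵀ = T)
    (h : ∀ v : Fin n → ℂ, v ⬝ᵥ (S *ᵥ v) = v ⬝ᵥ (T *ᵥ v)) : S = T := by
  have e1 : ∀ (X : Mat n) (i j : Fin n), (Pi.single i (1 : ℂ)) ⬝ᵥ (X *ᵥ (Pi.single j (1 : ℂ))) =
      X i j := by
    intro X i j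
    simp
  have e2 : ∀ (X : Mat n), Xᵀ = X → ∀ i j : Fin n, 2 * X i j =
      (Pi.single i (1 : ℂ) + Pi.single j 1) ⬝ᵥ (X *ᵥ (Pi.single i (1 : ℂ) + Pi.single j 1)) -
      (Pi.single i (1 : ℂ)) ⬝ᵥ (X *ᵥ (Pi.single i (1 : ℂ))) -
      (Pi.single j (1 : ℂ)) ⬝ᵥ (X *ᵥ (Pi.single j (1 : ℂ))) := by
    intro X hX i j
    have hs : X j i = X i j := congrFun (congrFun hX i) j
    rw [mulVec_add, dotProduct_add, add_dotProduct, add_dotProduct, e1, e1, e1, e1, hs]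
    ring
  ext i j
  have h1 := e2 S hS i j
  have h2 := e2 T hT i j
  rw [h, h, h, ← h2] at h1
  exact mul_left_cancel₀ (by norm_num) h1

lemma exists_map {n : ℕ} (J : Mat n) (hJ : Jᵀ = J) (hd : J.det ≠ 0) :
    ∃ L : (Fin n → ℂ) →ₗ[ℂ] (Fin n → ℂ), ∀ v, (L v) ⬝ᵥ (L v) = v ⬝ᵥ (J *ᵥ v) := by
  set B : LinearMap.BilinForm ℂ (Fin n → ℂ) := Matrix.toLinearMap₂' ℂ J with hB
  have hBv : ∀ u v, B u v = u ⬝ᵥ (J *ᵥ v) := by
    intro u v
    rw [hB, Matrix.toLinearMap₂'_apply']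
  have hsymm : ∀ u v, B u v = B v u := by
    intro u v
    rw [hBv, hBv, dotProduct_mulVec, ← mulVec_transpose, hJ, dotProduct_comm]
  have hnd : B.Nondegenerate := by
    rw [hB]
    exact LinearMap.nondegenerate_toLinearMap₂'_iff_det_ne_zero.mpr hd
  set Q : QuadraticForm ℂ (Fin n → ℂ) := B.toQuadraticMap with hQ
  have hassoc : QuadraticMap.associated (R := ℂ) Q = B := by
    rw [hQ]
    exact QuadraticMap.associated_left_inverse ℂ (fun u v => hsymm u v)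
  have hsep : (QuadraticMap.associated (R := ℂ) Q).SeparatingLeft := by
    rw [hassoc]
    exact hnd.1
  obtain ⟨e⟩ := QuadraticForm.equivalent_weightedSumSquares_of_isAlgClosed Q hsep
  have hf : Module.finrank ℂ (Fin n → ℂ) = n := by simp
  refine ⟨(LinearMap.funLeft ℂ ℂ (Fin.cast hf.symm)).comp e.toLinearEquiv.toLinearMap, fun v => ?_⟩
  have h1 : QuadraticMap.weightedSumSquares ℂ (1 : Fin (Module.finrank ℂ (Fin n → ℂ)) → ℂ) (e v) =
      Q v := e.map_app v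
  have h2 : Q v = v ⬝ᵥ (J *ᵥ v) := by
    rw [hQ, LinearMap.BilinMap.toQuadraticMap_apply, hBv]
  rw [← h2, ← h1, QuadraticMap.weightedSumSquares_apply]
  unfold dotProduct
  refine Fintype.sum_equiv (finCongr hf.symm) _ _ fun i => ?_
  simp [LinearMap.funLeft_apply]

end Sq

theorem sq : S_SQ := by
  intro n J hJ hd
  obtain ⟨L, hL⟩ := Sq.exists_map J hJ hd
  refine ⟨LinearMap.toMatrix' L, ?_⟩
  apply Sq.eq_of_quad
  · rw [transpose_mul, transpose_transpose]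
  · exact hJ
  · intro v
    have h1 : (LinearMap.toMatrix' L) *ᵥ v = L v := LinearMap.toMatrix'_mulVec L v
    rw [← hL v, ← mulVec_mulVec, dotProduct_mulVec, vecMul_transpose, h1]

end Pool.Agent.Y985.OR
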