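import Pool.Agent.Y985.OR.Stm

/-!
# One more dimension
-/

set_option autoImplicit false

namespace Pool.Agent.Y985.OR.StepX

open Matrix Pool.Agent.Y985.OR

variable {n : ℕ} {J : Mat n}

theorem bl_add_left (u u' v : Fin n → ℂ) : bl J (u + u') v = bl J u v + bl J u' v := by
  unfold bl; rw [add_dotProduct]

theorem bl_smul_left (a : ℂ) (u v : Fin n → ℂ) : bl J (a • u) v = a * bl J u v := by
  unfold bl; rw [smul_dotProduct, smul_eq_mul]

theorem bl_comm (hJ : Jᵀ = J) (u v : Fin n → ℂ) : bl J u v = bl J v u := by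
  unfold bl
  rw [dotProduct_mulVec, ← mulVec_transpose, hJ, dotProduct_comm]

theorem bl_add_right (u v v' : Fin n → ℂ) : bl J u (v + v') = bl J u v + bl J u v' := by
  unfold bl; rw [mulVec_add, dotProduct_add]

theorem bl_smul_right (a : ℂ) (u v : Fin n → ℂ) : bl J u (a • v) = a * bl J u v := by
  unfold bl; rw [mulVec_smul, dotProduct_smul, smul_eq_mul]

theorem refl_mulVec (hJ : Jᵀ = J) (v x : Fin n → ℂ) :
    refl J v *ᵥ x = x - (2 * bl J v x / bl J v v) • v := by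
  have h1 : vecMulVec v (J *ᵥ v) *ᵥ x = (bl J v x) • v := by
    rw [bl_comm hJ v x]
    funext i
    simp only [mulVec, vecMulVec_apply, dotProduct, Pi.smul_apply, smul_eq_mul, bl]
    rw [Finset.sum_mul]
    refine Finset.sum_congr rfl fun j _ => ?_
    ring
  unfold refl
  rw [sub_mulVec, one_mulVec, smul_mulVec, h1, smul_smul]
  congr 2
  ring

theorem refl_smul {c : ℂ} (hc : c ≠ 0) (v : Fin n → ℂ) : refl J (c • v) = refl J v := by
  unfold refl
  rw [bl_smul_left, bl_smul_right, mulVec_smul]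
  congr 1
  ext i j
  simp only [Matrix.smul_apply, vecMulVec_apply, Pi.smul_apply, smul_eq_mul]
  by_cases h : bl J v v = 0
  · rw [h]; simp
  · field_simp

/-- iterating an eigenvector -/
theorem pow_eig (A : Mat n) (w : Fin n → ℂ) (s : ℂ) (h : A *ᵥ w = s • w) (m : ℕ) :
    (A ^ m) *ᵥ w = s ^ m • w := by
  induction m with
  | zero => simp
  | succ m ih =>
    rw [pow_succ, ← mulVec_mulVec, h, mulVec_smul, ih, smul_smul, pow_succ]
    congr 1
    ring

theorem pow_uni (A : Mat n) (z d : Fin n → ℂ) (h : A *ᵥ z = z + d) (hd : A *ᵥ d = d) (m : ℕ) :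
    (A ^ m) *ᵥ z = z + (m : ℂ) • d := by
  induction m with
  | zero => simp
  | succ m ih =>
    have h1 : (A ^ m) *ᵥ d = d := by
      have := pow_eig A d 1 (by rw [hd, one_smul]) m
      rwa [one_pow, one_smul] at this
    rw [pow_succ, ← mulVec_mulVec, h, mulVec_add, ih, h1]
    push_cast
    rw [add_smul, one_smul, add_assoc]

theorem ord (hJ : Jᵀ = J) (z y : Fin n → ℂ) (hz : bl J z z ≠ 0) (hy : bl J y y ≠ 0)
    (hind : ∀ a b : ℂ, a • z + b • y = 0 → a = 0 ∧ b = 0) (m : ℕ) (hm : 0 < m)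
    (h : (refl J z * refl J y) ^ m = 1) :
    ∃ ζ : ℂ, ζ ^ m = 1 ∧ ζ ≠ 1 ∧
      4 * bl J z y ^ 2 = (2 + ζ + ζ⁻¹) * (bl J z z * bl J y y) := by
  set a := bl J z z with ha
  set b := bl J y y with hb
  set c := bl J z y with hc
  have hcy : bl J y z = c := by rw [hc, bl_comm hJ]
  set τ : ℂ := 4 * c ^ 2 / (a * b) - 2 with hτ
  have hρy : (refl J z * refl J y) *ᵥ y = (2 * c / a) • z + (-1 : ℂ) • y := by
    rw [← mulVec_mulVec, refl_mulVec hJ y y, refl_mulVec hJ z, ← hb, mul_div_cancel_right₀ _ hy]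
    have e : y - (2 : ℂ) • y = (-1 : ℂ) • y := by
      rw [two_smul, neg_one_smul]; abel
    rw [e, bl_smul_right, ← hc, sub_eq_add_neg, ← neg_smul, add_comm]
    congr 2
    ring
  have hρz : (refl J z * refl J y) *ᵥ z = (τ + 1) • z + (-(2 * c / b)) • y := by
    rw [← mulVec_mulVec, refl_mulVec hJ y z, hcy, ← hb, sub_eq_add_neg, ← neg_smul, mulVec_add,
      mulVec_smul, refl_mulVec hJ z z, refl_mulVec hJ z y, ← ha, ← hc,
      mul_div_cancel_right₀ _ hz]
    have e : z - (2 : ℂ) • z = (-1 : ℂ) • z := by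
      rw [two_smul, neg_one_smul]; abel
    rw [e, smul_sub, smul_smul]
    have e2 : τ + 1 = -1 - (-(2 * c / b)) * (2 * c / a) := by
      rw [hτ]; field_simp; ring
    rw [e2, sub_smul]
    abel
  set A := refl J z * refl J y with hA
  -- the root of the characteristic polynomial
  obtain ⟨ζ, hζ⟩ : ∃ ζ : ℂ, ζ ^ 2 - τ * ζ + 1 = 0 := by
    obtain ⟨s, hs⟩ := IsAlgClosed.exists_pow_nat_eq (τ ^ 2 - 4) (n := 2) (by norm_num)
    refine ⟨(τ + s) / 2, ?_⟩
    linear_combination (1 / 4 : ℂ) * hs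
  have hζ0 : ζ ≠ 0 := by
    rintro rfl
    simp at hζ
  have hζτ : ζ + ζ⁻¹ = τ := by
    field_simp
    linear_combination hζ
  -- Cayley-Hamilton for z
  have hCH : A *ᵥ (A *ᵥ z) = τ • (A *ᵥ z) - z := by
    rw [hρz, mulVec_add, mulVec_smul, mulVec_smul, hρz, hρy]
    simp only [smul_add, smul_smul]
    have e1 : (τ + 1) * (τ + 1) + -(2 * c / b) * (2 * c / a) = τ * (τ + 1) - 1 := by
      have : 4 * c ^ 2 / (a * b) = τ + 2 := by rw [hτ]; ring
      have h2 : -(2 * c / b) * (2 * c / a) = - (4 * c ^ 2 / (a * b)) := by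
        field_simp; ring
      rw [h2, this]; ring
    have e2 : (τ + 1) * -(2 * c / b) + -(2 * c / b) * -1 = τ * -(2 * c / b) := by ring
    have e3 : ((τ + 1) * (τ + 1)) • z + ((τ + 1) * -(2 * c / b)) • y +
        ((-(2 * c / b) * (2 * c / a)) • z + (-(2 * c / b) * -1) • y) =
        ((τ + 1) * (τ + 1) + -(2 * c / b) * (2 * c / a)) • z +
          ((τ + 1) * -(2 * c / b) + -(2 * c / b) * -1) • y := by
      rw [add_smul, add_smul]; abel
    rw [e3, e1, e2, sub_smul, one_smul]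
    abel
  have hζm : ζ ^ m = 1 := by
    by_cases hw : A *ᵥ z - ζ⁻¹ • z = 0
    · have h1 : A *ᵥ z = ζ⁻¹ • z := sub_eq_zero.1 hw
      have h2 := pow_eig A z _ h1 m
      rw [h, one_mulVec] at h2
      have h3 : (1 - ζ⁻¹ ^ m) • z + (0 : ℂ) • y = 0 := by
        rw [sub_smul, one_smul, zero_smul, add_zero, sub_eq_zero]
        exact h2
      have h4 := (hind _ _ h3).1
      have h5 : ζ⁻¹ ^ m = 1 := (sub_eq_zero.1 h4).symm
      rw [inv_pow] at h5
      exact inv_eq_one.1 h5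
    · have h1 : A *ᵥ (A *ᵥ z - ζ⁻¹ • z) = ζ • (A *ᵥ z - ζ⁻¹ • z) := by
        rw [mulVec_sub, mulVec_smul, hCH, smul_sub, smul_smul, mul_inv_cancel₀ hζ0, one_smul,
          ← hζτ, add_smul]
        abel
      have h2 := pow_eig A _ _ h1 m
      rw [h, one_mulVec] at h2
      have h3 : (1 - ζ ^ m) • (A *ᵥ z - ζ⁻¹ • z) = 0 := by
        rw [sub_smul, one_smul, ← h2, sub_self]
      rcases smul_eq_zero.1 h3 with h4 | h4
      · exact (sub_eq_zero.1 h4).symm
      · exact absurd h4 hw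
  refine ⟨ζ, hζm, ?_, ?_⟩
  · intro h1
    rw [h1] at hζτ
    have hτ2 : τ = 2 := by rw [← hζτ]; norm_num
    have hd : A *ᵥ (A *ᵥ z - z) = A *ᵥ z - z := by
      rw [mulVec_sub, hCH, hτ2, two_smul]
      abel
    have h2 := pow_uni A z (A *ᵥ z - z) (by abel) hd m
    rw [h, one_mulVec] at h2
    have h3 : (m : ℂ) • (A *ᵥ z - z) = 0 := by
      have := h2.symm
      rwa [add_eq_left] at this
    have h4 : A *ᵥ z - z = 0 := by
      rcases smul_eq_zero.1 h3 with h5 | h5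
      · exact absurd h5 (by exact_mod_cast hm.ne')
      · exact h5
    rw [hρz, hτ2] at h4
    have h5 : (2 : ℂ) • z + (-(2 * c / b)) • y = 0 := by
      rw [← h4, add_smul, one_smul]
      abel
    exact two_ne_zero (hind _ _ h5).1
  · have h1 : 2 + ζ + ζ⁻¹ = τ + 2 := by rw [← hζτ]; ring
    rw [h1, hτ]
    field_simp
    ring

/-- countably many zeros -/
theorem quart (E A B C0 C1 D0 D1 p q : ℂ) (h : (p - q) * E ^ 2 ≠ 0) :
    {t : ℂ | p * (A + B * t - E * t ^ 2) ^ 2 -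
      q * ((C0 + C1 * t + E * t ^ 2) * (D0 + D1 * t + E * t ^ 2)) = 0}.Countable := by
  apply Set.Finite.countable
  set P : Polynomial ℂ := Polynomial.C ((p - q) * E ^ 2) * Polynomial.X ^ 4 +
    Polynomial.C (- 2 * p * B * E - q * (C1 * E + D1 * E)) * Polynomial.X ^ 3 +
    Polynomial.C (p * (B ^ 2 - 2 * A * E) - q * (C0 * E + D0 * E + C1 * D1)) * Polynomial.X ^ 2 +
    Polynomial.C (2 * p * A * B - q * (C0 * D1 + C1 * D0)) * Polynomial.X +
    Polynomial.C (p * A ^ 2 - q * (C0 * D0)) with hP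
  have hP0 : P ≠ 0 := by
    intro h0
    apply h
    have h1 : P.coeff 4 = 0 := by rw [h0]; simp
    rw [hP] at h1
    simp only [Polynomial.coeff_add, Polynomial.coeff_C_mul, Polynomial.coeff_X_pow,
      Polynomial.coeff_X, Polynomial.coeff_C] at h1
    norm_num at h1
    rcases h1 with h1 | h1
    · rw [h1]; simp
    · rw [h1]; simp
  refine (P.roots.toFinset.finite_toSet).subset ?_
  intro t ht
  simp only [Set.mem_ofPred_eq] at ht
  simp only [Finset.mem_coe, Multiset.mem_toFinset]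
  rw [Polynomial.mem_roots hP0, Polynomial.IsRoot.def, hP]
  simp only [Polynomial.eval_add, Polynomial.eval_mul, Polynomial.eval_C, Polynomial.eval_pow,
    Polynomial.eval_X]
  rw [← ht]
  ring

theorem rou_countable : {ζ : ℂ | ∃ m : ℕ, 0 < m ∧ ζ ^ m = 1}.Countable := by
  have h1 : {ζ : ℂ | ∃ m : ℕ, 0 < m ∧ ζ ^ m = 1} ⊆
      ⋃ m : ℕ, (((Polynomial.X ^ (m + 1) - 1 : Polynomial ℂ).roots.toFinset : Finset ℂ) : Set ℂ) := by
    rintro ζ ⟨m, hm, h⟩
    rw [Set.mem_iUnion]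
    refine ⟨m - 1, ?_⟩
    simp only [Finset.mem_coe, Multiset.mem_toFinset]
    have hne : (Polynomial.X ^ (m - 1 + 1) - 1 : Polynomial ℂ) ≠ 0 :=
      Polynomial.X_pow_sub_C_ne_zero (Nat.succ_pos _) 1
    rw [Polynomial.mem_roots hne, Polynomial.IsRoot.def]
    simp only [Polynomial.eval_sub, Polynomial.eval_pow, Polynomial.eval_X, Polynomial.eval_one]
    rw [Nat.sub_add_cancel hm, h, sub_self]
  refine Set.Countable.mono h1 (Set.countable_iUnion fun m => ?_)
  exact (Finset.finite_toSet _).countable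

/-- a good value of the parameter -/
theorem good_t (E A B C0 C1 D0 D1 : ℂ) (hE : E ≠ 0) :
    ∃ t : ℂ, (C0 + C1 * t + E * t ^ 2) ≠ 0 ∧ (D0 + D1 * t + E * t ^ 2) ≠ 0 ∧
      ∀ (m : ℕ) (ζ : ℂ), 0 < m → ζ ^ m = 1 → ζ ≠ 1 →
        4 * (A + B * t - E * t ^ 2) ^ 2 ≠
          (2 + ζ + ζ⁻¹) * ((C0 + C1 * t + E * t ^ 2) * (D0 + D1 * t + E * t ^ 2)) := by
  have h1 := quart E A B C0 C1 D0 D1 0 (-1) (by simpa using hE)
  have h2 : (⋃ ζ ∈ {ζ : ℂ | (∃ m : ℕ, 0 < m ∧ ζ ^ m = 1)} ∩ {ζ : ℂ | ζ ≠ 1 ∧ ζ ≠ 0},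
      {t : ℂ | 4 * (A + B * t - E * t ^ 2) ^ 2 -
      (2 + ζ + ζ⁻¹) * ((C0 + C1 * t + E * t ^ 2) * (D0 + D1 * t + E * t ^ 2)) = 0}).Countable := by
    refine (rou_countable.mono Set.inter_subset_left).biUnion ?_
    rintro ζ ⟨_, hζ1, hζ0⟩
    apply quart
    refine mul_ne_zero ?_ (pow_ne_zero 2 hE)
    intro h3
    have h4 : (ζ - 1) ^ 2 = 0 := by
      have h5 : (4 - (2 + ζ + ζ⁻¹)) * ζ = 0 := by rw [h3, zero_mul]
      have h6 : ζ⁻¹ * ζ = 1 := inv_mul_cancel₀ hζ0
      linear_combination -h5 - h6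
    exact hζ1 (sub_eq_zero.1 (pow_eq_zero_iff (two_ne_zero)|>.1 h4))
  have h3 := h1.union h2
  have h4 : ∃ t : ℂ, t ∉ {t : ℂ | 0 * (A + B * t - E * t ^ 2) ^ 2 -
      (-1) * ((C0 + C1 * t + E * t ^ 2) * (D0 + D1 * t + E * t ^ 2)) = 0} ∪
      (⋃ ζ ∈ {ζ : ℂ | (∃ m : ℕ, 0 < m ∧ ζ ^ m = 1)} ∩ {ζ : ℂ | ζ ≠ 1 ∧ ζ ≠ 0},
      {t : ℂ | 4 * (A + B * t - E * t ^ 2) ^ 2 -
      (2 + ζ + ζ⁻¹) * ((C0 + C1 * t + E * t ^ 2) * (D0 + D1 * t + E * t ^ 2)) = 0}) := by
    by_contra hc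
    push Not at hc
    apply not_countable_complex
    convert h3 using 1
    exact (Set.eq_univ_of_forall hc).symm
  obtain ⟨t, ht⟩ := h4
  rw [Set.mem_union, not_or] at ht
  obtain ⟨ht1, ht2⟩ := ht
  simp only [Set.mem_ofPred_eq] at ht1
  refine ⟨t, ?_, ?_, ?_⟩
  · intro h; apply ht1; rw [h]; ring
  · intro h; apply ht1; rw [h]; ring
  · intro m ζ hm hζ hζ1 heq
    apply ht2
    simp only [Set.mem_iUnion]
    refine ⟨ζ, ⟨⟨m, hm, hζ⟩, hζ1, ?_⟩, ?_⟩
    · rintro rfl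
      rw [zero_pow hm.ne'] at hζ
      exact zero_ne_one hζ
    · simp only [Set.mem_ofPred_eq]
      rw [heq, sub_self]

end StepX

open Matrix StepX

theorem step : S_PLANE → S_STEP := by
  intro hPL n J hJ hdet S hS W hW v e hv hvS heW he hev
  by_cases hvW : v ∈ W
  · have h1 : W ⊔ Submodule.span ℂ {v} = W := by
      rw [sup_eq_left, Submodule.span_singleton_le_iff_mem]
      exact hvW
    rw [h1]
    exact hW
  -- all reflections of the plane of e and v
  have hinde : ∀ a b : ℂ, a • e + b • v = 0 → a = 0 ∧ b = 0 := by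
    intro a b hab
    have hb : b = 0 := by
      by_contra hb
      apply hvW
      have h1 : v = (-(b⁻¹ * a)) • e := by
        have h2 : b • v = -(a • e) := by
          rw [eq_neg_iff_add_eq_zero, add_comm]; exact hab
        have h3 : v = b⁻¹ • (b • v) := by rw [smul_smul, inv_mul_cancel₀ hb, one_smul]
        rw [h3, h2, smul_neg, smul_smul, neg_smul]
      rw [h1]
      exact W.smul_mem _ heW
    refine ⟨?_, hb⟩
    rw [hb, zero_smul, add_zero] at hab
    rcases smul_eq_zero.1 hab with h | h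
    · exact h
    · exfalso
      apply he
      rw [h]
      unfold bl
      simp
  have hinf : ∀ m : ℕ, 0 < m → (refl J e * refl J v) ^ m ≠ 1 := by
    intro m hm hp
    obtain ⟨ζ, h1, _, h3⟩ := ord hJ e v he hv hinde m hm hp
    rw [hev] at h3
    have h4 : (8 - (2 + ζ + ζ⁻¹)) * (bl J e e * bl J v v) = 0 := by linear_combination h3
    have h5 : 8 - (2 + ζ + ζ⁻¹) = 0 := by
      rcases mul_eq_zero.1 h4 with h | h
      · exact h
      · exact absurd h (mul_ne_zero he hv)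
    have h6 : ‖ζ‖ = 1 := by
      have := congrArg norm h1
      rw [norm_pow, norm_one] at this
      exact (pow_eq_one_iff_of_nonneg (norm_nonneg _) hm.ne').1 this
    have h7 : (6 : ℂ) = ζ + ζ⁻¹ := by linear_combination h5
    have h8 : ‖(6 : ℂ)‖ ≤ 2 := by
      rw [h7]
      refine (norm_add_le _ _).trans ?_
      rw [norm_inv, h6]
      norm_num
    norm_num at h8
  have heS : refl J e ∈ S := hW e heW he
  have hplane := hPL n J hJ hdet S hS e v he hv heS hvS hinf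
  intro x hx hxx
  obtain ⟨w, hw, u, hu, hwu⟩ := Submodule.mem_sup.1 hx
  obtain ⟨s, rfl⟩ := Submodule.mem_span_singleton.1 hu
  by_cases hs : s = 0
  · rw [hs, zero_smul, add_zero] at hwu
    rw [← hwu]
    exact hW w hw (by rw [hwu]; exact hxx)
  -- scaling
  have hx' : s⁻¹ • x = (s⁻¹ • w) + v := by
    rw [← hwu, smul_add, smul_smul, inv_mul_cancel₀ hs, one_smul]
  have hsi : s⁻¹ ≠ 0 := inv_ne_zero hs
  rw [← refl_smul hsi x]
  have hxx' : bl J (s⁻¹ • x) (s⁻¹ • x) ≠ 0 := by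
    rw [bl_smul_left, bl_smul_right]
    exact mul_ne_zero hsi (mul_ne_zero hsi hxx)
  rw [hx'] at hxx' ⊢
  have hw' : s⁻¹ • w ∈ W := W.smul_mem _ hw
  generalize s⁻¹ • w = w' at hxx' hw'
  clear hx'
  obtain ⟨t, ht1, ht2, ht3⟩ := good_t (bl J e e) (bl J w' v) (bl J w' e - bl J e v)
    (bl J w' w') (-2 * bl J w' e) (bl J v v) (2 * bl J e v) he
  have hzz : bl J (w' + (-t) • e) (w' + (-t) • e) =
      bl J w' w' + -2 * bl J w' e * t + bl J e e * t ^ 2 := by
    rw [bl_add_left, bl_add_right, bl_add_right, bl_smul_left, bl_smul_left, bl_smul_right,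
      bl_smul_right, bl_comm hJ e w']
    ring
  have hyy : bl J (t • e + (1 : ℂ) • v) (t • e + (1 : ℂ) • v) =
      bl J v v + 2 * bl J e v * t + bl J e e * t ^ 2 := by
    rw [one_smul, bl_add_left, bl_add_right, bl_add_right, bl_smul_left, bl_smul_left,
      bl_smul_right, bl_smul_right, bl_comm hJ v e]
    ring
  have hzy : bl J (w' + (-t) • e) (t • e + (1 : ℂ) • v) =
      bl J w' v + (bl J w' e - bl J e v) * t - bl J e e * t ^ 2 := by
    rw [one_smul, bl_add_left, bl_add_right, bl_add_right, bl_smul_left, bl_smul_left,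
      bl_smul_right, bl_smul_right]
    ring
  rw [← hzz] at ht1
  rw [← hyy] at ht2
  simp only [← hzz, ← hyy, ← hzy] at ht3
  have hzW : w' + (-t) • e ∈ W := W.add_mem hw' (W.smul_mem _ heW)
  have hzS : refl J (w' + (-t) • e) ∈ S := hW _ hzW ht1
  have hyS : refl J (t • e + (1 : ℂ) • v) ∈ S := hplane t 1 ht2
  have hind : ∀ a b : ℂ, a • (w' + (-t) • e) + b • (t • e + (1 : ℂ) • v) = 0 →
      a = 0 ∧ b = 0 := by
    intro a b hab
    have hb : b = 0 := by
      by_contra hb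
      apply hvW
      have h2 : b • v = -(a • (w' + (-t) • e) + (b * t) • e) := by
        rw [eq_neg_iff_add_eq_zero, ← hab, one_smul, smul_add b, smul_smul b t]
        abel
      have h3 : v = b⁻¹ • (b • v) := by rw [smul_smul, inv_mul_cancel₀ hb, one_smul]
      rw [h3, h2]
      exact W.smul_mem _ (W.neg_mem (W.add_mem (W.smul_mem _ hzW) (W.smul_mem _ heW)))
    refine ⟨?_, hb⟩
    rw [hb, zero_smul, add_zero] at hab
    rcases smul_eq_zero.1 hab with h | h
    · exact h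
    · exfalso
      apply ht1
      rw [h]
      unfold bl
      simp
  have hinf2 : ∀ m : ℕ, 0 < m →
      (refl J (w' + (-t) • e) * refl J (t • e + (1 : ℂ) • v)) ^ m ≠ 1 := by
    intro m hm hp
    obtain ⟨ζ, h1, h2, h3⟩ := ord hJ _ _ ht1 ht2 hind m hm hp
    exact ht3 m ζ hm h1 h2 h3
  have hfin := hPL n J hJ hdet S hS _ _ ht1 ht2 hzS hyS hinf2 1 1
  have hsum : (1 : ℂ) • (w' + (-t) • e) + (1 : ℂ) • (t • e + (1 : ℂ) • v) = w' + v := by
    rw [one_smul, one_smul, one_smul, neg_smul]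
    abel
  rw [hsum] at hfin
  exact hfin hxx'

end Pool.Agent.Y985.OR
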