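import Pool.Agent.Y985.OR.Stm2

/-!
# OR-WRAP: the engine for systems given by polynomials

Proved by helper434 (after `Pool.Agent.Y890.VH.excP_cov`).
-/

set_option autoImplicit false

namespace Pool.Agent.Y985.OR

open NumberField
open Pool.Agent.Y890.MV
open Pool.Agent.Y890.SP (Qbar)
open Pool.Agent.Y119.PLM (sum_expM)
open Pool.Agent.Y124 (Cov)

namespace WrapAux

variable {X σ : Type} [Fintype σ] [DecidableEq σ] {δ : ℕ}

/-- the coefficients of the system -/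
noncomputable def Xi {h r : Type} (δ : ℕ) (B : r → h → MvPolynomial σ ℂ) (ρ : r)
    (l : σ → Fin (δ + 1)) (i : h) : ℂ :=
  (B ρ i).coeff (Finsupp.equivFunOnFinite.symm fun y => (l y : ℕ))

theorem sysM_iff {h r : Type} [Fintype h] (f : σ → (X → ℂ) → ℂ) (B : r → h → MvPolynomial σ ℂ)
    (hB : ∀ ρ i y, (B ρ i).degreeOf y ≤ δ) (x : X → ℂ) (c : h → ℂ) :
    SysM (δ := δ) f (Xi δ B) x c ↔
      ∀ ρ, ∑ i, c i * MvPolynomial.eval (fun y => f y x) (B ρ i) = 0 := by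
  unfold SysM
  refine forall_congr' fun ρ => ?_
  have h1 : ∑ l : σ → Fin (δ + 1), (∑ i, Xi δ B ρ l i * c i) * ∏ y, f y x ^ (l y : ℕ) =
      ∑ i, c i * MvPolynomial.eval (fun y => f y x) (B ρ i) := by
    simp only [← sum_expM (hB ρ _) (fun y => f y x), Finset.mul_sum, Finset.sum_mul]
    rw [Finset.sum_comm]
    refine Finset.sum_congr rfl fun i _ => Finset.sum_congr rfl fun l _ => ?_
    unfold Xi
    ring
  rw [h1]

end WrapAux

open WrapAux

theorem wrap : S_WRAP := by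
  intro X σ _ _ _ _ _ U f hU hUo hne hf hreg Lc hLc hLU δ h r _ _ _ _ m A ε hε
  obtain ⟨D, C, T₀, hC, hT₀, H⟩ :=
    excM_cov stmZ stmClose stmCharts hU hUo hne hf hreg Lc hLc hLU δ h r m A ε hε
  refine ⟨D, C, T₀, hC, hT₀, fun K _ _ hK io B hB T hT => ?_⟩
  refine (H K hK io (Xi δ B) T hT).mono le_rfl le_rfl (Set.image_mono ?_)
  rintro s ⟨h1, h2, c, h3, h4, h5⟩
  refine ⟨h1, h2, c, h3, ?_, ?_⟩
  · rw [sysM_iff f B hB]
    exact h4
  · rintro ⟨G, hG1, hG2⟩
    apply h5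
    refine ⟨G, hG1, fun x hx => ?_⟩
    have h6 := hG2 x hx
    rw [sysM_iff f B hB] at h6
    exact h6

end Pool.Agent.Y985.OR
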