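import Pool.Agent.Y985.OR.Main
import Pool.Agent.Y985.OR.CD
import Pool.Agent.Y985.OR.Plane
import Pool.Agent.Y985.OR.Step
import Pool.Agent.Y985.OR.Ex
import Pool.Agent.Y985.OR.All
import Pool.Agent.Y985.OR.Irr
import Pool.Agent.Y985.OR.Irrk
import Pool.Agent.Y985.OR.Irrt
import Pool.Agent.Y985.OR.Connt
import Pool.Agent.Y985.OR.Desc
import Pool.Agent.Y985.OR.Desci
import Pool.Agent.Y985.OR.Reg
import Pool.Agent.Y985.OR.Sq
import Pool.Agent.Y985.OR.Secs
import Pool.Agent.Y985.OR.Seck
import Pool.Agent.Y985.OR.Ee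
import Pool.Agent.Y985.OR.Part
import Pool.Agent.Y985.OR.Wrap
import Pool.Agent.Y985.OR.Exc
import Pool.Agent.Y985.OR.Fin
import Pool.Agent.Y985.OR.Dense

/-!
# The main theorems, without hypotheses
-/

set_option autoImplicit false

namespace Pool.Agent.Y985.OR

theorem irrt' : S_IRRT := irrt (irr cd) irrk

theorem reg' : S_REG3 := reg3 (connt irrt') detk (desci desc)

theorem exc' : S_EXC3 := exc3 irrt' detk

/-- the theorem on exceptional points, symmetric and skew forms -/
theorem fin' : S_FIN3 := fin3 reg' (secs sq) seck ee part wrap exc'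

theorem all' : S_ALL := all cd plane (step plane) ex

/-- the criterion of density, symmetric and skew forms -/
theorem dense' : S_DENSE := dense all'

end Pool.Agent.Y985.OR
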