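import Pool.Agent.Y985.OR.Stm3

/-!
# Families with orthogonal monodromy: the final form
-/

set_option autoImplicit false

namespace Pool.Agent.Y985.OR

open Matrix NumberField Filter
open Pool.Agent.Y119.PLM (MT Ix IsMon vt GalT pe DenseMon Big)
open Pool.Agent.Y890.MV (InnerM)
open Pool.Agent.Y124 (Cov)

/-- the exceptional points: `s` in `K ^ X`, of height at most `T`, in the compact set `InnerM U k`, such that some
polynomial `P` of partial degrees at most `k`, whose coefficients are combinations `∑ ξ i * c i` with integers `c i` of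
`K` all of whose conjugates are at most `T ^ k`, vanishes at the values `Y j (s)` but not at all tuples of matrices `A`
with `(A j)ᵀ * J' j (s) * A j = J j` and `det (A j) = det (Y j (s))` -/
def ExcE {X κ : Type} [Fintype X] {n : κ → ℕ} (J : MT n)
    (J' : (j : κ) → Matrix (Fin (n j)) (Fin (n j)) (MvPolynomial X ℂ)) (U : Set (X → ℂ)) (Y : (X → ℂ) → MT n)
    (K : Type) [Field K] [NumberField K] (io : K →+* ℂ) (k : ℕ) (ξ : Fin k → ℂ) (T : ℝ) : Set (X → K) :=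
  {s | (∀ i, Y120.HtLe K T (s i)) ∧ (fun i => io (s i)) ∈ InnerM U k ∧ ∃ P : MvPolynomial (Ix n) ℂ,
    (∀ y, P.degreeOf y ≤ k) ∧
    (∀ m, ∃ c : Fin k → 𝓞 K, (∀ i (φ : K →+* ℂ), ‖φ (c i : K)‖ ≤ T ^ (k : ℝ)) ∧
      P.coeff m = ∑ i, ξ i * io (c i : K)) ∧
    pe P (Y fun i => io (s i)) = 0 ∧
    ∃ A : MT n, (∀ j, (A j)ᵀ * (J' j).map (MvPolynomial.eval fun i => io (s i)) * A j = J j ∧
      (A j).det = (Y (fun i => io (s i)) j).det) ∧ pe P A ≠ 0}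

lemma excE_sub {X κ : Type} [Fintype X] {n : κ → ℕ} (J : MT n)
    (J' : (j : κ) → Matrix (Fin (n j)) (Fin (n j)) (MvPolynomial X ℂ)) (U : Set (X → ℂ)) (Y : (X → ℂ) → MT n)
    (K : Type) [Field K] [NumberField K] (io : K →+* ℂ) (k : ℕ) (ξ : Fin k → ℂ) (T : ℝ) :
    ExcE J J' U Y K io k ξ T ⊆ ExcO J J' U Y K io k ξ T := by
  rintro s ⟨h1, h2, P, h3, h4, h5, A, h6, h7⟩
  exact ⟨h1, h2, P, h3, h4, h5, A, fun j => (h6 j).1, fun j _ => (h6 j).2, h7⟩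

theorem fewE_of {X κ : Type} [Fintype X] {n : κ → ℕ} {J : MT n}
    {J' : (j : κ) → Matrix (Fin (n j)) (Fin (n j)) (MvPolynomial X ℂ)} {U : Set (X → ℂ)} {Y : (X → ℂ) → MT n}
    (h : FewO J J' U Y) :
    ∃ (ω : ℝ → ℕ) (T₀ : ℝ), Tendsto ω atTop atTop ∧ Monotone ω ∧ ∀ T, T₀ ≤ T → 0 < ω T ∧
      ∀ (K : Type) [Field K] [NumberField K], Module.finrank ℚ K ≤ ω T → ∀ (io : K →+* ℂ) (ξ : Fin (ω T) → ℂ),
        Cov ⌊T ^ ((ω T : ℝ)⁻¹)⌋₊ ⌊T ^ ((ω T : ℝ)⁻¹)⌋₊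
          ((fun (s : X → K) i => io (s i)) '' ExcE J J' U Y K io (ω T) ξ T) ∧
        (ExcE J J' U Y K io (ω T) ξ T).Finite ∧
        ((ExcE J J' U Y K io (ω T) ξ T).ncard : ℝ) ≤
          T ^ ((ω T : ℝ)⁻¹) * ({x : K | Y120.HtLe K T x}.ncard : ℝ) ^ (Fintype.card X - 1) := by
  obtain ⟨ω, T₀, h1, h2, h3⟩ := h
  refine ⟨ω, T₀, h1, h2, fun T hT => ⟨(h3 T hT).1, fun K _ _ hK io ξ => ?_⟩⟩
  obtain ⟨h4, h5, h6⟩ := (h3 T hT).2 K hK io ξ
  have hs := excE_sub J J' U Y K io (ω T) ξ T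
  refine ⟨h4.mono le_rfl le_rfl (Set.image_mono hs), h5.subset hs, le_trans ?_ h6⟩
  exact_mod_cast Set.ncard_le_ncard hs h5

/-- The exceptional sets of families with dense monodromy. -/
theorem main_of (hFin : S_FIN3) {X κ : Type} [Fintype X] [DecidableEq X] [Nonempty X] [Fintype κ] [DecidableEq κ]
    {n : κ → ℕ} {J : MT n} {J' : (j : κ) → Matrix (Fin (n j)) (Fin (n j)) (MvPolynomial X ℂ)} {U : Set (X → ℂ)}
    {Y : (X → ℂ) → MT n} (hF : Fam J J' U Y) (hD : DenseS U Y J) :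
    ∃ (ω : ℝ → ℕ) (T₀ : ℝ), Tendsto ω atTop atTop ∧ Monotone ω ∧ ∀ T, T₀ ≤ T → 0 < ω T ∧
      ∀ (K : Type) [Field K] [NumberField K], Module.finrank ℚ K ≤ ω T → ∀ (io : K →+* ℂ) (ξ : Fin (ω T) → ℂ),
        Cov ⌊T ^ ((ω T : ℝ)⁻¹)⌋₊ ⌊T ^ ((ω T : ℝ)⁻¹)⌋₊
          ((fun (s : X → K) i => io (s i)) '' ExcE J J' U Y K io (ω T) ξ T) ∧
        (ExcE J J' U Y K io (ω T) ξ T).Finite ∧
        ((ExcE J J' U Y K io (ω T) ξ T).ncard : ℝ) ≤
          T ^ ((ω T : ℝ)⁻¹) * ({x : K | Y120.HtLe K T x}.ncard : ℝ) ^ (Fintype.card X - 1) :=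
  fewE_of (hFin X κ n J J' U Y hF hD)

end Pool.Agent.Y985.OR
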