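import Pool.Agent.Y985.OR.Stm2

/-!
# The twists
-/

set_option autoImplicit false

namespace Pool.Agent.Y985.OR.Tau

open Matrix NumberField Filter
open Pool.Agent.Y119.PLM (MT Ix IsMon vt GalT pe DenseMon Big)

variable {κ : Type} {n : κ → ℕ} {J E : MT n}

lemma tau_mul (hE : EOK J E) (s t : κ → ℂ) : tau E s * tau E t = tau E (fun j => s j * t j) := by
  funext j
  rw [Pi.mul_apply]
  unfold tau
  rcases hE j with ⟨_, h⟩ | ⟨_, h, _, _⟩
  · rw [h]
    simp
  · have h1 : (1 + (s j - 1) • E j) * (1 + (t j - 1) • E j) =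
        1 + (s j - 1) • E j + (t j - 1) • E j + ((s j - 1) * (t j - 1)) • (E j * E j) := by
      rw [add_mul, mul_add, mul_add, Matrix.smul_mul, Matrix.smul_mul, Matrix.mul_smul, Matrix.mul_smul, one_mul,
        mul_one, one_mul, smul_smul]
      abel
    rw [h1, h, add_assoc, add_assoc, ← add_smul, ← add_smul]
    congr 2
    ring

lemma tau_one (E : MT n) : tau E (fun _ => 1) = 1 := by
  funext j
  unfold tau
  simp

lemma hat_tau (hE : EOK J E) (A : MT n) (hA : ∀ j, (A j).det ≠ 0) :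
    hat E A * tau E (fun j => ((A j).det)⁻¹) = A := by
  unfold hat
  rw [mul_assoc, tau_mul hE]
  have : (fun j => (A j).det * ((A j).det)⁻¹) = fun _ => (1 : ℂ) := by
    funext j
    exact mul_inv_cancel₀ (hA j)
  rw [this, tau_one, mul_one]

/-- the entries of the twist as polynomials -/
noncomputable def hatp {X : Type} (E : MT n) (i : Ix n) : MvPolynomial (Ix n) (MvPolynomial X ℂ) :=
  ∑ c, MvPolynomial.X ⟨i.1, i.2.1, c⟩ *
    (MvPolynomial.C (MvPolynomial.C ((1 : Matrix (Fin (n i.1)) (Fin (n i.1)) ℂ) c i.2.2)) +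
      ((Matrix.of fun a b : Fin (n i.1) => (MvPolynomial.X (⟨i.1, a, b⟩ : Ix n) :
        MvPolynomial (Ix n) (MvPolynomial X ℂ))).det - 1) * MvPolynomial.C (MvPolynomial.C (E i.1 c i.2.2)))

lemma vt_hom {X : Type} (P : MvPolynomial (Ix n) (MvPolynomial X ℂ)) (x : X → ℂ) (A : MT n) :
    vt P x A = MvPolynomial.eval₂Hom (MvPolynomial.eval x) (fun i : Ix n => A i.1 i.2.1 i.2.2) P := rfl

lemma vt_hatp {X : Type} (E : MT n) (i : Ix n) (x : X → ℂ) (A : MT n) :
    vt (hatp E i) x A = hat E A i.1 i.2.1 i.2.2 := by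
  rw [vt_hom]
  unfold hatp hat
  rw [map_sum, Pi.mul_apply, Matrix.mul_apply]
  refine Finset.sum_congr rfl fun c _ => ?_
  rw [map_mul, map_add, map_mul, map_sub, map_one, RingHom.map_det]
  have h1 : (MvPolynomial.eval₂Hom (MvPolynomial.eval x) (fun i : Ix n => A i.1 i.2.1 i.2.2)).mapMatrix
      (Matrix.of fun a b : Fin (n i.1) => (MvPolynomial.X (⟨i.1, a, b⟩ : Ix n) :
        MvPolynomial (Ix n) (MvPolynomial X ℂ))) = A i.1 := by
    ext a b
    simp
  rw [h1]
  simp only [MvPolynomial.coe_eval₂Hom, MvPolynomial.eval₂_X, MvPolynomial.eval₂_C, MvPolynomial.eval_C]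
  unfold tau
  rw [Matrix.add_apply, Matrix.smul_apply, smul_eq_mul]

/-- substitution of the entries of the twist and of polynomials in the base variables -/
noncomputable def sub {X : Type} (E : MT n) (D : κ → MvPolynomial X ℂ) : Ix n ⊕ κ → MvPolynomial (Ix n) (MvPolynomial X ℂ)
  | Sum.inl i => hatp E i
  | Sum.inr j => MvPolynomial.C (D j)

lemma vt_sub {X : Type} (E : MT n) (D : κ → MvPolynomial X ℂ) (q : MvPolynomial (Ix n ⊕ κ) ℂ) (x : X → ℂ) (A : MT n) :
    vt (MvPolynomial.aeval (sub E D) q) x A =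
      MvPolynomial.eval (Sum.elim (fun i : Ix n => hat E A i.1 i.2.1 i.2.2) fun j => MvPolynomial.eval x (D j)) q := by
  rw [vt_hom]
  induction q using MvPolynomial.induction_on with
  | C a =>
    rw [MvPolynomial.aeval_C, MvPolynomial.eval_C, IsScalarTower.algebraMap_apply ℂ (MvPolynomial X ℂ),
      MvPolynomial.algebraMap_eq, MvPolynomial.algebraMap_eq]
    simp
  | add p q hp hq => rw [map_add, map_add, map_add, hp, hq]
  | mul_X p i hp =>
    rw [map_mul, map_mul, map_mul, hp, MvPolynomial.aeval_X, MvPolynomial.eval_X]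
    congr 1
    rcases i with i | j
    · exact vt_hatp E i x A
    · simp [sub]

lemma det_rel {X : Type} {J' : (j : κ) → Matrix (Fin (n j)) (Fin (n j)) (MvPolynomial X ℂ)} {x : X → ℂ} {A : MT n}
    {j : κ} (h : (A j)ᵀ * (J' j).map (MvPolynomial.eval x) * A j = J j) :
    (A j).det ^ 2 * MvPolynomial.eval x (J' j).det = (J j).det := by
  rw [← h, det_mul, det_mul, det_transpose, RingHom.map_det]
  have : (MvPolynomial.eval x).mapMatrix (J' j) = (J' j).map (MvPolynomial.eval x) := rfl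
  rw [this]
  ring

/-- the square of the inverse determinant is a polynomial in the base variables -/
lemma inv_det {X : Type} {J' : (j : κ) → Matrix (Fin (n j)) (Fin (n j)) (MvPolynomial X ℂ)} {x : X → ℂ} {A : MT n}
    {j : κ} (hJ : (J j).det ≠ 0) (h : (A j)ᵀ * (J' j).map (MvPolynomial.eval x) * A j = J j) :
    ((A j).det)⁻¹ ^ 2 = MvPolynomial.eval x (MvPolynomial.C ((J j).det)⁻¹ * (J' j).det) := by
  have h1 := det_rel h
  have h2 : (A j).det ≠ 0 := by
    intro h0
    rw [h0] at h1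
    apply hJ
    rw [← h1]
    ring
  rw [map_mul, MvPolynomial.eval_C]
  rw [← h1]
  have h3 : MvPolynomial.eval x (J' j).det ≠ 0 := by
    intro h0
    rw [h0, mul_zero] at h1
    exact hJ h1.symm
  field_simp

lemma fe_eq {X : Type} {J' : (j : κ) → Matrix (Fin (n j)) (Fin (n j)) (MvPolynomial X ℂ)} {x : X → ℂ}
    {Y : (X → ℂ) → MT n} (hJ : ∀ j, (J j).det ≠ 0)
    (h : ∀ j, (Y x j)ᵀ * (J' j).map (MvPolynomial.eval x) * Y x j = J j) :
    (fun o => fe E Y o x) = Sum.elim (fun i : Ix n => hat E (Y x) i.1 i.2.1 i.2.2)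
      (fun j => MvPolynomial.eval x (MvPolynomial.C ((J j).det)⁻¹ * (J' j).det)) := by
  funext o
  rcases o with i | j
  · rfl
  · exact inv_det (hJ j) (h j)

end Pool.Agent.Y985.OR.Tau
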